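import Pool.Agent.R164.ArrCells

/-!
The edge boundary of the chosen cells.
-/

set_option autoImplicit false

namespace Pool.Agent.R164.Arr

/-- the two sets differ exactly in `i` -/
def Flip (i : Idx) (σ ρ : Finset Idx) : Prop :=
  (∀ k, k ≠ i → (k ∈ σ ↔ k ∈ ρ)) ∧ (i ∈ σ ↔ i ∉ ρ)

/-- the point of a segment on the hyperplane which separates the ends -/
theorem mid {v w : E3} {i : Idx} (hv : ∀ k, fn k v ≠ 0) (hw : ∀ k, fn k w ≠ 0)
    (h : Flip i (sgn fn Finset.univ v) (sgn fn Finset.univ w)) :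
    ∃ u : E3, fn i u = 0 ∧ ∀ k, k ≠ i → (0 < fn k v → 0 < fn k u) ∧ (fn k v < 0 → fn k u < 0) := by
  have key : ∀ k, k ≠ i → (0 < fn k v ↔ 0 < fn k w) := by
    intro k hk
    have := h.1 k hk
    rw [mem_sgn, mem_sgn] at this
    have hu := Finset.mem_univ k
    tauto
  have hi : (0 < fn i v ↔ ¬ 0 < fn i w) := by
    have := h.2
    rw [mem_sgn, mem_sgn] at this
    have hu := Finset.mem_univ i
    tauto
  have hseg : ∀ t : ℝ, 0 ≤ t → t ≤ 1 → (1 - t) * fn i v + t * fn i w = 0 →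
      ∃ u : E3, fn i u = 0 ∧ ∀ k, k ≠ i →
        (0 < fn k v → 0 < fn k u) ∧ (fn k v < 0 → fn k u < 0) := by
    intro t t0 t1 ht
    refine ⟨v + t • (w - v), by rw [affFam.seg]; exact ht, fun k hk => ?_⟩
    rw [affFam.seg]
    constructor
    · intro h1
      have h2 := (key k hk).1 h1
      rcases eq_or_lt_of_le t0 with h3 | h3
      · rw [← h3]; linarith
      · nlinarith [mul_pos h3 h2, mul_nonneg (sub_nonneg.2 t1) h1.le]
    · intro h1
      have h2 : fn k w < 0 :=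
        lt_of_le_of_ne (not_lt.1 fun h2 => absurd ((key k hk).2 h2) (not_lt.2 h1.le)) (hw k)
      rcases eq_or_lt_of_le t0 with h3 | h3
      · rw [← h3]; linarith
      · nlinarith [mul_neg_of_pos_of_neg h3 h2, mul_nonpos_of_nonneg_of_nonpos
          (sub_nonneg.2 t1) h1.le]
  rcases lt_or_gt_of_ne (hv i) with h1 | h1
  · have h2 : 0 < fn i w := by
      by_contra h3
      exact absurd (hi.2 h3) (not_lt.2 h1.le)
    have hden : 0 < fn i w - fn i v := by linarith
    refine hseg (-fn i v / (fn i w - fn i v)) (div_nonneg (by linarith) hden.le)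
      (by rw [div_le_one hden]; linarith) ?_
    field_simp
    ring
  · have h2 : fn i w < 0 := lt_of_le_of_ne (not_lt.1 (hi.1 h1)) (hw i)
    have hden : 0 < fn i v - fn i w := by linarith
    refine hseg (fn i v / (fn i v - fn i w)) (div_nonneg h1.le hden.le)
      (by rw [div_le_one hden]; linarith) ?_
    field_simp
    ring

/-- the boundary facets on `P` planes -/
theorem facetP {u : E3} {l : Fin 48} {t : ℕ} (ht : t ≤ 48) (h0 : fn (Sum.inl l) u = 0)
    (h1 : ∀ i : Fin 48, i ≠ l → t ≤ (i : ℕ) → 0 < fn (Sum.inl i) u)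
    (h2 : ∀ i : Fin 48, i ≠ l → (i : ℕ) < t → fn (Sum.inl i) u < 0)
    {j : Fin 36} (h3 : fn (Sum.inr j) u < 0) (h4 : (l : ℕ) ≠ t) (h5 : (l : ℕ) + 1 ≠ t) :
    ((l : ℕ) = 47 ∧ t ≤ 46) ∨ (t = 48 ∧ ((l : ℕ) = 46 ∨ (l : ℕ) = 0)) := by
  have hτ := τ_pos
  by_cases hl : (l : ℕ) = 47
  · left
    exact ⟨hl, by omega⟩
  right
  have hL := inl_zero h0 hl
  set a := aP l with ha
  have ha1 : 1 ≤ a := aP_one_le l
  have ha2 : a ≤ 47 := aP_le' hl
  -- the quotients
  have hφ : ∀ i : Fin 48, (i : ℕ) ≠ 47 → i ≠ l → fn (Sum.inl i) u =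
      (aP i - a) * ((1 - u 2) - τ * (a + aP i) * u 1 + τ ^ 2 * (a ^ 2 + a * aP i + aP i ^ 2)) := by
    intro i hi _
    have : fn (Sum.inl i) u = u 0 + aP i * (1 - u 2) - τ * eP i * u 1 + τ ^ 2 * aP i ^ 3 := rfl
    rw [this, eP_ne hi]
    linear_combination hL
  by_cases hcase : ∃ i : Fin 48, (i : ℕ) ≠ 47 ∧ i ≠ l ∧
      (1 - u 2) - τ * (a + aP i) * u 1 + τ ^ 2 * (a ^ 2 + a * aP i + aP i ^ 2) < 0
  · obtain ⟨i, hi, hil, hneg⟩ := hcase
    obtain ⟨hy, h48⟩ := keyP ha1 ha2 (aP_one_le i) (aP_le' hi) (bQ_one_le j) (bQ_le j) hL hneg h3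
    -- the special plane is negative
    have hs : fn (Sum.inl (⟨47, by norm_num⟩ : Fin 48)) u < 0 := by
      have : fn (Sum.inl (⟨47, by norm_num⟩ : Fin 48)) u =
        u 0 + aP ⟨47, by norm_num⟩ * (1 - u 2) - τ * eP ⟨47, by norm_num⟩ * u 1 +
          τ ^ 2 * aP ⟨47, by norm_num⟩ ^ 3 := rfl
      rw [this, aP_47 rfl, eP_47 rfl]
      linarith
    have ht48 : t = 48 := by
      by_contra hne
      have := h1 ⟨47, by norm_num⟩ (fun h => hl (by rw [← h])) (by simp only; omega)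
      linarith
    refine ⟨ht48, ?_⟩
    by_contra hcon
    push Not at hcon
    have n0 : (⟨0, by norm_num⟩ : Fin 48) ≠ l := fun h => hcon.2 (by rw [← h])
    have n46 : (⟨46, by norm_num⟩ : Fin 48) ≠ l := fun h => hcon.1 (by rw [← h])
    have g0 := h2 ⟨0, by norm_num⟩ n0 (by simp only; omega)
    have g46 := h2 ⟨46, by norm_num⟩ n46 (by simp only; omega)
    rw [hφ _ (by simp) n0] at g0
    rw [hφ _ (by simp) n46] at g46
    have v0 : aP (⟨0, by norm_num⟩ : Fin 48) = 1 := by simp [aP]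
    have v46 : aP (⟨46, by norm_num⟩ : Fin 48) = 47 := by simp [aP]; norm_num
    rw [v0] at g0
    rw [v46] at g46
    have a1 : 1 < a := by
      have h6 : (⟨0, by norm_num⟩ : Fin 48) < l := Fin.lt_def.2 (by simp only; omega)
      have := aP_lt h6
      rw [v0] at this
      linarith
    have a2 : a < 47 := by
      have h6 : l < (⟨46, by norm_num⟩ : Fin 48) := Fin.lt_def.2 (by simp only; omega)
      have := aP_lt h6
      rw [v46] at this
      linarith
    have p0 : 0 < (1 - u 2) - τ * (a + 1) * u 1 + τ ^ 2 * (a ^ 2 + a * 1 + 1 ^ 2) := by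
      by_contra h
      push Not at h
      have := mul_nonneg_of_nonpos_of_nonpos (by linarith : 1 - a ≤ 0) h
      linarith
    have p46 : (1 - u 2) - τ * (a + 47) * u 1 + τ ^ 2 * (a ^ 2 + a * 47 + 47 ^ 2) < 0 := by
      by_contra h
      push Not at h
      have := mul_nonneg (by linarith : 0 ≤ 47 - a) h
      linarith
    have e1 : 0 < τ * 46 * (-u 1) := by
      have : 0 < -u 1 := by linarith
      positivity
    have e2 : 0 ≤ τ ^ 2 * (46 * a) := by positivity
    have e3 : 0 ≤ τ ^ 2 := by positivity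
    linarith
  · push Not at hcase
    -- all quotients are nonnegative
    have s1 : ∀ i : Fin 48, (i : ℕ) < l → fn (Sum.inl i) u ≤ 0 := by
      intro i hi
      have hne : i ≠ l := fun h => by rw [h] at hi; omega
      rw [hφ i (by omega) hne]
      have h6 : i < l := Fin.lt_def.2 hi
      have h7 := aP_lt h6
      exact mul_nonpos_of_nonpos_of_nonneg (by linarith) (hcase i (by omega) hne)
    have s2 : ∀ i : Fin 48, (l : ℕ) < i → (i : ℕ) ≠ 47 → 0 ≤ fn (Sum.inl i) u := by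
      intro i hi hi'
      have hne : i ≠ l := fun h => by rw [h] at hi; omega
      rw [hφ i hi' hne]
      have h6 : l < i := Fin.lt_def.2 hi
      have h7 := aP_lt h6
      exact mul_nonneg (by linarith) (hcase i hi' hne)
    have c1 : (l : ℕ) ≤ t := by
      by_contra hlt
      have hl0 : 0 < (l : ℕ) := by omega
      have hlt2 := l.2
      have h6 := s1 ⟨(l : ℕ) - 1, by omega⟩ (by simp only; omega)
      have h7 := h1 ⟨(l : ℕ) - 1, by omega⟩ (fun h => by
        have := congrArg Fin.val h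
        simp only at this
        omega) (by simp only; omega)
      linarith
    have c2 : (l : ℕ) = 46 := by
      by_contra hne
      have hlt2 := l.2
      have h6 := s2 ⟨(l : ℕ) + 1, by omega⟩ (by simp only; omega) (by simp only; omega)
      have h7 := h2 ⟨(l : ℕ) + 1, by omega⟩ (fun h => by
        have := congrArg Fin.val h
        simp only at this
        omega) (by simp only; omega)
      linarith
    exact ⟨by omega, Or.inl c2⟩

/-- the boundary facets on `Q` planes -/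
theorem facetQ {u : E3} {l : Fin 36} (h0 : fn (Sum.inr l) u = 0)
    (h1 : ∀ i : Fin 36, i ≠ l → 0 < fn (Sum.inr i) u)
    (h2 : fn (Sum.inl (0 : Fin 48)) u < 0) : (l : ℕ) = 0 ∨ (l : ℕ) = 35 := by
  by_contra hcon
  push Not at hcon
  have n0 : (⟨0, by norm_num⟩ : Fin 36) ≠ l := fun h => hcon.1 (by rw [← h])
  have n35 : (⟨35, by norm_num⟩ : Fin 36) ≠ l := fun h => hcon.2 (by rw [← h])
  have g0 := h1 _ n0
  have g35 := h1 _ n35
  have v0 : bQ (⟨0, by norm_num⟩ : Fin 36) = 1 := by simp [bQ]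
  have v35 : bQ (⟨35, by norm_num⟩ : Fin 36) = 36 := by simp [bQ]; norm_num
  set b := bQ l with hb
  have b1 : 1 < b := by
    have h6 : (⟨0, by norm_num⟩ : Fin 36) < l := Fin.lt_def.2 (by simp only; omega)
    have := bQ_lt h6
    rw [v0] at this
    linarith
  have b2 : b < 36 := by
    have h6 : l < (⟨35, by norm_num⟩ : Fin 36) := Fin.lt_def.2 (by simp only; omega)
    have := bQ_lt h6
    rw [v35] at this
    linarith
  have hL : u 1 + b * u 2 + τ * b ^ 2 * u 0 + τ ^ 2 * b ^ 3 = 0 := h0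
  have e0 : 0 < u 1 + 1 * u 2 + τ * 1 ^ 2 * u 0 + τ ^ 2 * 1 ^ 3 := by
    have : fn (Sum.inr (⟨0, by norm_num⟩ : Fin 36)) u =
      u 1 + bQ ⟨0, by norm_num⟩ * u 2 + τ * bQ ⟨0, by norm_num⟩ ^ 2 * u 0 +
        τ ^ 2 * bQ ⟨0, by norm_num⟩ ^ 3 := rfl
    rw [this, v0] at g0
    exact g0
  have e35 : 0 < u 1 + 36 * u 2 + τ * 36 ^ 2 * u 0 + τ ^ 2 * 36 ^ 3 := by
    have : fn (Sum.inr (⟨35, by norm_num⟩ : Fin 36)) u =
      u 1 + bQ ⟨35, by norm_num⟩ * u 2 + τ * bQ ⟨35, by norm_num⟩ ^ 2 * u 0 +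
        τ ^ 2 * bQ ⟨35, by norm_num⟩ ^ 3 := rfl
    rw [this, v35] at g35
    exact g35
  have p0 : u 2 + τ * (1 + b) * u 0 + τ ^ 2 * (1 + b + b ^ 2) < 0 := by
    by_contra h
    push Not at h
    have := mul_nonneg (by linarith : 0 ≤ b - 1) h
    linarith
  have p35 : 0 < u 2 + τ * (36 + b) * u 0 + τ ^ 2 * (36 ^ 2 + 36 * b + b ^ 2) := by
    by_contra h
    push Not at h
    have := mul_nonneg_of_nonpos_of_nonpos (by linarith : b - 36 ≤ 0) h
    linarith
  have hpos := keyQ b1.le b2.le hL p0 p35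
  have h3 : fn (Sum.inl (0 : Fin 48)) u =
    u 0 + aP 0 * (1 - u 2) - τ * eP 0 * u 1 + τ ^ 2 * aP 0 ^ 3 := rfl
  have a0 : aP 0 = 1 := by simp [aP]
  have e00 : eP 0 = 1 := by rw [eP_ne (by simp), a0]; norm_num
  rw [h3, a0, e00] at h2
  linarith

def ZZ : Finset (ℕ × Fin 48) :=
  ((Finset.range 49) ×ˢ Finset.univ).filter fun p =>
    ((p.2 : ℕ) = 47 ∧ p.1 ≤ 46) ∨ (p.1 = 48 ∧ ((p.2 : ℕ) = 46 ∨ (p.2 : ℕ) = 0))

def WW : Finset (ℕ × Fin 36) :=
  ((Finset.range 49) ×ˢ Finset.univ).filter fun p =>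
    p.1 = 0 ∨ (p.2 : ℕ) = 0 ∨ (p.2 : ℕ) = 35

theorem card_ZZ : ZZ.card = 49 := by decide +kernel

theorem card_WW : WW.card = 132 := by decide +kernel

/-- the boundary pairs -/
def Bd : Set (Finset Idx × Finset Idx) :=
  {p | p.1 ∈ Sc ∧ p.2 ∈ Cells ∧ p.2 ∉ Sc ∧ ∃ i, Flip i p.1 p.2}

noncomputable def BP : Finset (Finset Idx × Finset Idx) :=
  (ZZ ×ˢ Finset.Icc 1 36).image fun q : (ℕ × Fin 48) × ℕ =>
    ((thr 48 q.1.1).disjSum (thr 36 q.2), (symmDiff (thr 48 q.1.1) {q.1.2}).disjSum (thr 36 q.2))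

noncomputable def BQ : Finset (Finset Idx × Finset Idx) :=
  WW.image fun q : ℕ × Fin 36 =>
    ((thr 48 q.1).disjSum (Finset.univ.erase q.2), (thr 48 q.1).disjSum Finset.univ)

theorem card_BP : BP.card ≤ 1764 := by
  unfold BP
  refine Finset.card_image_le.trans (le_of_eq ?_)
  have h1 : (Finset.Icc 1 36).card = 36 := by simp
  rw [Finset.card_product, card_ZZ, h1]

theorem card_BQ : BQ.card ≤ 132 := by
  unfold BQ
  exact Finset.card_image_le.trans card_WW.le

theorem flip_left {l : Fin 48} {σ ρ : Finset Idx} (h : Flip (Sum.inl l) σ ρ) :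
    ρ.toLeft = symmDiff σ.toLeft {l} ∧ ρ.toRight = σ.toRight := by
  constructor
  · ext i
    rw [Finset.mem_symmDiff, Finset.mem_toLeft, Finset.mem_toLeft, Finset.mem_singleton]
    by_cases hi : i = l
    · subst hi
      have := h.2
      tauto
    · have := h.1 (Sum.inl i) (fun hh => hi (Sum.inl_injective hh))
      tauto
  · ext j
    rw [Finset.mem_toRight, Finset.mem_toRight]
    exact (h.1 (Sum.inr j) (by simp)).symm

theorem flip_right {l : Fin 36} {σ ρ : Finset Idx} (h : Flip (Sum.inr l) σ ρ) :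
    ρ.toLeft = σ.toLeft ∧ σ.toRight = symmDiff ρ.toRight {l} := by
  constructor
  · ext j
    rw [Finset.mem_toLeft, Finset.mem_toLeft]
    exact (h.1 (Sum.inl j) (by simp)).symm
  · ext i
    rw [Finset.mem_symmDiff, Finset.mem_toRight, Finset.mem_toRight, Finset.mem_singleton]
    by_cases hi : i = l
    · subst hi
      have := h.2
      tauto
    · have := h.1 (Sum.inr i) (fun hh => hi (Sum.inr_injective hh))
      tauto

theorem thr_erase {n t : ℕ} {l : Fin n} (h : (l : ℕ) = t) :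
    symmDiff (thr n t) {l} = thr n (t + 1) := by
  ext i
  rw [Finset.mem_symmDiff, mem_thr, mem_thr, Finset.mem_singleton]
  have : i = l ↔ (i : ℕ) = t := by rw [Fin.ext_iff, h]
  rw [this]
  omega

theorem thr_insert {n t : ℕ} {l : Fin n} (h : (l : ℕ) + 1 = t) :
    symmDiff (thr n t) {l} = thr n (l : ℕ) := by
  ext i
  rw [Finset.mem_symmDiff, mem_thr, mem_thr, Finset.mem_singleton]
  have : i = l ↔ (i : ℕ) = (l : ℕ) := by rw [Fin.ext_iff]
  rw [this]
  omega

theorem Bd_or (σ ρ : Finset Idx) (hp : σ ∈ Sc ∧ ρ ∈ Cells ∧ ρ ∉ Sc ∧ ∃ i, Flip i σ ρ) :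
    (σ, ρ) ∈ BP ∨ (σ, ρ) ∈ BQ := by
  classical
  obtain ⟨hSc, hCe, hns, i, hflip⟩ := hp
  obtain ⟨⟨v, _, hv, hσ⟩, ⟨t, ht, hL⟩, hR⟩ := hSc
  obtain ⟨w, _, hw, hρ⟩ := hCe
  have hv' : ∀ k, fn k v ≠ 0 := fun k => hv k (Finset.mem_univ _)
  have hw' : ∀ k, fn k w ≠ 0 := fun k => hw k (Finset.mem_univ _)
  have hρC : ρ ∈ Cells := ⟨w, Set.mem_univ _, hw, hρ⟩
  obtain ⟨u, hu0, hu⟩ := mid hv' hw' (by rw [← hσ, ← hρ]; exact hflip)
  have memL : ∀ k : Fin 48, k ∈ σ.toLeft ↔ 0 < fn (Sum.inl k) v := by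
    intro k
    rw [Finset.mem_toLeft, hσ, mem_sgn]
    exact ⟨fun h => h.2, fun h => ⟨Finset.mem_univ _, h⟩⟩
  have memR : ∀ k : Fin 36, k ∈ σ.toRight ↔ 0 < fn (Sum.inr k) v := by
    intro k
    rw [Finset.mem_toRight, hσ, mem_sgn]
    exact ⟨fun h => h.2, fun h => ⟨Finset.mem_univ _, h⟩⟩
  have memL' : ∀ k : Fin 48, k ∈ ρ.toLeft ↔ 0 < fn (Sum.inl k) w := by
    intro k
    rw [Finset.mem_toLeft, hρ, mem_sgn]
    exact ⟨fun h => h.2, fun h => ⟨Finset.mem_univ _, h⟩⟩
  have memR' : ∀ k : Fin 36, k ∈ ρ.toRight ↔ 0 < fn (Sum.inr k) w := by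
    intro k
    rw [Finset.mem_toRight, hρ, mem_sgn]
    exact ⟨fun h => h.2, fun h => ⟨Finset.mem_univ _, h⟩⟩
  have hvP : ∀ k : Fin 48, (t ≤ (k : ℕ) → 0 < fn (Sum.inl k) v) ∧
      ((k : ℕ) < t → fn (Sum.inl k) v < 0) := by
    intro k
    have h1 := memL k
    rw [hL, mem_thr] at h1
    constructor
    · intro h; exact h1.1 h
    · intro h
      exact lt_of_le_of_ne (not_lt.1 fun h2 => by have := h1.2 h2; omega) (hv' _)
  rcases i with l | l
  · -- a `P` plane
    obtain ⟨f1, f2⟩ := flip_left hflip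
    rw [hL] at f1
    have hne : ∀ t' ≤ 48, ρ.toLeft ≠ thr 48 t' := by
      intro t' ht' h
      exact hns ⟨hρC, ⟨t', ht', h⟩, by rw [f2]; exact hR⟩
    have hlt := l.2
    have n1 : (l : ℕ) ≠ t := fun h => hne (t + 1) (by omega) (by rw [f1, thr_erase h])
    have n2 : (l : ℕ) + 1 ≠ t := fun h => hne (l : ℕ) (by omega) (by rw [f1, thr_insert h])
    obtain ⟨a, a', ha, ha1, ha2⟩ := not_thr _ hne
    rw [memL'] at ha1
    rw [memL'] at ha2
    have hthr : ∃ s ≤ 36, σ.toRight = thr 36 s := by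
      by_contra hcon
      push Not at hcon
      obtain ⟨b, b', hb, hb1, hb2⟩ := not_thr _ hcon
      rw [← f2, memR'] at hb1
      rw [← f2, memR'] at hb2
      exact dichot ha hb ha1.le (not_lt.1 ha2) hb1.le (not_lt.1 hb2)
    obtain ⟨s, hs, hsR⟩ := hthr
    have hs0 : s ≠ 0 := by
      rintro rfl
      exact hR (by rw [hsR, thr_zero])
    -- a negative `Q`
    have hneg : fn (Sum.inr (⟨0, by norm_num⟩ : Fin 36)) v < 0 := by
      refine lt_of_le_of_ne (not_lt.1 fun h => ?_) (hv' _)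
      rw [← memR, hsR, mem_thr] at h
      simp only at h
      omega
    have hZ := facetP ht hu0
      (fun k hk h => (hu (Sum.inl k) (fun hh => hk (Sum.inl_injective hh))).1 ((hvP k).1 h))
      (fun k hk h => (hu (Sum.inl k) (fun hh => hk (Sum.inl_injective hh))).2 ((hvP k).2 h))
      ((hu (Sum.inr ⟨0, by norm_num⟩) (by simp)).2 hneg) n1 n2
    left
    unfold BP
    rw [Finset.mem_image]
    refine ⟨((t, l), s), ?_, ?_⟩
    · rw [Finset.mem_product, Finset.mem_Icc]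
      refine ⟨?_, by simp only; omega, by simp only; omega⟩
      unfold ZZ
      rw [Finset.mem_filter, Finset.mem_product, Finset.mem_range]
      exact ⟨⟨by simp only; omega, Finset.mem_univ _⟩, hZ⟩
    · simp only [Prod.mk.injEq]
      constructor
      · rw [← hL, ← hsR, Finset.toLeft_disjSum_toRight]
      · rw [← f1, ← hsR, ← f2, Finset.toLeft_disjSum_toRight]
  · -- a `Q` plane
    obtain ⟨f1, f2⟩ := flip_right hflip
    have hρR : ρ.toRight = Finset.univ := by
      by_contra hne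
      exact hns ⟨hρC, ⟨t, ht, by rw [f1, hL]⟩, hne⟩
    rw [hρR] at f2
    have hσR : σ.toRight = Finset.univ.erase l := by
      rw [f2]
      ext k
      rw [Finset.mem_symmDiff, Finset.mem_erase, Finset.mem_singleton]
      have := Finset.mem_univ k
      tauto
    right
    unfold BQ
    rw [Finset.mem_image]
    refine ⟨(t, l), ?_, ?_⟩
    · unfold WW
      rw [Finset.mem_filter, Finset.mem_product, Finset.mem_range]
      refine ⟨⟨by simp only; omega, Finset.mem_univ _⟩, ?_⟩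
      simp only
      by_cases ht0 : t = 0
      · exact Or.inl ht0
      · right
        refine facetQ hu0 (fun k hk => ?_) ?_
        · refine (hu (Sum.inr k) (fun hh => hk (Sum.inr_injective hh))).1 ?_
          rw [← memR, hσR]
          exact Finset.mem_erase.2 ⟨hk, Finset.mem_univ _⟩
        · exact (hu (Sum.inl 0) (by simp)).2 ((hvP 0).2 (by simp only [Fin.val_zero]; omega))
    · simp only [Prod.mk.injEq]
      constructor
      · rw [← hL, ← hσR, Finset.toLeft_disjSum_toRight]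
      · rw [← hL, ← f1, ← hρR, Finset.toLeft_disjSum_toRight]

theorem Bd_sub : Bd ⊆ ((BP ∪ BQ : Finset (Finset Idx × Finset Idx)) :
    Set (Finset Idx × Finset Idx)) := by
  intro p hp
  rw [Finset.mem_coe, Finset.mem_union]
  exact Bd_or p.1 p.2 hp

theorem Bd_ncard : Bd.ncard ≤ 1896 := by
  classical
  have h1 := Set.ncard_le_ncard Bd_sub (Finset.finite_toSet _)
  rw [Set.ncard_coe_finset] at h1
  have h2 := Finset.card_union_le BP BQ
  have h3 := card_BP
  have h4 := card_BQ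
  omega

end Pool.Agent.R164.Arr
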