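import Pool.Agent.R164.ArrFam2

/-!
Counting the cells of the arrangement of 84 planes.
-/

set_option autoImplicit false

namespace Pool.Agent.R164.Arr

/-- up-sets of `Fin n` -/
def thr (n t : ℕ) : Finset (Fin n) := Finset.univ.filter fun i => t ≤ (i : ℕ)

theorem mem_thr {n t : ℕ} {i : Fin n} : i ∈ thr n t ↔ t ≤ (i : ℕ) := by simp [thr]

theorem thr_zero (n : ℕ) : thr n 0 = Finset.univ := by
  ext i; simp [mem_thr]

theorem thr_inj {n t t' : ℕ} (ht : t ≤ n) (ht' : t' ≤ n) (h : thr n t = thr n t') : t = t' := by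
  rcases lt_trichotomy t t' with h1 | h1 | h1
  · have h2 : (⟨t, by omega⟩ : Fin n) ∈ thr n t := mem_thr.2 le_rfl
    rw [h, mem_thr] at h2
    simp only at h2
    omega
  · exact h1
  · have h2 : (⟨t', by omega⟩ : Fin n) ∈ thr n t' := mem_thr.2 le_rfl
    rw [← h, mem_thr] at h2
    simp only at h2
    omega

/-- a set which is closed upwards is a threshold set -/
theorem exists_thr {n : ℕ} (A : Finset (Fin n)) (h : ∀ i i' : Fin n, i < i' → i ∈ A → i' ∈ A) :
    ∃ t ≤ n, A = thr n t := by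
  rcases A.eq_empty_or_nonempty with rfl | hne
  · refine ⟨n, le_rfl, ?_⟩
    ext i
    simp only [Finset.notMem_empty, mem_thr, false_iff, not_le]
    exact i.2
  · refine ⟨((A.min' hne : Fin n) : ℕ), (A.min' hne).2.le, ?_⟩
    ext i
    rw [mem_thr]
    constructor
    · intro hi
      exact Fin.le_def.1 (A.min'_le i hi)
    · intro hi
      rcases eq_or_lt_of_le hi with h1 | h1
      · have : A.min' hne = i := Fin.ext h1
        rw [← this]; exact A.min'_mem hne
      · exact h _ _ (Fin.lt_def.2 h1) (A.min'_mem hne)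

theorem not_thr {n : ℕ} (A : Finset (Fin n)) (h : ∀ t ≤ n, A ≠ thr n t) :
    ∃ i i' : Fin n, i < i' ∧ i ∈ A ∧ i' ∉ A := by
  by_contra hcon
  push Not at hcon
  obtain ⟨t, ht, hA⟩ := exists_thr A fun i i' h1 h2 => hcon i i' h1 h2
  exact h t ht hA

/-- the region with threshold `t` for the `P` planes -/
def Kt (t : ℕ) : Set E3 :=
  {v | ∀ i : Fin 48, (t ≤ (i : ℕ) → 0 < fn (Sum.inl i) v) ∧ ((i : ℕ) < t → fn (Sum.inl i) v < 0)}

theorem Kt_open (t : ℕ) : OpenConvex (Kt t) := by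
  constructor
  · intro v hv w hw a b ha hb hab i
    have e : a • v + b • w = v + b • (w - v) := by
      have : a = 1 - b := by linarith
      rw [this]; module
    rw [e, affFam.seg]
    have h1 : 1 - b = a := by linarith
    rw [h1]
    constructor
    · intro h
      have h2 := (hv i).1 h
      have h3 := (hw i).1 h
      rcases eq_or_lt_of_le ha with h4 | h4
      · have : b = 1 := by linarith
        rw [← h4, this]; linarith
      · nlinarith [mul_pos h4 h2, mul_nonneg hb h3.le]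
    · intro h
      have h2 := (hv i).2 h
      have h3 := (hw i).2 h
      rcases eq_or_lt_of_le ha with h4 | h4
      · have : b = 1 := by linarith
        rw [← h4, this]; linarith
      · nlinarith [mul_neg_of_pos_of_neg h4 h2, mul_nonpos_of_nonneg_of_nonpos hb h3.le]
  · intro v hv d
    have hne : ∀ i ∈ (Finset.univ : Finset (Fin 48)).map Function.Embedding.inl,
        fn (i : Idx) v ≠ 0 := by
      intro i hi
      obtain ⟨j, _, rfl⟩ := Finset.mem_map.1 hi
      change fn (Sum.inl j) v ≠ 0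
      rcases Nat.lt_or_ge (j : ℕ) t with h1 | h1
      · exact ((hv j).2 h1).ne
      · exact ((hv j).1 h1).ne'
    obtain ⟨ε, he, hk⟩ := exists_small affFam _ v d hne
    refine ⟨ε, he, fun s hs i => ?_⟩
    obtain ⟨h1, h2⟩ := hk s hs
    have hmem : (Sum.inl i : Idx) ∈ (Finset.univ : Finset (Fin 48)).map Function.Embedding.inl :=
      Finset.mem_map.2 ⟨i, Finset.mem_univ _, rfl⟩
    have h3 := h1 _ hmem
    have h4 : 0 < fn (Sum.inl i) (v + s • d) ↔ 0 < fn (Sum.inl i) v := by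
      have h5 : (Sum.inl i : Idx) ∈
          sgn fn ((Finset.univ : Finset (Fin 48)).map Function.Embedding.inl) (v + s • d) ↔
          (Sum.inl i : Idx) ∈
          sgn fn ((Finset.univ : Finset (Fin 48)).map Function.Embedding.inl) v := by
        rw [h2]
      rw [mem_sgn, mem_sgn] at h5
      tauto
    constructor
    · intro h; exact h4.2 ((hv i).1 h)
    · intro h
      have h5 : ¬ 0 < fn (Sum.inl i) (v + s • d) := fun h6 => by
        have := h4.1 h6
        have := (hv i).2 h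
        linarith
      exact lt_of_le_of_ne (not_lt.1 h5) h3

theorem univ_open : OpenConvex (Set.univ : Set E3) :=
  ⟨convex_univ, fun _ _ _ => ⟨1, one_pos, fun _ _ => Set.mem_univ _⟩⟩

/-- points of the line of two `Q` planes -/
theorem pair_pt {b b' x : ℝ} (hb : 1 ≤ b) (hb2 : b ≤ 36) (hb' : 1 ≤ b')
    (hb2' : b' ≤ 36) (hx : -49 ≤ x) (hx2 : x ≤ 0) : ∃ y z : ℝ,
    y + b * z + τ * b ^ 2 * x + τ ^ 2 * b ^ 3 = 0 ∧
    y + b' * z + τ * b' ^ 2 * x + τ ^ 2 * b' ^ 3 = 0 ∧
    ∀ a e : ℝ, 1 ≤ a → a ≤ 48 → 0 ≤ e → e ≤ 2304 →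
      |(x + a * (1 - z) - τ * e * y + τ ^ 2 * a ^ 3) - (x + a)| ≤ 1 / 4 := by
  have hτ := τ_pos
  refine ⟨τ * (b * b' * x) + τ ^ 2 * (b * b' * (b + b')),
    -(τ * ((b + b') * x)) - τ ^ 2 * (b ^ 2 + b * b' + b' ^ 2), by ring, by ring, ?_⟩
  intro a e ha ha2 he he2
  set y := τ * (b * b' * x) + τ ^ 2 * (b * b' * (b + b')) with hy
  set z := -(τ * ((b + b') * x)) - τ ^ 2 * (b ^ 2 + b * b' + b' ^ 2) with hz
  have hbb : b * b' ≤ 1296 := by
    have := mul_le_mul hb2 hb2' (by linarith) (by norm_num : (0:ℝ) ≤ 36)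
    linarith
  have hx3 : |x| ≤ 49 := abs_le.2 ⟨hx, by linarith⟩
  have h1 : |b * b' * x| ≤ 1296 * 49 := by
    rw [abs_mul, abs_of_nonneg (by positivity : 0 ≤ b * b')]
    exact mul_le_mul hbb hx3 (abs_nonneg _) (by norm_num)
  have h2 : |b * b' * (b + b')| ≤ 1296 * 72 := by
    rw [abs_mul, abs_of_nonneg (by positivity : 0 ≤ b * b'),
      abs_of_nonneg (by positivity : 0 ≤ b + b')]
    exact mul_le_mul hbb (by linarith) (by linarith) (by norm_num)
  have h3 : |(b + b') * x| ≤ 72 * 49 := by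
    rw [abs_mul, abs_of_nonneg (by positivity : 0 ≤ b + b')]
    exact mul_le_mul (by linarith) hx3 (abs_nonneg _) (by norm_num)
  have h4 : |b ^ 2 + b * b' + b' ^ 2| ≤ 3888 := by
    rw [abs_of_nonneg (by positivity)]
    nlinarith
  have hy1 : |y| ≤ τ * (1296 * 49) + τ ^ 2 * (1296 * 72) := by
    rw [hy]
    refine (abs_add_le _ _).trans ?_
    rw [abs_mul τ, abs_mul (τ ^ 2), abs_of_pos hτ, abs_of_pos (by positivity : 0 < τ ^ 2)]
    have := mul_le_mul_of_nonneg_left h1 hτ.le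
    have := mul_le_mul_of_nonneg_left h2 (sq_nonneg τ)
    linarith
  have hz1 : |z| ≤ τ * (72 * 49) + τ ^ 2 * 3888 := by
    rw [hz]
    refine (abs_sub _ _).trans ?_
    rw [abs_neg, abs_mul τ, abs_mul (τ ^ 2), abs_of_pos hτ, abs_of_pos (by positivity : 0 < τ ^ 2)]
    have := mul_le_mul_of_nonneg_left h3 hτ.le
    have := mul_le_mul_of_nonneg_left h4 (sq_nonneg τ)
    linarith
  have hy2 : |y| ≤ 1 := hy1.trans (by rw [τ_def]; norm_num)
  have hz2 : |z| ≤ 1 / 1000 := hz1.trans (by rw [τ_def]; norm_num)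
  have h5 : (x + a * (1 - z) - τ * e * y + τ ^ 2 * a ^ 3) - (x + a) =
      -(a * z) - τ * (e * y) + τ ^ 2 * a ^ 3 := by ring
  rw [h5]
  have h6 : |a * z| ≤ 48 * (1 / 1000) := by
    rw [abs_mul, abs_of_pos (by linarith : (0:ℝ) < a)]
    exact mul_le_mul ha2 hz2 (abs_nonneg _) (by norm_num)
  have h7 : |τ * (e * y)| ≤ τ * 2304 := by
    rw [abs_mul, abs_mul, abs_of_pos hτ, abs_of_nonneg he]
    have : e * |y| ≤ 2304 * 1 := mul_le_mul he2 hy2 (abs_nonneg _) (by norm_num)
    have := mul_le_mul_of_nonneg_left this hτ.le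
    linarith
  have h8 : a ^ 3 ≤ 110592 := by
    calc a ^ 3 ≤ 48 ^ 3 := pow_le_pow_left₀ (by linarith) ha2 3
      _ = 110592 := by norm_num
  have h9 := mul_le_mul_of_nonneg_left h8 (sq_nonneg τ)
  have h10 : 0 ≤ τ ^ 2 * a ^ 3 := by positivity
  have h11 : τ * 2304 + τ ^ 2 * 110592 ≤ 1 / 1000 := by rw [τ_def]; norm_num
  have h12 := abs_le.1 h6
  have h13 := abs_le.1 h7
  have h14 : 0 < τ ^ 2 * 110592 := by positivity
  have h15 : 0 < τ * 2304 := by positivity
  exact abs_le.2 ⟨by linarith [h12.1, h12.2, h13.1, h13.2], by linarith [h12.1, h12.2, h13.1, h13.2]⟩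

/-- a point of `Kt t` on two `Q` planes -/
theorem pair_mem (t : ℕ) (ht : t ≤ 48) (j j' : Fin 36) :
    ∃ v ∈ Kt t, fn (Sum.inr j) v = 0 ∧ fn (Sum.inr j') v = 0 := by
  have ht' : (t : ℝ) ≤ 48 := by exact_mod_cast ht
  have ht0 : (0 : ℝ) ≤ t := Nat.cast_nonneg _
  obtain ⟨y, z, h1, h2, h3⟩ := pair_pt (bQ_one_le j) (bQ_le j) (bQ_one_le j') (bQ_le j')
    (x := -(t : ℝ) - 1 / 2) (by linarith) (by linarith)
  refine ⟨!₂[-(t : ℝ) - 1 / 2, y, z], ?_, ?_, ?_⟩
  · intro i
    have h4 := h3 (aP i) (eP i) (aP_one_le i) (aP_le i) (eP_nonneg i) (eP_le i)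
    have h5 : fn (Sum.inl i) (!₂[-(t : ℝ) - 1 / 2, y, z] : E3) =
      (-(t : ℝ) - 1 / 2) + aP i * (1 - z) - τ * eP i * y + τ ^ 2 * aP i ^ 3 := by
      simp [fn]
    rw [← h5] at h4
    have h6 := abs_le.1 h4
    have h7 : aP i = (i : ℕ) + 1 := rfl
    constructor
    · intro h
      have h8 : (t : ℝ) ≤ (i : ℕ) := by exact_mod_cast h
      linarith [h6.1]
    · intro h
      have h8 : ((i : ℕ) : ℝ) + 1 ≤ t := by exact_mod_cast h
      linarith [h6.2]
  · simpa [fn] using h1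
  · simpa [fn] using h2

/-- a point of `Kt t` on the positive side of all `Q` planes -/
theorem all_mem (t : ℕ) (ht : t ≤ 48) : ∃ v ∈ Kt t, ∀ j, 0 < fn (Sum.inr j) v := by
  have ht' : (t : ℝ) ≤ 48 := by exact_mod_cast ht
  have ht0 : (0 : ℝ) ≤ t := Nat.cast_nonneg _
  have hτ := τ_pos
  refine ⟨!₂[-(t : ℝ) - 1 / 2, 1, 0], ?_, ?_⟩
  · intro i
    have h5 : fn (Sum.inl i) (!₂[-(t : ℝ) - 1 / 2, 1, 0] : E3) =
      (-(t : ℝ) - 1 / 2) + aP i * (1 - 0) - τ * eP i * 1 + τ ^ 2 * aP i ^ 3 := by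
      simp [fn]
    have h7 : aP i = (i : ℕ) + 1 := rfl
    have h8 : aP i ^ 3 ≤ 110592 := by
      calc aP i ^ 3 ≤ 48 ^ 3 := pow_le_pow_left₀ (by linarith [aP_one_le i]) (aP_le i) 3
        _ = 110592 := by norm_num
    have h9 := mul_le_mul_of_nonneg_left h8 (sq_nonneg τ)
    have h10 : 0 ≤ τ ^ 2 * aP i ^ 3 := mul_nonneg (sq_nonneg τ) (pow_nonneg (by linarith [aP_one_le i]) 3)
    have h11 : τ * 2304 + τ ^ 2 * 110592 ≤ 1 / 1000 := by rw [τ_def]; norm_num
    have h12 := mul_le_mul_of_nonneg_left (eP_le i) hτ.le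
    have h13 := mul_nonneg hτ.le (eP_nonneg i)
    have h14 : 0 < τ ^ 2 * 110592 := by positivity
    have h15 : 0 < τ * 2304 := by positivity
    rw [h5]
    constructor
    · intro h
      have h8 : (t : ℝ) ≤ (i : ℕ) := by exact_mod_cast h
      linarith
    · intro h
      have h8 : ((i : ℕ) : ℝ) + 1 ≤ t := by exact_mod_cast h
      linarith
  · intro j
    have h5 : fn (Sum.inr j) (!₂[-(t : ℝ) - 1 / 2, 1, 0] : E3) =
      1 + bQ j * 0 + τ * bQ j ^ 2 * (-(t : ℝ) - 1 / 2) + τ ^ 2 * bQ j ^ 3 := by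
      simp [fn]
    rw [h5]
    have h6 : 0 ≤ τ ^ 2 * bQ j ^ 3 := mul_nonneg (sq_nonneg τ) (pow_nonneg (by linarith [bQ_one_le j]) 3)
    have h7 : bQ j ^ 2 ≤ 1296 := by
      calc bQ j ^ 2 ≤ 36 ^ 2 := pow_le_pow_left₀ (by linarith [bQ_one_le j]) (bQ_le j) 2
        _ = 1296 := by norm_num
    have h8 : bQ j ^ 2 * ((t : ℝ) + 1 / 2) ≤ 1296 * 49 :=
      mul_le_mul h7 (by linarith) (by linarith) (by norm_num)
    have h9 := mul_le_mul_of_nonneg_left h8 hτ.le
    have h10 : τ * (1296 * 49) < 1 := by rw [τ_def]; norm_num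
    linarith

/-- the indices of the `Q` planes -/
def IQ : Finset Idx := (Finset.univ : Finset (Fin 36)).map Function.Embedding.inr

theorem inr_mem_IQ (j : Fin 36) : (Sum.inr j : Idx) ∈ IQ :=
  Finset.mem_map.2 ⟨j, Finset.mem_univ _, rfl⟩

theorem inl_notMem_IQ (i : Fin 48) : (Sum.inl i : Idx) ∉ IQ := by
  intro h
  obtain ⟨j, _, hj⟩ := Finset.mem_map.1 h
  exact absurd hj (by simp)

theorem card_IQ : IQ.card = 36 := by simp [IQ]

theorem flat_empty (K : Set E3) : flat fn K ∅ = K := by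
  ext v; simp [flat]

theorem two_nonempty (t : ℕ) (ht : t ≤ 48) (M : Finset Idx) (hM : M ⊆ IQ) (hc : M.card ≤ 2) :
    (flat fn (Kt t) M).Nonempty := by
  classical
  obtain ⟨N, hMN, hN, hNc⟩ := Finset.exists_subsuperset_card_eq hM hc
    (by rw [card_IQ]; norm_num)
  obtain ⟨a, b, _, rfl⟩ := Finset.card_eq_two.1 hNc
  obtain ⟨j, _, hj⟩ := Finset.mem_map.1 (hN (Finset.mem_insert_self _ _))
  obtain ⟨j', _, hj'⟩ := Finset.mem_map.1 (hN (Finset.mem_insert_of_mem (Finset.mem_singleton_self _)))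
  obtain ⟨v, hv, h1, h2⟩ := pair_mem t ht j j'
  refine ⟨v, hv, fun i hi => ?_⟩
  have := hMN hi
  rw [Finset.mem_insert, Finset.mem_singleton] at this
  rcases this with rfl | rfl
  · rw [← hj]; exact h1
  · rw [← hj']; exact h2

theorem three_pos (M : Finset Idx) (hM : M ⊆ IQ) (hc : M.card = 3) {v : E3}
    (hv : ∀ i ∈ M, fn i v = 0) (l : Fin 48) : 0 < fn (Sum.inl l) v := by
  obtain ⟨a, b, c, hab, hac, hbc, rfl⟩ := Finset.card_eq_three.1 hc
  obtain ⟨j1, _, hj1⟩ := Finset.mem_map.1 (hM (by simp : a ∈ _))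
  obtain ⟨j2, _, hj2⟩ := Finset.mem_map.1 (hM (by simp : b ∈ _))
  obtain ⟨j3, _, hj3⟩ := Finset.mem_map.1 (hM (by simp : c ∈ _))
  change Sum.inr j1 = a at hj1
  change Sum.inr j2 = b at hj2
  change Sum.inr j3 = c at hj3
  subst hj1 hj2 hj3
  exact three_Q_P (i := j1) (j := j2) (k := j3) (fun h => hab (by rw [h]))
    (fun h => hac (by rw [h])) (fun h => hbc (by rw [h]))
    (hv _ (by simp)) (hv _ (by simp)) (hv _ (by simp)) l

theorem flats_pos (t : ℕ) (ht : t ≤ 48) (ht0 : 1 ≤ t) :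
    {M : Finset Idx | M ⊆ IQ ∧ (flat fn (Kt t) (∅ ∪ M)).Nonempty} =
      ((IQ.powersetCard 0 ∪ IQ.powersetCard 1 ∪ IQ.powersetCard 2 : Finset (Finset Idx)) :
        Set (Finset Idx)) := by
  classical
  ext M
  simp only [Set.mem_ofPred_eq, Finset.coe_union, Set.mem_union, Finset.mem_coe,
    Finset.mem_powersetCard, Finset.empty_union]
  constructor
  · rintro ⟨h1, v, hv, hv2⟩
    have h2 := zero_le v M hv2
    have h3 : M.card ≠ 3 := by
      intro h3
      have h4 := three_pos M h1 h3 hv2 0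
      have h5 := (hv 0).2 (by simp only [Fin.val_zero]; omega)
      linarith
    have : M.card = 0 ∨ M.card = 1 ∨ M.card = 2 := by omega
    tauto
  · rintro ((⟨h1, h2⟩ | ⟨h1, h2⟩) | ⟨h1, h2⟩)
    · exact ⟨h1, two_nonempty t ht M h1 (by omega)⟩
    · exact ⟨h1, two_nonempty t ht M h1 (by omega)⟩
    · exact ⟨h1, two_nonempty t ht M h1 (by omega)⟩

theorem flats_zero :
    {M : Finset Idx | M ⊆ IQ ∧ (flat fn (Kt 0) (∅ ∪ M)).Nonempty} =
      ((IQ.powersetCard 0 ∪ IQ.powersetCard 1 ∪ IQ.powersetCard 2 ∪ IQ.powersetCard 3 :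
        Finset (Finset Idx)) : Set (Finset Idx)) := by
  classical
  ext M
  simp only [Set.mem_ofPred_eq, Finset.coe_union, Set.mem_union, Finset.mem_coe,
    Finset.mem_powersetCard, Finset.empty_union]
  constructor
  · rintro ⟨h1, v, hv, hv2⟩
    have h2 := zero_le v M hv2
    have : M.card = 0 ∨ M.card = 1 ∨ M.card = 2 ∨ M.card = 3 := by omega
    tauto
  · rintro (((⟨h1, h2⟩ | ⟨h1, h2⟩) | ⟨h1, h2⟩) | ⟨h1, h2⟩)
    · exact ⟨h1, two_nonempty 0 (by omega) M h1 (by omega)⟩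
    · exact ⟨h1, two_nonempty 0 (by omega) M h1 (by omega)⟩
    · exact ⟨h1, two_nonempty 0 (by omega) M h1 (by omega)⟩
    · refine ⟨h1, ?_⟩
      obtain ⟨v, hv⟩ := common M h2.le
      refine ⟨v, fun i => ⟨fun _ => three_pos M h1 h2 hv i, fun h => absurd h (by omega)⟩, hv⟩

theorem pc_disj {α : Type} [DecidableEq α] (s : Finset α) {a b : ℕ} (h : a ≠ b) :
    Disjoint (s.powersetCard a) (s.powersetCard b) := by
  rw [Finset.disjoint_left]
  intro M h1 h2
  rw [Finset.mem_powersetCard] at h1 h2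
  exact h (h1.2.symm.trans h2.2)

theorem card_flats2 : (IQ.powersetCard 0 ∪ IQ.powersetCard 1 ∪ IQ.powersetCard 2 :
    Finset (Finset Idx)).card = 667 := by
  rw [Finset.card_union_of_disjoint, Finset.card_union_of_disjoint (pc_disj _ (by norm_num)),
    Finset.card_powersetCard, Finset.card_powersetCard, Finset.card_powersetCard, card_IQ]
  · decide
  · rw [Finset.disjoint_union_left]
    exact ⟨pc_disj _ (by norm_num), pc_disj _ (by norm_num)⟩

theorem card_flats3 : (IQ.powersetCard 0 ∪ IQ.powersetCard 1 ∪ IQ.powersetCard 2 ∪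
    IQ.powersetCard 3 : Finset (Finset Idx)).card = 7807 := by
  rw [Finset.card_union_of_disjoint, card_flats2, Finset.card_powersetCard, card_IQ]
  · decide
  · rw [Finset.disjoint_union_left, Finset.disjoint_union_left]
    exact ⟨⟨pc_disj _ (by norm_num), pc_disj _ (by norm_num)⟩, pc_disj _ (by norm_num)⟩

theorem count_t (t : ℕ) (ht : t ≤ 48) :
    (cells fn (Kt t) IQ).ncard = if t = 0 then 7807 else 667 := by
  have h := count affFam (Kt_open t) simple IQ ∅ (Finset.disjoint_empty_left _)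
  rw [flat_empty] at h
  rw [h]
  split_ifs with h0
  · subst h0
    rw [flats_zero, Set.ncard_coe_finset, card_flats3]
  · rw [flats_pos t ht (by omega), Set.ncard_coe_finset, card_flats2]

/-- all cells -/
noncomputable def Cells : Set (Finset Idx) := cells fn Set.univ Finset.univ

theorem Cells_finite : Cells.Finite := cells_finite _ _

theorem total : 95284 ≤ Cells.ncard := by
  classical
  have h := count affFam univ_open simple Finset.univ ∅ (Finset.disjoint_empty_left _)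
  rw [flat_empty] at h
  unfold Cells
  rw [h]
  have h1 : (((Finset.univ : Finset Idx).powersetCard 3 : Finset (Finset Idx)) : Set (Finset Idx)) ⊆
      {M : Finset Idx | M ⊆ Finset.univ ∧ (flat fn Set.univ (∅ ∪ M)).Nonempty} := by
    intro M hM
    rw [Finset.mem_coe, Finset.mem_powersetCard] at hM
    obtain ⟨v, hv⟩ := common M hM.2.le
    refine ⟨hM.1, v, Set.mem_univ _, fun j hj => hv j ?_⟩
    rwa [Finset.empty_union] at hj
  have h2 := Set.ncard_le_ncard h1 (Set.toFinite _)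
  rw [Set.ncard_coe_finset, Finset.card_powersetCard] at h2
  have h3 : (Finset.univ : Finset Idx).card = 84 := by simp [Idx]
  rw [h3] at h2
  have h4 : Nat.choose 84 3 = 95284 := by decide
  rw [h4] at h2
  exact h2

/-- the chosen cells -/
noncomputable def Sc : Set (Finset Idx) :=
  {σ | σ ∈ Cells ∧ (∃ t ≤ 48, σ.toLeft = thr 48 t) ∧ σ.toRight ≠ Finset.univ}

theorem IQ_mem (t : ℕ) (ht : t ≤ 48) : IQ ∈ cells fn (Kt t) IQ := by
  obtain ⟨v, hv, h⟩ := all_mem t ht
  refine ⟨v, hv, fun i hi => ?_, ?_⟩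
  · obtain ⟨j, _, rfl⟩ := Finset.mem_map.1 hi
    exact (h j).ne'
  · ext i
    rw [mem_sgn]
    constructor
    · intro hi
      refine ⟨hi, ?_⟩
      obtain ⟨j, _, rfl⟩ := Finset.mem_map.1 hi
      exact h j
    · intro hi; exact hi.1

open Classical in
noncomputable def Gs : Finset (Σ _ : ℕ, Finset Idx) :=
  (Finset.range 49).sigma fun t => (cells_finite (f := fn) (Kt t) IQ).toFinset.erase IQ

theorem Gs_card : Gs.card = 39774 := by
  classical
  unfold Gs
  rw [Finset.card_sigma]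
  have h1 : ∀ t ∈ Finset.range 49,
      ((cells_finite (f := fn) (Kt t) IQ).toFinset.erase IQ).card = if t = 0 then 7806 else 666 := by
    intro t ht
    rw [Finset.mem_range] at ht
    rw [Finset.card_erase_of_mem (by rw [Set.Finite.mem_toFinset]; exact IQ_mem t (by omega)),
      ← Set.ncard_eq_toFinset_card, count_t t (by omega)]
    split_ifs <;> rfl
  rw [Finset.sum_congr rfl h1]
  decide

theorem Sc_image : Sc = (fun p : Σ _ : ℕ, Finset Idx => (thr 48 p.1).disjSum p.2.toRight) ''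
    (Gs : Set (Σ _ : ℕ, Finset Idx)) := by
  classical
  ext σ
  constructor
  · rintro ⟨⟨v, _, hv, rfl⟩, ⟨t, ht, hL⟩, hR⟩
    have hK : v ∈ Kt t := by
      intro i
      have h1 : (i ∈ (sgn fn Finset.univ v).toLeft) ↔ i ∈ thr 48 t := by rw [hL]
      rw [Finset.mem_toLeft, mem_sgn, mem_thr] at h1
      constructor
      · intro h; exact (h1.2 h).2
      · intro h
        have h2 : ¬ 0 < fn (Sum.inl i) v := fun h3 => by
          have := h1.1 ⟨Finset.mem_univ _, h3⟩
          omega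
        exact lt_of_le_of_ne (not_lt.1 h2) (hv _ (Finset.mem_univ _))
    have hright : (sgn fn IQ v).toRight = (sgn fn Finset.univ v).toRight := by
      ext j
      rw [Finset.mem_toRight, Finset.mem_toRight, mem_sgn, mem_sgn]
      constructor
      · rintro ⟨_, h⟩; exact ⟨Finset.mem_univ _, h⟩
      · rintro ⟨_, h⟩; exact ⟨inr_mem_IQ j, h⟩
    refine ⟨⟨t, sgn fn IQ v⟩, ?_, ?_⟩
    · rw [Finset.mem_coe]
      unfold Gs
      rw [Finset.mem_sigma]
      refine ⟨Finset.mem_range.2 (by simp only; omega), ?_⟩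
      rw [Finset.mem_erase, Set.Finite.mem_toFinset]
      refine ⟨?_, v, hK, fun i _ => hv i (Finset.mem_univ _), rfl⟩
      intro h
      apply hR
      change sgn fn IQ v = IQ at h
      rw [← hright, h]
      ext j
      rw [Finset.mem_toRight]
      exact ⟨fun _ => Finset.mem_univ _, fun _ => inr_mem_IQ j⟩
    · change (thr 48 t).disjSum (sgn fn IQ v).toRight = _
      rw [hright, ← hL, Finset.toLeft_disjSum_toRight]
  · rintro ⟨⟨t, ρ⟩, hp, rfl⟩
    rw [Finset.mem_coe] at hp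
    unfold Gs at hp
    rw [Finset.mem_sigma] at hp
    obtain ⟨h1, h2⟩ := hp
    rw [Finset.mem_range] at h1
    rw [Finset.mem_erase, Set.Finite.mem_toFinset] at h2
    simp only at h1
    obtain ⟨h2, v, hK, h3, h4⟩ := h2
    simp only at h2 hK h3 h4 ⊢
    have hne : ∀ i, fn i v ≠ 0 := by
      rintro (i | j)
      · rcases Nat.lt_or_ge (i : ℕ) t with h | h
        · exact ((hK i).2 h).ne
        · exact ((hK i).1 h).ne'
      · exact h3 _ (inr_mem_IQ j)
    refine ⟨⟨v, Set.mem_univ _, fun i _ => hne i, ?_⟩, ⟨t, by omega, ?_⟩, ?_⟩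
    · ext x
      rcases x with i | j
      · rw [Finset.inl_mem_disjSum, mem_thr, mem_sgn]
        constructor
        · intro h; exact ⟨Finset.mem_univ _, (hK i).1 h⟩
        · rintro ⟨_, h⟩
          by_contra hcon
          have := (hK i).2 (by omega)
          linarith
      · rw [Finset.inr_mem_disjSum, Finset.mem_toRight, h4, mem_sgn, mem_sgn]
        constructor
        · rintro ⟨_, h⟩; exact ⟨Finset.mem_univ _, h⟩
        · rintro ⟨_, h⟩; exact ⟨inr_mem_IQ j, h⟩
    · simp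
    · simp only [Finset.toRight_disjSum]
      intro h
      apply h2
      rw [h4] at h ⊢
      ext x
      rw [mem_sgn]
      constructor
      · rintro ⟨h, _⟩; exact h
      · intro hx
        obtain ⟨j, _, rfl⟩ := Finset.mem_map.1 hx
        have h5 : j ∈ (sgn fn IQ v).toRight := by rw [h]; exact Finset.mem_univ _
        rw [Finset.mem_toRight, mem_sgn] at h5
        exact h5

theorem Sc_ncard : Sc.ncard = 39774 := by
  classical
  rw [Sc_image, Set.InjOn.ncard_image, Set.ncard_coe_finset, Gs_card]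
  rintro ⟨t, ρ⟩ hp ⟨t', ρ'⟩ hp' h
  rw [Finset.mem_coe] at hp hp'
  unfold Gs at hp hp'
  rw [Finset.mem_sigma, Finset.mem_range, Finset.mem_erase, Set.Finite.mem_toFinset] at hp hp'
  simp only at hp hp' h
  have h1 := congrArg Finset.toLeft h
  have h2 := congrArg Finset.toRight h
  rw [Finset.toLeft_disjSum, Finset.toLeft_disjSum] at h1
  rw [Finset.toRight_disjSum, Finset.toRight_disjSum] at h2
  have h3 := thr_inj (by omega) (by omega) h1
  subst h3
  have hsub : ∀ ρ ∈ cells fn (Kt t) IQ, ∀ i : Fin 48, (Sum.inl i : Idx) ∉ ρ := by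
    rintro ρ ⟨v, _, _, rfl⟩ i hi
    exact inl_notMem_IQ i (mem_sgn.1 hi).1
  have h4 : ρ = ρ' := by
    ext x
    rcases x with i | j
    · constructor
      · intro h; exact absurd h (hsub _ hp.2.2 i)
      · intro h; exact absurd h (hsub _ hp'.2.2 i)
    · rw [← Finset.mem_toRight, ← Finset.mem_toRight, h2]
  rw [h4]

end Pool.Agent.R164.Arr
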