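import Mathlib

/-!
Counting the cells of an arrangement of hyperplanes inside an open convex set: if the hyperplanes
through any point are independent, the number of sign vectors of points of an (algebraically) open
convex set `K` is the number of sets of hyperplanes which have a common point in `K`.
-/

set_option autoImplicit false

namespace Pool.Agent.R164.Arr

variable {V ι : Type} [AddCommGroup V] [Module ℝ V] [DecidableEq ι]

/-- affine functions `f i` with linear parts `L i` -/
structure AffFam (f L : ι → V → ℝ) : Prop where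
  add_smul : ∀ i v d t, f i (v + t • d) = f i v + t * L i d

variable {f L : ι → V → ℝ}

theorem AffFam.lin (h : AffFam f L) (i : ι) (v w : V) : L i (w - v) = f i w - f i v := by
  have := h.add_smul i v (w - v) 1
  rw [one_smul, add_sub_cancel, one_mul] at this
  linarith

theorem AffFam.seg (h : AffFam f L) (i : ι) (v w : V) (t : ℝ) :
    f i (v + t • (w - v)) = (1 - t) * f i v + t * f i w := by
  rw [h.add_smul, h.lin]; ring

open Classical in
/-- the positive elements of `I` at `v` -/
noncomputable def sgn (f : ι → V → ℝ) (I : Finset ι) (v : V) : Finset ι :=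
  I.filter (fun i => 0 < f i v)

/-- the sign vectors of the points of `X` off the hyperplanes of `I` -/
def cells (f : ι → V → ℝ) (X : Set V) (I : Finset ι) : Set (Finset ι) :=
  {σ | ∃ v ∈ X, (∀ i ∈ I, f i v ≠ 0) ∧ σ = sgn f I v}

theorem mem_sgn {I : Finset ι} {v : V} {i : ι} : i ∈ sgn f I v ↔ i ∈ I ∧ 0 < f i v := by
  simp [sgn]

theorem cells_subset (X : Set V) (I : Finset ι) : cells f X I ⊆ (I.powerset : Set (Finset ι)) := by
  rintro σ ⟨v, _, _, rfl⟩
  rw [Finset.mem_coe, Finset.mem_powerset]
  intro i hi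
  exact (mem_sgn.1 hi).1

theorem cells_finite (X : Set V) (I : Finset ι) : (cells f X I).Finite :=
  (Finset.finite_toSet _).subset (cells_subset X I)

/-- small moves do not change nonzero signs -/
theorem exists_small (h : AffFam f L) (I : Finset ι) (v d : V) (hv : ∀ i ∈ I, f i v ≠ 0) :
    ∃ ε > 0, ∀ t : ℝ, |t| < ε → (∀ i ∈ I, f i (v + t • d) ≠ 0) ∧ sgn f I (v + t • d) = sgn f I v := by
  classical
  induction I using Finset.induction_on with
  | empty => exact ⟨1, one_pos, fun t _ => ⟨by simp, by simp [sgn]⟩⟩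
  | insert i I hi ih =>
    obtain ⟨ε, hε, h1⟩ := ih fun j hj => hv j (Finset.mem_insert_of_mem hj)
    have hfi : f i v ≠ 0 := hv i (Finset.mem_insert_self _ _)
    have habs : 0 < |f i v| := abs_pos.2 hfi
    refine ⟨min ε (|f i v| / (|L i d| + 1)), lt_min hε (by positivity), fun t ht => ?_⟩
    obtain ⟨h2, h3⟩ := h1 t (ht.trans_le (min_le_left _ _))
    have ht2 : |t| < |f i v| / (|L i d| + 1) := ht.trans_le (min_le_right _ _)
    have h4 : |t * L i d| < |f i v| := by
      rw [lt_div_iff₀ (by positivity)] at ht2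
      rw [abs_mul]
      nlinarith [abs_nonneg t, abs_nonneg (L i d)]
    have h5 : f i (v + t • d) = f i v + t * L i d := h.add_smul i v d t
    have h6 : (0 < f i (v + t • d) ↔ 0 < f i v) ∧ f i (v + t • d) ≠ 0 := by
      rw [h5]
      rcases lt_or_gt_of_ne hfi with hneg | hpos
      · rw [abs_of_neg hneg] at h4
        have := abs_lt.1 h4
        constructor
        · constructor <;> intro <;> linarith
        · linarith
      · rw [abs_of_pos hpos] at h4
        have := abs_lt.1 h4
        constructor
        · constructor <;> intro <;> linarith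
        · linarith
    constructor
    · intro j hj
      rcases Finset.mem_insert.1 hj with rfl | hj
      · exact h6.2
      · exact h2 j hj
    · ext j
      rw [mem_sgn, mem_sgn, Finset.mem_insert]
      constructor
      · rintro ⟨rfl | hj, hj'⟩
        · exact ⟨Or.inl rfl, h6.1.1 hj'⟩
        · have : j ∈ sgn f I (v + t • d) := mem_sgn.2 ⟨hj, hj'⟩
          rw [h3] at this
          exact ⟨Or.inr hj, (mem_sgn.1 this).2⟩
      · rintro ⟨rfl | hj, hj'⟩
        · exact ⟨Or.inl rfl, h6.1.2 hj'⟩
        · have : j ∈ sgn f I v := mem_sgn.2 ⟨hj, hj'⟩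
          rw [← h3] at this
          exact ⟨Or.inr hj, (mem_sgn.1 this).2⟩

/-- convexity and openness in the directions of all lines -/
structure OpenConvex (K : Set V) : Prop where
  conv : Convex ℝ K
  opn : ∀ v ∈ K, ∀ d : V, ∃ ε > 0, ∀ t : ℝ, |t| < ε → v + t • d ∈ K

/-- the common points of the hyperplanes of `J` in `K` -/
def flat (f : ι → V → ℝ) (K : Set V) (J : Finset ι) : Set V := {v | v ∈ K ∧ ∀ j ∈ J, f j v = 0}

/-- the hyperplanes through any point are independent -/
def Simple (f L : ι → V → ℝ) : Prop :=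
  ∀ (J : Finset ι) (h : ι) (v : V), h ∉ J → (∀ j ∈ J, f j v = 0) → f h v = 0 →
    ∃ d : V, (∀ j ∈ J, L j d = 0) ∧ L h d ≠ 0

theorem step (hf : AffFam f L) {K : Set V} (hK : OpenConvex K) (hs : Simple f L)
    (J I : Finset ι) (h : ι) (hI : h ∉ I) (hJ : h ∉ J) :
    (cells f (flat f K J) (insert h I)).ncard =
      (cells f (flat f K J) I).ncard + (cells f (flat f K (insert h J)) I).ncard := by
  classical
  set X := flat f K J with hX
  set A : Set (Finset ι) := {σ | ∃ v ∈ X, (∀ i ∈ I, f i v ≠ 0) ∧ 0 < f h v ∧ σ = sgn f I v} with hA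
  set B : Set (Finset ι) := {σ | ∃ v ∈ X, (∀ i ∈ I, f i v ≠ 0) ∧ f h v < 0 ∧ σ = sgn f I v} with hB
  have hXseg : ∀ v ∈ X, ∀ w ∈ X, ∀ t : ℝ, 0 ≤ t → t ≤ 1 → v + t • (w - v) ∈ X := by
    rintro v ⟨v1, v2⟩ w ⟨w1, w2⟩ t t0 t1
    refine ⟨hK.conv.add_smul_sub_mem v1 w1 ⟨t0, t1⟩, fun j hj => ?_⟩
    rw [hf.seg, v2 j hj, w2 j hj]; ring
  -- moving off the hyperplane `h`
  have hmove : ∀ v ∈ X, (∀ i ∈ I, f i v ≠ 0) → f h v = 0 →
      sgn f I v ∈ A ∧ sgn f I v ∈ B := by
    rintro v ⟨v1, v2⟩ v3 v4
    obtain ⟨d, hd1, hd2⟩ := hs J h v hJ v2 v4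
    obtain ⟨ε1, he1, hk1⟩ := hK.opn v v1 d
    obtain ⟨ε2, he2, hk2⟩ := exists_small hf I v d v3
    set t := min ε1 ε2 / 2 with ht
    have ht0 : 0 < t := by have := lt_min he1 he2; positivity
    have ht1 : t < ε1 := by
      have := min_le_left ε1 ε2; have := lt_min he1 he2; linarith
    have ht2 : t < ε2 := by
      have := min_le_right ε1 ε2; have := lt_min he1 he2; linarith
    have key : ∀ s : ℝ, |s| = t → v + s • d ∈ X ∧ (∀ i ∈ I, f i (v + s • d) ≠ 0) ∧
        sgn f I (v + s • d) = sgn f I v ∧ f h (v + s • d) = s * L h d := by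
      intro s hs'
      have a1 : |s| < ε1 := hs' ▸ ht1
      have a2 : |s| < ε2 := hs' ▸ ht2
      refine ⟨⟨hk1 s a1, fun j hj => ?_⟩, (hk2 s a2).1, (hk2 s a2).2, ?_⟩
      · rw [hf.add_smul, v2 j hj, hd1 j hj]; ring
      · rw [hf.add_smul, v4, zero_add]
    have b1 : |t| = t := abs_of_pos ht0
    have b2 : |-t| = t := by rw [abs_neg, b1]
    obtain ⟨c1, c2, c3, c4⟩ := key t b1
    obtain ⟨e1, e2, e3, e4⟩ := key (-t) b2
    rcases lt_or_gt_of_ne hd2 with hneg | hpos
    · exact ⟨⟨_, e1, e2, by rw [e4]; nlinarith, e3.symm⟩,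
        ⟨_, c1, c2, by rw [c4]; nlinarith, c3.symm⟩⟩
    · exact ⟨⟨_, c1, c2, by rw [c4]; positivity, c3.symm⟩,
        ⟨_, e1, e2, by rw [e4]; nlinarith, e3.symm⟩⟩
  have hunion : A ∪ B = cells f X I := by
    ext σ
    constructor
    · rintro (⟨v, h1, h2, _, h4⟩ | ⟨v, h1, h2, _, h4⟩)
      · exact ⟨v, h1, h2, h4⟩
      · exact ⟨v, h1, h2, h4⟩
    · rintro ⟨v, h1, h2, rfl⟩
      rcases lt_trichotomy (f h v) 0 with h3 | h3 | h3
      · exact Or.inr ⟨v, h1, h2, h3, rfl⟩
      · exact Or.inl (hmove v h1 h2 h3).1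
      · exact Or.inl ⟨v, h1, h2, h3, rfl⟩
  have hinter : A ∩ B = cells f (flat f K (insert h J)) I := by
    ext σ
    constructor
    · rintro ⟨⟨v, v1, v2, v3, rfl⟩, ⟨w, w1, w2, w3, w4⟩⟩
      -- the point on the segment
      set t : ℝ := f h v / (f h v - f h w) with ht
      have hden : 0 < f h v - f h w := by linarith
      have t0 : 0 ≤ t := by positivity
      have t1 : t ≤ 1 := by rw [ht, div_le_one hden]; linarith
      have hzero : f h (v + t • (w - v)) = 0 := by
        rw [hf.seg, ht]; field_simp; ring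
      have hsame : ∀ i ∈ I, (0 < f i v ↔ 0 < f i w) := by
        intro i hi
        have h1 : i ∈ sgn f I v ↔ i ∈ sgn f I w := by rw [w4]
        rw [mem_sgn, mem_sgn] at h1
        tauto
      have hsgn : ∀ i ∈ I, f i (v + t • (w - v)) ≠ 0 ∧
          (0 < f i (v + t • (w - v)) ↔ 0 < f i v) := by
        intro i hi
        rw [hf.seg]
        have h1 := v2 i hi
        have h2 := w2 i hi
        rcases lt_or_gt_of_ne h1 with h3 | h3
        · have h4 : f i w < 0 := lt_of_le_of_ne (not_lt.1 fun hh => absurd ((hsame i hi).2 hh)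
            (not_lt.2 h3.le)) h2
          have h5 : (1 - t) * f i v + t * f i w < 0 := by
            rcases eq_or_lt_of_le t0 with h6 | h6
            · rw [← h6]; linarith
            · nlinarith [mul_neg_of_pos_of_neg h6 h4, mul_nonpos_of_nonneg_of_nonpos
                (sub_nonneg.2 t1) h3.le]
          exact ⟨h5.ne, ⟨fun hh => absurd hh (not_lt.2 h5.le), fun hh => absurd hh (not_lt.2 h3.le)⟩⟩
        · have h4 : 0 < f i w := (hsame i hi).1 h3
          have h5 : 0 < (1 - t) * f i v + t * f i w := by
            rcases eq_or_lt_of_le t0 with h6 | h6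
            · rw [← h6]; linarith
            · nlinarith [mul_pos h6 h4, mul_nonneg (sub_nonneg.2 t1) h3.le]
          exact ⟨h5.ne', ⟨fun _ => h3, fun _ => h5⟩⟩
      have hmemX := hXseg v v1 w w1 t t0 t1
      refine ⟨v + t • (w - v), ⟨hmemX.1, fun j hj => ?_⟩, fun i hi => (hsgn i hi).1, ?_⟩
      · rcases Finset.mem_insert.1 hj with rfl | hj
        · exact hzero
        · exact hmemX.2 j hj
      · ext i
        rw [mem_sgn, mem_sgn]
        constructor
        · rintro ⟨h1, h2⟩; exact ⟨h1, (hsgn i h1).2.2 h2⟩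
        · rintro ⟨h1, h2⟩; exact ⟨h1, (hsgn i h1).2.1 h2⟩
    · rintro ⟨v, ⟨v1, v2⟩, v3, rfl⟩
      exact hmove v ⟨v1, fun j hj => v2 j (Finset.mem_insert_of_mem hj)⟩ v3
        (v2 h (Finset.mem_insert_self _ _))
  have hAfin : A.Finite := (cells_finite X I).subset (hunion ▸ Set.subset_union_left)
  have hBfin : B.Finite := (cells_finite X I).subset (hunion ▸ Set.subset_union_right)
  have hnotmem : ∀ σ ∈ A ∪ B, h ∉ σ := by
    intro σ hσ hh
    rw [hunion] at hσ
    have := Finset.mem_powerset.1 (Finset.mem_coe.1 (cells_subset X I hσ)) hh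
    exact hI this
  have hsplit : cells f X (insert h I) = (fun σ => insert h σ) '' A ∪ B := by
    ext σ
    constructor
    · rintro ⟨v, v1, v2, rfl⟩
      have h1 := v2 h (Finset.mem_insert_self _ _)
      have h2 : ∀ i ∈ I, f i v ≠ 0 := fun i hi => v2 i (Finset.mem_insert_of_mem hi)
      rcases lt_or_gt_of_ne h1 with h3 | h3
      · refine Or.inr ⟨v, v1, h2, h3, ?_⟩
        ext i
        rw [mem_sgn, mem_sgn, Finset.mem_insert]
        constructor
        · rintro ⟨rfl | hi, hi'⟩
          · exact absurd hi' (not_lt.2 h3.le)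
          · exact ⟨hi, hi'⟩
        · rintro ⟨hi, hi'⟩; exact ⟨Or.inr hi, hi'⟩
      · refine Or.inl ⟨sgn f I v, ⟨v, v1, h2, h3, rfl⟩, ?_⟩
        ext i
        rw [Finset.mem_insert, mem_sgn, mem_sgn, Finset.mem_insert]
        constructor
        · rintro (rfl | ⟨hi, hi'⟩)
          · exact ⟨Or.inl rfl, h3⟩
          · exact ⟨Or.inr hi, hi'⟩
        · rintro ⟨rfl | hi, hi'⟩
          · exact Or.inl rfl
          · exact Or.inr ⟨hi, hi'⟩
    · rintro (⟨τ, ⟨v, v1, v2, v3, rfl⟩, rfl⟩ | ⟨v, v1, v2, v3, rfl⟩)
      · refine ⟨v, v1, ?_, ?_⟩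
        · intro i hi
          rcases Finset.mem_insert.1 hi with rfl | hi
          · exact v3.ne'
          · exact v2 i hi
        · ext i
          simp only [Finset.mem_insert, mem_sgn]
          constructor
          · rintro (rfl | ⟨hi, hi'⟩)
            · exact ⟨Or.inl rfl, v3⟩
            · exact ⟨Or.inr hi, hi'⟩
          · rintro ⟨rfl | hi, hi'⟩
            · exact Or.inl rfl
            · exact Or.inr ⟨hi, hi'⟩
      · refine ⟨v, v1, ?_, ?_⟩
        · intro i hi
          rcases Finset.mem_insert.1 hi with rfl | hi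
          · exact v3.ne
          · exact v2 i hi
        · ext i
          rw [mem_sgn, mem_sgn, Finset.mem_insert]
          constructor
          · rintro ⟨hi, hi'⟩; exact ⟨Or.inr hi, hi'⟩
          · rintro ⟨rfl | hi, hi'⟩
            · exact absurd hi' (not_lt.2 v3.le)
            · exact ⟨hi, hi'⟩
  have hdisj : Disjoint ((fun σ => insert h σ) '' A) B := by
    rw [Set.disjoint_left]
    rintro σ ⟨τ, _, rfl⟩ hσ
    exact hnotmem _ (Or.inr hσ) (Finset.mem_insert_self _ _)
  have hinj : Set.InjOn (fun σ : Finset ι => insert h σ) A := by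
    intro σ hσ τ hτ hst
    have h1 := hnotmem σ (Or.inl hσ)
    have h2 := hnotmem τ (Or.inl hτ)
    simp only at hst
    rw [← Finset.erase_insert h1, ← Finset.erase_insert h2, hst]
  rw [hsplit, Set.ncard_union_eq hdisj (hAfin.image _) hBfin, hinj.ncard_image,
    ← Set.ncard_union_add_ncard_inter A B hAfin hBfin, hunion, hinter]

/-- the number of cells of `K` -/
theorem count (hf : AffFam f L) {K : Set V} (hK : OpenConvex K) (hs : Simple f L)
    (I : Finset ι) : ∀ J : Finset ι, Disjoint J I →
    (cells f (flat f K J) I).ncard =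
      {M : Finset ι | M ⊆ I ∧ (flat f K (J ∪ M)).Nonempty}.ncard := by
  classical
  induction I using Finset.induction_on with
  | empty =>
    intro J _
    by_cases hne : (flat f K J).Nonempty
    · have h1 : cells f (flat f K J) ∅ = {∅} := by
        ext σ
        constructor
        · rintro ⟨v, _, _, rfl⟩; simp [sgn]
        · rintro rfl
          obtain ⟨v, hv⟩ := hne
          exact ⟨v, hv, by simp, by simp [sgn]⟩
      have h2 : {M : Finset ι | M ⊆ ∅ ∧ (flat f K (J ∪ M)).Nonempty} = {∅} := by
        ext M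
        constructor
        · rintro ⟨hM, _⟩; exact Finset.subset_empty.1 hM
        · rintro rfl; exact ⟨subset_rfl, by rwa [Finset.union_empty]⟩
      rw [h1, h2]
    · have h1 : cells f (flat f K J) ∅ = ∅ := by
        ext σ
        constructor
        · rintro ⟨v, hv, _, _⟩; exact absurd ⟨v, hv⟩ hne
        · intro h; exact absurd h (Set.notMem_empty _)
      have h2 : {M : Finset ι | M ⊆ ∅ ∧ (flat f K (J ∪ M)).Nonempty} = ∅ := by
        ext M
        constructor
        · rintro ⟨hM, h⟩
          rw [Finset.subset_empty.1 hM, Finset.union_empty] at h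
          exact absurd h hne
        · intro h; exact absurd h (Set.notMem_empty _)
      rw [h1, h2]
  | insert h I hI ih =>
    intro J hJI
    rw [Finset.disjoint_insert_right] at hJI
    rw [step hf hK hs J I h hI hJI.1, ih J hJI.2, ih (insert h J) (by
      rw [Finset.disjoint_insert_left]; exact ⟨hI, hJI.2⟩)]
    set M1 : Set (Finset ι) := {M : Finset ι | M ⊆ I ∧ (flat f K (J ∪ M)).Nonempty} with hM1
    set M2 : Set (Finset ι) := {M : Finset ι | M ⊆ I ∧ (flat f K (insert h J ∪ M)).Nonempty}
      with hM2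
    have f1 : M1.Finite := (Finset.finite_toSet I.powerset).subset fun M hM => by
      rw [Finset.mem_coe, Finset.mem_powerset]; exact hM.1
    have f2 : M2.Finite := (Finset.finite_toSet I.powerset).subset fun M hM => by
      rw [Finset.mem_coe, Finset.mem_powerset]; exact hM.1
    have hsplit : {M : Finset ι | M ⊆ insert h I ∧ (flat f K (J ∪ M)).Nonempty} =
        M1 ∪ (fun M => insert h M) '' M2 := by
      ext M
      constructor
      · rintro ⟨hM, hM'⟩
        by_cases hh : h ∈ M
        · refine Or.inr ⟨M.erase h, ⟨?_, ?_⟩, Finset.insert_erase hh⟩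
          · intro i hi
            rcases Finset.mem_insert.1 (hM (Finset.mem_of_mem_erase hi)) with h1 | h1
            · exact absurd h1 (Finset.ne_of_mem_erase hi)
            · exact h1
          · have : insert h J ∪ M.erase h = J ∪ M := by
              ext i
              simp only [Finset.mem_union, Finset.mem_insert, Finset.mem_erase]
              constructor
              · rintro ((rfl | h1) | ⟨_, h1⟩)
                · exact Or.inr hh
                · exact Or.inl h1
                · exact Or.inr h1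
              · rintro (h1 | h1)
                · exact Or.inl (Or.inr h1)
                · by_cases hi : i = h
                  · exact Or.inl (Or.inl hi)
                  · exact Or.inr ⟨hi, h1⟩
            rwa [this]
        · refine Or.inl ⟨fun i hi => ?_, hM'⟩
          rcases Finset.mem_insert.1 (hM hi) with h1 | h1
          · exact absurd (h1 ▸ hi) hh
          · exact h1
      · rintro (⟨h1, h2⟩ | ⟨N, ⟨h1, h2⟩, rfl⟩)
        · exact ⟨h1.trans (Finset.subset_insert _ _), h2⟩
        · refine ⟨Finset.insert_subset_insert h h1, ?_⟩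
          have : J ∪ insert h N = insert h J ∪ N := by
            ext i
            simp only [Finset.mem_union, Finset.mem_insert]
            tauto
          simp only
          rwa [this]
    have hdisj : Disjoint M1 ((fun M => insert h M) '' M2) := by
      rw [Set.disjoint_left]
      rintro M hM ⟨N, _, rfl⟩
      exact hI (hM.1 (Finset.mem_insert_self _ _))
    have hinj : Set.InjOn (fun M : Finset ι => insert h M) M2 := by
      intro σ hσ τ hτ hst
      have h1 : h ∉ σ := fun hh => hI (hσ.1 hh)
      have h2 : h ∉ τ := fun hh => hI (hτ.1 hh)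
      simp only at hst
      rw [← Finset.erase_insert h1, ← Finset.erase_insert h2, hst]
    rw [hsplit, Set.ncard_union_eq hdisj f1 (f2.image _), hinj.ncard_image]

end Pool.Agent.R164.Arr
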