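import Mathlib

/-!
Real inequalities for the arrangement of 84 planes.
-/

set_option autoImplicit false

namespace Pool.Agent.R164.Arr

/-- the size of the perturbation -/
noncomputable def τ : ℝ := 1 / 10 ^ 20

theorem τ_def : τ = 1 / 10 ^ 20 := rfl

theorem τ_pos : 0 < τ := by rw [τ_def]; positivity

/-- two `P` planes and two `Q` planes in the wrong order are impossible -/
theorem dich {a a' e e' b b' x y z : ℝ} (ha : 1 ≤ a) (haa : a + 1 ≤ a') (ha' : a' ≤ 48)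
    (he : 0 ≤ e) (he2 : e ≤ 2304) (he' : 0 ≤ e') (he2' : e' ≤ 2304)
    (hb : 1 ≤ b) (hbb : b + 1 ≤ b') (hb' : b' ≤ 36)
    (h1 : 0 ≤ x + a * (1 - z) - τ * e * y + τ ^ 2 * a ^ 3)
    (h2 : x + a' * (1 - z) - τ * e' * y + τ ^ 2 * a' ^ 3 ≤ 0)
    (h3 : 0 ≤ y + b * z + τ * b ^ 2 * x + τ ^ 2 * b ^ 3)
    (h4 : y + b' * z + τ * b' ^ 2 * x + τ ^ 2 * b' ^ 3 ≤ 0) : False := by
  have hτ := τ_pos
  set X := |x| with hX
  set Y := |y| with hY
  have hX0 : 0 ≤ X := abs_nonneg _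
  have hY0 : 0 ≤ Y := abs_nonneg _
  have hx1 : x ≤ X := le_abs_self _
  have hx2 : -X ≤ x := neg_abs_le _
  have hy1 : y ≤ Y := le_abs_self _
  have hy2 : -Y ≤ y := neg_abs_le _
  have hey : ∀ c : ℝ, -2304 ≤ c → c ≤ 2304 → |c * y| ≤ 2304 * Y := by
    intro c h5 h6
    rw [abs_mul]
    exact mul_le_mul_of_nonneg_right (abs_le.2 ⟨h5, h6⟩) hY0
  have hbx : ∀ c : ℝ, -1296 ≤ c → c ≤ 1296 → |c * x| ≤ 1296 * X := by
    intro c h5 h6
    rw [abs_mul]
    exact mul_le_mul_of_nonneg_right (abs_le.2 ⟨h5, h6⟩) hX0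
  have ha3 : ∀ c : ℝ, 1 ≤ c → c ≤ 48 → 0 ≤ c ^ 3 ∧ c ^ 3 ≤ 110592 := by
    intro c h5 h6
    constructor
    · positivity
    · calc c ^ 3 ≤ 48 ^ 3 := pow_le_pow_left₀ (by linarith) h6 3
        _ = 110592 := by norm_num
  have hb3 : ∀ c : ℝ, 1 ≤ c → c ≤ 36 → 0 ≤ c ^ 3 ∧ c ^ 3 ≤ 46656 ∧ 0 ≤ c ^ 2 ∧ c ^ 2 ≤ 1296 := by
    intro c h5 h6
    refine ⟨by positivity, ?_, by positivity, ?_⟩
    · calc c ^ 3 ≤ 36 ^ 3 := pow_le_pow_left₀ (by linarith) h6 3
        _ = 46656 := by norm_num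
    · calc c ^ 2 ≤ 36 ^ 2 := pow_le_pow_left₀ (by linarith) h6 2
        _ = 1296 := by norm_num
  have haa3 : a ^ 3 ≤ a' ^ 3 := pow_le_pow_left₀ (by linarith) (by linarith) 3
  have hbb3 : b ^ 3 ≤ b' ^ 3 := pow_le_pow_left₀ (by linarith) (by linarith) 3
  obtain ⟨hb1, hb2, hb4, hb5⟩ := hb3 b hb (by linarith)
  obtain ⟨hb1', hb2', hb4', hb5'⟩ := hb3 b' (by linarith) hb'
  obtain ⟨ha1, ha2⟩ := ha3 a ha (by linarith)
  obtain ⟨ha1', ha2'⟩ := ha3 a' (by linarith) ha'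
  -- upper bounds for `s = 1 - z` and `z`
  have s1 : (1 - z) ≤ τ * (2304 * Y) := by
    have h5 : (a' - a) * (1 - z) ≤ τ * ((e' - e) * y) := by
      have := mul_nonneg (sq_nonneg τ) (sub_nonneg.2 haa3)
      nlinarith
    have h6 : τ * ((e' - e) * y) ≤ τ * (2304 * Y) :=
      mul_le_mul_of_nonneg_left ((le_abs_self _).trans (hey _ (by linarith) (by linarith))) hτ.le
    rcases le_or_gt (1 - z) 0 with h7 | h7
    · have : 0 ≤ τ * (2304 * Y) := by positivity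
      linarith
    · nlinarith
  have z1 : z ≤ τ * (1296 * X) := by
    have h5 : (b' - b) * z ≤ τ * (-(b' ^ 2 - b ^ 2) * x) := by
      have := mul_nonneg (sq_nonneg τ) (sub_nonneg.2 hbb3)
      nlinarith
    have h6 : τ * (-(b' ^ 2 - b ^ 2) * x) ≤ τ * (1296 * X) :=
      mul_le_mul_of_nonneg_left ((le_abs_self _).trans (hbx _ (by linarith) (by linarith))) hτ.le
    rcases le_or_gt z 0 with h7 | h7
    · have : 0 ≤ τ * (1296 * X) := by positivity
      linarith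
    · nlinarith
  set B : ℝ := τ * (2304 * Y) + τ * (1296 * X) with hB
  have hτX : 0 ≤ τ * (1296 * X) := by positivity
  have hτY : 0 ≤ τ * (2304 * Y) := by positivity
  have hB0 : 0 ≤ B := by positivity
  have sabs : |1 - z| ≤ B := abs_le.2 ⟨by linarith, by linarith⟩
  have zabs : |z| ≤ B := abs_le.2 ⟨by linarith, by linarith⟩
  have as : ∀ c : ℝ, 1 ≤ c → c ≤ 48 → |c * (1 - z)| ≤ 48 * B := by
    intro c h5 h6
    rw [abs_mul, abs_of_nonneg (by linarith : (0:ℝ) ≤ c)]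
    exact mul_le_mul h6 sabs (abs_nonneg _) (by norm_num)
  have bz : ∀ c : ℝ, 1 ≤ c → c ≤ 36 → |c * z| ≤ 36 * B := by
    intro c h5 h6
    rw [abs_mul, abs_of_nonneg (by linarith : (0:ℝ) ≤ c)]
    exact mul_le_mul h6 zabs (abs_nonneg _) (by norm_num)
  have xb : X ≤ 48 * B + τ * (2304 * Y) + τ ^ 2 * 110592 := by
    refine abs_le.2 ⟨?_, ?_⟩
    · have h5 := (abs_le.1 (as a ha (by linarith))).2
      have h6 := (abs_le.1 (hey e (by linarith) he2)).1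
      have h7 := mul_le_mul_of_nonneg_left h6 hτ.le
      have h8 := mul_le_mul_of_nonneg_left ha2 (sq_nonneg τ)
      linarith
    · have h5 := (abs_le.1 (as a' (by linarith) ha')).1
      have h6 := (abs_le.1 (hey e' (by linarith) he2')).2
      have h7 := mul_le_mul_of_nonneg_left h6 hτ.le
      have h8 := mul_nonneg (sq_nonneg τ) ha1'
      have h9 : 0 ≤ τ ^ 2 * 110592 := by positivity
      linarith
  have yb : Y ≤ 36 * B + τ * (1296 * X) + τ ^ 2 * 46656 := by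
    refine abs_le.2 ⟨?_, ?_⟩
    · have h5 := (abs_le.1 (bz b hb (by linarith))).2
      have h6 := (abs_le.1 (hbx (b ^ 2) (by linarith) hb5)).2
      have h7 := mul_le_mul_of_nonneg_left h6 hτ.le
      have h8 := mul_le_mul_of_nonneg_left hb2 (sq_nonneg τ)
      linarith
    · have h5 := (abs_le.1 (bz b' (by linarith) hb')).1
      have h6 := (abs_le.1 (hbx (b' ^ 2) (by linarith) hb5')).1
      have h7 := mul_le_mul_of_nonneg_left h6 hτ.le
      have h8 := mul_nonneg (sq_nonneg τ) hb1'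
      have h9 : 0 ≤ τ ^ 2 * 46656 := by positivity
      linarith
  rw [hB, τ_def] at xb yb
  rw [τ_def] at s1 z1
  linarith

/-- the key inequality for the facets on a `P` plane -/
theorem keyP {a a' b x y z : ℝ} (ha : 1 ≤ a) (ha2 : a ≤ 47) (ha' : 1 ≤ a') (ha2' : a' ≤ 47)
    (hb : 1 ≤ b) (hb2 : b ≤ 36)
    (h0 : x + a * (1 - z) - τ * a ^ 2 * y + τ ^ 2 * a ^ 3 = 0)
    (h1 : (1 - z) - τ * (a + a') * y + τ ^ 2 * (a ^ 2 + a * a' + a' ^ 2) < 0)
    (h2 : y + b * z + τ * b ^ 2 * x + τ ^ 2 * b ^ 3 < 0) :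
    y < 0 ∧ x + 48 * (1 - z) + τ ^ 2 * 48 ^ 3 < 0 := by
  have hτ := τ_pos
  set s := 1 - z with hs
  have hz : z = 1 - s := by rw [hs]; ring
  have hx : x = -(a * s) + τ * a ^ 2 * y - τ ^ 2 * a ^ 3 := by linarith
  rw [hx, hz] at h2
  have hq : y * (1 + τ ^ 2 * (a ^ 2 * b ^ 2)) + b - s * (b + τ * (a * b ^ 2)) + τ ^ 2 * b ^ 3
      - τ ^ 3 * (a ^ 3 * b ^ 2) < 0 := by nlinarith
  have hpos : 0 ≤ τ ^ 2 * (a ^ 2 + a * a' + a' ^ 2) := by positivity
  have hs2 : s < τ * (a + a') * y := by linarith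
  have e1 : a ^ 3 * b ^ 2 ≤ 47 ^ 3 * 36 ^ 2 :=
    mul_le_mul (pow_le_pow_left₀ (by linarith) ha2 3) (pow_le_pow_left₀ (by linarith) hb2 2)
      (by positivity) (by positivity)
  have e2 : τ ^ 3 * (a ^ 3 * b ^ 2) ≤ τ ^ 3 * (47 ^ 3 * 36 ^ 2) :=
    mul_le_mul_of_nonneg_left e1 (by positivity)
  have e3 : τ ^ 3 * (47 ^ 3 * 36 ^ 2) ≤ 1 / 100 := by rw [τ_def]; norm_num
  have e4 : 0 ≤ τ ^ 2 * b ^ 3 := by positivity
  have hc : 0 < b + τ * (a * b ^ 2) := by positivity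
  have hc2 : b + τ * (a * b ^ 2) ≤ 37 := by
    have e5 : a * b ^ 2 ≤ 47 * 36 ^ 2 :=
      mul_le_mul ha2 (pow_le_pow_left₀ (by linarith) hb2 2) (by positivity) (by positivity)
    have e6 : τ * (a * b ^ 2) ≤ τ * (47 * 36 ^ 2) := mul_le_mul_of_nonneg_left e5 hτ.le
    have e7 : τ * (47 * 36 ^ 2) ≤ 1 := by rw [τ_def]; norm_num
    linarith
  have hy : y < 0 := by
    by_contra hy
    push Not at hy
    have h3 : τ * (a + a') * y ≤ 94 * τ * y := by
      have : (a + a') * y ≤ 94 * y := mul_le_mul_of_nonneg_right (by linarith) hy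
      nlinarith
    have h4 : s * (b + τ * (a * b ^ 2)) ≤ (94 * τ * y) * 37 := by
      have h5 : s * (b + τ * (a * b ^ 2)) ≤ (94 * τ * y) * (b + τ * (a * b ^ 2)) :=
        mul_le_mul_of_nonneg_right (by linarith) hc.le
      have h6 : (94 * τ * y) * (b + τ * (a * b ^ 2)) ≤ (94 * τ * y) * 37 :=
        mul_le_mul_of_nonneg_left hc2 (by positivity)
      linarith
    have h7 : y ≤ y * (1 + τ ^ 2 * (a ^ 2 * b ^ 2)) := by
      have : 0 ≤ y * (τ ^ 2 * (a ^ 2 * b ^ 2)) := by positivity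
      linarith
    have h8 : y + b - (94 * τ * y) * 37 - 1 / 100 < 0 := by linarith
    rw [τ_def] at h8
    linarith
  have hsneg : s < 0 := by
    have : τ * (a + a') * y ≤ 0 := mul_nonpos_of_nonneg_of_nonpos (by positivity) hy.le
    linarith
  have hy2 : y < -1 / 2 := by
    have h3 : s * (b + τ * (a * b ^ 2)) ≤ 0 := mul_nonpos_of_nonpos_of_nonneg hsneg.le hc.le
    have h4 : y * (1 + τ ^ 2 * (a ^ 2 * b ^ 2)) < -(99 / 100) := by linarith
    have h5 : 1 + τ ^ 2 * (a ^ 2 * b ^ 2) ≤ 101 / 100 := by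
      have e5 : a ^ 2 * b ^ 2 ≤ 47 ^ 2 * 36 ^ 2 :=
        mul_le_mul (pow_le_pow_left₀ (by linarith) ha2 2) (pow_le_pow_left₀ (by linarith) hb2 2)
          (by positivity) (by positivity)
      have e6 : τ ^ 2 * (a ^ 2 * b ^ 2) ≤ τ ^ 2 * (47 ^ 2 * 36 ^ 2) :=
        mul_le_mul_of_nonneg_left e5 (by positivity)
      have e7 : τ ^ 2 * (47 ^ 2 * 36 ^ 2) ≤ 1 / 100 := by rw [τ_def]; norm_num
      linarith
    have h6 : y * (101 / 100) ≤ y * (1 + τ ^ 2 * (a ^ 2 * b ^ 2)) :=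
      mul_le_mul_of_nonpos_left h5 hy.le
    linarith
  refine ⟨hy, ?_⟩
  rw [hx]
  have h3 : (48 - a) * s < 0 := mul_neg_of_pos_of_neg (by linarith) hsneg
  have h4 : τ * a ^ 2 * y ≤ τ * (-1 / 2) := by
    have h5 : a ^ 2 * y ≤ 1 * y := mul_le_mul_of_nonpos_right (by nlinarith) hy.le
    have h6 : τ * (a ^ 2 * y) ≤ τ * (-1 / 2) := mul_le_mul_of_nonneg_left (by linarith) hτ.le
    linarith
  have h5 : τ * (-1 / 2) + τ ^ 2 * 48 ^ 3 < 0 := by rw [τ_def]; norm_num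
  have h6 : 0 ≤ τ ^ 2 * a ^ 3 := by positivity
  linarith

/-- the key inequality for the facets on a `Q` plane -/
theorem keyQ {b x y z : ℝ} (hb : 1 ≤ b) (hb2 : b ≤ 36)
    (h0 : y + b * z + τ * b ^ 2 * x + τ ^ 2 * b ^ 3 = 0)
    (h1 : z + τ * (1 + b) * x + τ ^ 2 * (1 + b + b ^ 2) < 0)
    (h2 : 0 < z + τ * (36 + b) * x + τ ^ 2 * (36 ^ 2 + 36 * b + b ^ 2)) :
    0 < x + 1 * (1 - z) - τ * 1 * y + τ ^ 2 * 1 ^ 3 := by
  have hτ := τ_pos
  have h3 : 0 < τ * (35 * (x + τ * (37 + b))) := by nlinarith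
  have h4 : 0 < x + τ * (37 + b) := by
    by_contra h
    push Not at h
    have : τ * (35 * (x + τ * (37 + b))) ≤ 0 :=
      mul_nonpos_of_nonneg_of_nonpos hτ.le (by linarith)
    linarith
  have hx : -(τ * 73) ≤ x := by
    have : τ * (37 + b) ≤ τ * 73 := mul_le_mul_of_nonneg_left (by linarith) hτ.le
    linarith
  have hz : z ≤ τ ^ 2 * (37 * 73) := by
    have h5 : 0 ≤ τ ^ 2 * (1 + b + b ^ 2) := by positivity
    have h6 : -(τ * (1 + b) * x) ≤ τ ^ 2 * (37 * 73) := by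
      rcases le_or_gt 0 x with h7 | h7
      · have : 0 ≤ τ * (1 + b) * x := by positivity
        have : 0 ≤ τ ^ 2 * (37 * 73) := by positivity
        linarith
      · have h8 : (1 + b) * (-x) ≤ 37 * (τ * 73) :=
          mul_le_mul (by linarith) (by linarith) (by linarith) (by norm_num)
        nlinarith
    linarith
  have hy : y = -(b * z) - τ * b ^ 2 * x - τ ^ 2 * b ^ 3 := by linarith
  rw [hy]
  have h5 : 0 < 1 - τ * b := by
    have : τ * b ≤ τ * 36 := mul_le_mul_of_nonneg_left hb2 hτ.le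
    have h6 : τ * 36 < 1 := by rw [τ_def]; norm_num
    linarith
  have h5' : 1 - τ * b ≤ 1 := by
    have : 0 ≤ τ * b := by positivity
    linarith
  have h6 : z * (1 - τ * b) ≤ τ ^ 2 * (37 * 73) := by
    have h7 : z * (1 - τ * b) ≤ τ ^ 2 * (37 * 73) * (1 - τ * b) :=
      mul_le_mul_of_nonneg_right hz h5.le
    have h8 : τ ^ 2 * (37 * 73) * (1 - τ * b) ≤ τ ^ 2 * (37 * 73) * 1 :=
      mul_le_mul_of_nonneg_left h5' (by positivity)
    linarith
  have h7 : -(τ * 73) * (1 + τ ^ 2 * b ^ 2) ≤ x * (1 + τ ^ 2 * b ^ 2) :=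
    mul_le_mul_of_nonneg_right hx (by positivity)
  have h8 : τ ^ 2 * b ^ 2 ≤ 1 := by
    have e5 : b ^ 2 ≤ 36 ^ 2 := pow_le_pow_left₀ (by linarith) hb2 2
    have e6 : τ ^ 2 * b ^ 2 ≤ τ ^ 2 * 36 ^ 2 := mul_le_mul_of_nonneg_left e5 (by positivity)
    have e7 : τ ^ 2 * 36 ^ 2 ≤ 1 := by rw [τ_def]; norm_num
    linarith
  have h9 : -(τ * 146) ≤ -(τ * 73) * (1 + τ ^ 2 * b ^ 2) := by nlinarith
  have h10 : 0 ≤ τ ^ 3 * b ^ 3 := by positivity
  have h11 : 0 ≤ τ ^ 2 := by positivity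
  have h12 : τ * 146 + τ ^ 2 * (37 * 73) < 1 := by rw [τ_def]; norm_num
  nlinarith

/-- three concurrent `P` planes with quadratic coefficients -/
theorem ppp {a b c x y z : ℝ} (hab : a ≠ b) (hac : a ≠ c) (hbc : b ≠ c)
    (h1 : x + a * (1 - z) - τ * a ^ 2 * y + τ ^ 2 * a ^ 3 = 0)
    (h2 : x + b * (1 - z) - τ * b ^ 2 * y + τ ^ 2 * b ^ 3 = 0)
    (h3 : x + c * (1 - z) - τ * c ^ 2 * y + τ ^ 2 * c ^ 3 = 0) :
    y = τ * (a + b + c) := by
  have hτ := τ_pos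
  have h4 : (1 - z) - τ * (a + b) * y + τ ^ 2 * (a ^ 2 + a * b + b ^ 2) = 0 := by
    apply mul_left_cancel₀ (sub_ne_zero.2 hab.symm)
    linear_combination h2 - h1
  have h5 : (1 - z) - τ * (a + c) * y + τ ^ 2 * (a ^ 2 + a * c + c ^ 2) = 0 := by
    apply mul_left_cancel₀ (sub_ne_zero.2 hac.symm)
    linear_combination h3 - h1
  apply mul_left_cancel₀ (mul_ne_zero hτ.ne' (sub_ne_zero.2 hbc))
  linear_combination h5 - h4

/-- three concurrent `P` planes, one of them the special one -/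
theorem pps {a b x y z : ℝ} (hab : a ≠ b)
    (h1 : x + a * (1 - z) - τ * a ^ 2 * y + τ ^ 2 * a ^ 3 = 0)
    (h2 : x + b * (1 - z) - τ * b ^ 2 * y + τ ^ 2 * b ^ 3 = 0)
    (h3 : x + 48 * (1 - z) - τ * 0 * y + τ ^ 2 * 48 ^ 3 = 0) :
    y * (48 * (a + b) - a * b) = -(τ * ((48 - a) * (48 - b) * (48 + a + b))) := by
  have hτ := τ_pos
  have h4 : (1 - z) - τ * (a + b) * y + τ ^ 2 * (a ^ 2 + a * b + b ^ 2) = 0 := by
    apply mul_left_cancel₀ (sub_ne_zero.2 hab.symm)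
    linear_combination h2 - h1
  apply mul_left_cancel₀ hτ.ne'
  linear_combination h3 - h1 - (48 - a) * h4

theorem pps_neg {a b x y z : ℝ} (hab : a ≠ b) (ha : 1 ≤ a) (ha2 : a ≤ 47) (hb : 1 ≤ b)
    (hb2 : b ≤ 47)
    (h1 : x + a * (1 - z) - τ * a ^ 2 * y + τ ^ 2 * a ^ 3 = 0)
    (h2 : x + b * (1 - z) - τ * b ^ 2 * y + τ ^ 2 * b ^ 3 = 0)
    (h3 : x + 48 * (1 - z) - τ * 0 * y + τ ^ 2 * 48 ^ 3 = 0) :
    y < 0 ∧ -(τ * 400000) ≤ y := by
  have hτ := τ_pos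
  have h4 := pps hab h1 h2 h3
  have hD : 1 ≤ 48 * (a + b) - a * b := by nlinarith
  have hN : 0 < τ * ((48 - a) * (48 - b) * (48 + a + b)) := by
    have h5 : 0 < 48 - a := by linarith
    have h6 : 0 < 48 - b := by linarith
    positivity
  have hN2 : (48 - a) * (48 - b) * (48 + a + b) ≤ 400000 := by
    have h5 : (48 - a) * (48 - b) ≤ 47 * 47 :=
      mul_le_mul (by linarith) (by linarith) (by linarith) (by norm_num)
    have h6 : (48 - a) * (48 - b) * (48 + a + b) ≤ 47 * 47 * 142 :=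
      mul_le_mul h5 (by linarith) (by linarith) (by norm_num)
    linarith
  have hy : y < 0 := by
    by_contra h
    push Not at h
    have : 0 ≤ y * (48 * (a + b) - a * b) := mul_nonneg h (by linarith)
    linarith
  refine ⟨hy, ?_⟩
  have h5 : y * (48 * (a + b) - a * b) ≤ y * 1 := mul_le_mul_of_nonpos_left hD hy.le
  have h6 : τ * ((48 - a) * (48 - b) * (48 + a + b)) ≤ τ * 400000 :=
    mul_le_mul_of_nonneg_left hN2 hτ.le
  linarith

/-- concurrent `P` planes meet at a point with all `Q` positive, if `y` is small -/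
theorem ppq_pos {a a' e e' b x y z : ℝ} (ha : 1 ≤ a) (ha2 : a ≤ 48) (ha' : 1 ≤ a')
    (ha2' : a' ≤ 48) (haa : 1 ≤ |a' - a|) (he : 0 ≤ e) (he2 : e ≤ 2304) (he' : 0 ≤ e')
    (he2' : e' ≤ 2304) (hb : 1 ≤ b) (hb2 : b ≤ 36) (hy : |y| ≤ 1 / 1000)
    (h1 : x + a * (1 - z) - τ * e * y + τ ^ 2 * a ^ 3 = 0)
    (h2 : x + a' * (1 - z) - τ * e' * y + τ ^ 2 * a' ^ 3 = 0) :
    0 < y + b * z + τ * b ^ 2 * x + τ ^ 2 * b ^ 3 := by
  have hτ := τ_pos
  have hy1 := (abs_le.1 hy).1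
  have hy2 := (abs_le.1 hy).2
  have hey : ∀ c : ℝ, -2304 ≤ c → c ≤ 2304 → |c * y| ≤ 3 := by
    intro c h5 h6
    rw [abs_mul]
    have : |c| * |y| ≤ 2304 * (1 / 1000) :=
      mul_le_mul (abs_le.2 ⟨h5, h6⟩) hy (abs_nonneg _) (by norm_num)
    linarith
  have ha3 : ∀ c : ℝ, 1 ≤ c → c ≤ 48 → 0 ≤ c ^ 3 ∧ c ^ 3 ≤ 110592 := by
    intro c h5 h6
    constructor
    · positivity
    · calc c ^ 3 ≤ 48 ^ 3 := pow_le_pow_left₀ (by linarith) h6 3
        _ = 110592 := by norm_num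
  obtain ⟨ha4, ha5⟩ := ha3 a ha ha2
  obtain ⟨ha4', ha5'⟩ := ha3 a' ha' ha2'
  have h3 : (a' - a) * (1 - z) = τ * ((e' - e) * y) - τ ^ 2 * (a' ^ 3 - a ^ 3) := by
    linear_combination h2 - h1
  have h4 : |(a' - a) * (1 - z)| ≤ τ * 3 + τ ^ 2 * 110592 := by
    rw [h3]
    refine (abs_sub _ _).trans ?_
    rw [abs_mul τ, abs_mul (τ ^ 2), abs_of_pos hτ, abs_of_pos (by positivity : 0 < τ ^ 2)]
    have h5 := mul_le_mul_of_nonneg_left (hey (e' - e) (by linarith) (by linarith)) hτ.le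
    have h6 : |a' ^ 3 - a ^ 3| ≤ 110592 := abs_le.2 ⟨by linarith, by linarith⟩
    have h7 := mul_le_mul_of_nonneg_left h6 (sq_nonneg τ)
    linarith
  have hs : |1 - z| ≤ 1 / 1000 := by
    rw [abs_mul] at h4
    have h5 : 1 * |1 - z| ≤ |a' - a| * |1 - z| := mul_le_mul_of_nonneg_right haa (abs_nonneg _)
    have h6 : τ * 3 + τ ^ 2 * 110592 ≤ 1 / 1000 := by rw [τ_def]; norm_num
    linarith
  have hs1 := (abs_le.1 hs).1
  have hs2 := (abs_le.1 hs).2
  have hx : |x| ≤ 1 := by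
    have h5 : x = -(a * (1 - z)) + τ * (e * y) - τ ^ 2 * a ^ 3 := by linear_combination h1
    have h6 : |a * (1 - z)| ≤ 48 * (1 / 1000) := by
      rw [abs_mul, abs_of_pos (by linarith : (0:ℝ) < a)]
      exact mul_le_mul ha2 hs (abs_nonneg _) (by norm_num)
    have h7 : |τ * (e * y)| ≤ τ * 3 := by
      rw [abs_mul, abs_of_pos hτ]
      exact mul_le_mul_of_nonneg_left (hey e (by linarith) he2) hτ.le
    have h8 := mul_le_mul_of_nonneg_left ha5 (sq_nonneg τ)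
    have h9 : 0 ≤ τ ^ 2 * a ^ 3 := by positivity
    have h10 : τ * 3 + τ ^ 2 * 110592 ≤ 1 / 1000 := by rw [τ_def]; norm_num
    have h11 := abs_le.1 h6
    have h12 := abs_le.1 h7
    rw [h5]
    have h13 : 0 < τ ^ 2 * 110592 := by positivity
    have h14 : 0 < τ * 3 := by positivity
    exact abs_le.2 ⟨by linarith [h11.1, h11.2, h12.1, h12.2], by linarith [h11.1, h11.2, h12.1, h12.2]⟩
  have hbz : 999 / 1000 ≤ b * z := by nlinarith
  have hbx : |τ * b ^ 2 * x| ≤ 1 / 1000 := by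
    rw [abs_mul, abs_mul, abs_of_pos hτ, abs_of_nonneg (sq_nonneg b)]
    have h5 : b ^ 2 ≤ 36 ^ 2 := pow_le_pow_left₀ (by linarith) hb2 2
    have h6 : τ * b ^ 2 ≤ τ * 36 ^ 2 := mul_le_mul_of_nonneg_left h5 hτ.le
    have h7 : τ * b ^ 2 * |x| ≤ τ * 36 ^ 2 * 1 :=
      mul_le_mul h6 hx (abs_nonneg _) (by positivity)
    have h8 : τ * 36 ^ 2 * 1 ≤ 1 / 1000 := by rw [τ_def]; norm_num
    linarith
  have h5 := (abs_le.1 hbx).1
  have h6 : 0 ≤ τ ^ 2 * b ^ 3 := by positivity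
  linarith

/-- three concurrent `Q` planes -/
theorem qqq {a b c x y z : ℝ} (hab : a ≠ b) (hac : a ≠ c) (hbc : b ≠ c)
    (h1 : y + a * z + τ * a ^ 2 * x + τ ^ 2 * a ^ 3 = 0)
    (h2 : y + b * z + τ * b ^ 2 * x + τ ^ 2 * b ^ 3 = 0)
    (h3 : y + c * z + τ * c ^ 2 * x + τ ^ 2 * c ^ 3 = 0) :
    x = -(τ * (a + b + c)) ∧ z = τ ^ 2 * (a * b + b * c + c * a) ∧ y = -(τ ^ 2 * (a * b * c)) := by
  have hτ := τ_pos
  have h4 : z + τ * (a + b) * x + τ ^ 2 * (a ^ 2 + a * b + b ^ 2) = 0 := by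
    apply mul_left_cancel₀ (sub_ne_zero.2 hab.symm)
    linear_combination h2 - h1
  have h5 : z + τ * (a + c) * x + τ ^ 2 * (a ^ 2 + a * c + c ^ 2) = 0 := by
    apply mul_left_cancel₀ (sub_ne_zero.2 hac.symm)
    linear_combination h3 - h1
  have hx : x = -(τ * (a + b + c)) := by
    apply mul_left_cancel₀ (mul_ne_zero hτ.ne' (sub_ne_zero.2 hbc))
    linear_combination h4 - h5
  subst hx
  have hz : z = τ ^ 2 * (a * b + b * c + c * a) := by linear_combination h4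
  subst hz
  exact ⟨rfl, rfl, by linear_combination h1⟩

/-- three concurrent `Q` planes meet at a point with all `P` positive -/
theorem qqq_pos {a b c α e x y z : ℝ} (hab : a ≠ b) (hac : a ≠ c) (hbc : b ≠ c)
    (ha : 1 ≤ a) (ha2 : a ≤ 36) (hb : 1 ≤ b) (hb2 : b ≤ 36) (hc : 1 ≤ c) (hc2 : c ≤ 36)
    (hα : 1 ≤ α) (hα2 : α ≤ 48) (he : 0 ≤ e)
    (h1 : y + a * z + τ * a ^ 2 * x + τ ^ 2 * a ^ 3 = 0)
    (h2 : y + b * z + τ * b ^ 2 * x + τ ^ 2 * b ^ 3 = 0)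
    (h3 : y + c * z + τ * c ^ 2 * x + τ ^ 2 * c ^ 3 = 0) :
    0 < x + α * (1 - z) - τ * e * y + τ ^ 2 * α ^ 3 := by
  have hτ := τ_pos
  obtain ⟨hx, hz, hy⟩ := qqq hab hac hbc h1 h2 h3
  have h4 : a * b + b * c + c * a ≤ 4000 := by
    have h5 : a * b ≤ 36 * 36 := mul_le_mul ha2 hb2 (by linarith) (by norm_num)
    have h6 : b * c ≤ 36 * 36 := mul_le_mul hb2 hc2 (by linarith) (by norm_num)
    have h7 : c * a ≤ 36 * 36 := mul_le_mul hc2 ha2 (by linarith) (by norm_num)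
    linarith
  have hz2 : z ≤ τ ^ 2 * 4000 := by
    rw [hz]; exact mul_le_mul_of_nonneg_left h4 (sq_nonneg τ)
  have hz3 : τ ^ 2 * 4000 ≤ 1 / 2 := by rw [τ_def]; norm_num
  have hx2 : -(τ * 108) ≤ x := by
    rw [hx]
    have := mul_le_mul_of_nonneg_left (by linarith : a + b + c ≤ 108) hτ.le
    linarith
  have hx3 : τ * 108 ≤ 1 / 4 := by rw [τ_def]; norm_num
  have hs : 1 / 2 ≤ α * (1 - z) := by nlinarith
  have hy2 : 0 ≤ -(τ * e * y) := by
    rw [hy]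
    have : 0 ≤ τ * e * (τ ^ 2 * (a * b * c)) := by positivity
    linarith
  have h5 : 0 ≤ τ ^ 2 * α ^ 3 := by positivity
  linarith

/-- independence, types PPP -/
theorem ind_ppp {a b c e f g x y z : ℝ}
    (hab : a ≠ b) (hD : (b - a) * (g - e) - (c - a) * (f - e) ≠ 0)
    (h1 : x - a * z - τ * e * y = 0) (h2 : x - b * z - τ * f * y = 0)
    (h3 : x - c * z - τ * g * y = 0) : x = 0 ∧ y = 0 ∧ z = 0 := by
  have hτ := τ_pos
  have hy : y = 0 := by
    have h4 : τ * ((b - a) * (g - e) - (c - a) * (f - e)) * y = 0 := by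
      linear_combination (c - a) * (h2 - h1) - (b - a) * (h3 - h1)
    rcases mul_eq_zero.1 h4 with h5 | h5
    · rcases mul_eq_zero.1 h5 with h6 | h6
      · exact absurd h6 hτ.ne'
      · exact absurd h6 hD
    · exact h5
  subst hy
  have hz : z = 0 := by
    apply mul_left_cancel₀ (sub_ne_zero.2 hab)
    linear_combination h2 - h1
  subst hz
  exact ⟨by linear_combination h1, rfl, rfl⟩

/-- independence, types PPQ -/
theorem ind_ppq {a a' e e' b x y z : ℝ} (ha : 1 ≤ a) (ha2 : a ≤ 48) (haa : 1 ≤ |a' - a|)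
    (he : 0 ≤ e) (he2 : e ≤ 2304) (he' : 0 ≤ e') (he2' : e' ≤ 2304) (hb : 1 ≤ b) (hb2 : b ≤ 36)
    (h1 : x - a * z - τ * e * y = 0) (h2 : x - a' * z - τ * e' * y = 0)
    (h3 : y + b * z + τ * b ^ 2 * x = 0) : x = 0 ∧ y = 0 ∧ z = 0 := by
  have hτ := τ_pos
  have hz : |z| ≤ τ * 2304 * |y| := by
    have h4 : (a' - a) * z = -(τ * ((e' - e) * y)) := by linear_combination h1 - h2
    have h5 : |a' - a| * |z| = τ * (|e' - e| * |y|) := by
      rw [← abs_mul, h4, abs_neg, abs_mul, abs_mul, abs_of_pos hτ]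
    have h6 : 1 * |z| ≤ |a' - a| * |z| := mul_le_mul_of_nonneg_right haa (abs_nonneg _)
    have h7 : |e' - e| * |y| ≤ 2304 * |y| :=
      mul_le_mul_of_nonneg_right (abs_le.2 ⟨by linarith, by linarith⟩) (abs_nonneg _)
    have h8 := mul_le_mul_of_nonneg_left h7 hτ.le
    linarith
  have hx : |x| ≤ 48 * |z| + τ * 2304 * |y| := by
    have h4 : x = a * z + τ * (e * y) := by linear_combination h1
    rw [h4]
    refine (abs_add_le _ _).trans ?_
    rw [abs_mul, abs_mul, abs_mul, abs_of_pos hτ, abs_of_pos (by linarith : (0:ℝ) < a),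
      abs_of_nonneg he]
    have h5 := mul_le_mul_of_nonneg_right ha2 (abs_nonneg z)
    have h6 := mul_le_mul_of_nonneg_left (mul_le_mul_of_nonneg_right he2 (abs_nonneg y)) hτ.le
    linarith
  have hy : |y| ≤ 36 * |z| + τ * 1296 * |x| := by
    have h4 : y = -(b * z + τ * (b ^ 2 * x)) := by linear_combination h3
    have h5 : |y| = |b * z + τ * (b ^ 2 * x)| := by rw [← abs_neg]; congr 1; linarith
    rw [h5]
    refine (abs_add_le _ _).trans ?_
    rw [abs_mul, abs_mul, abs_mul, abs_of_pos hτ, abs_of_pos (by linarith : (0:ℝ) < b),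
      abs_of_nonneg (sq_nonneg b)]
    have h5 := mul_le_mul_of_nonneg_right hb2 (abs_nonneg z)
    have h7 : b ^ 2 ≤ 1296 := by
      calc b ^ 2 ≤ 36 ^ 2 := pow_le_pow_left₀ (by linarith) hb2 2
        _ = 1296 := by norm_num
    have h6 := mul_le_mul_of_nonneg_left (mul_le_mul_of_nonneg_right h7 (abs_nonneg x)) hτ.le
    linarith
  have h0x := abs_nonneg x
  have h0y := abs_nonneg y
  have h0z := abs_nonneg z
  rw [τ_def] at hx hy hz
  have ey : |y| = 0 := by linarith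
  have ez : |z| = 0 := by linarith
  have ex : |x| = 0 := by linarith
  exact ⟨abs_eq_zero.1 ex, abs_eq_zero.1 ey, abs_eq_zero.1 ez⟩

/-- independence, types PQQ -/
theorem ind_pqq {a e b b' x y z : ℝ} (ha : 1 ≤ a) (ha2 : a ≤ 48) (hbb : b ≠ b')
    (he : 0 ≤ e) (he2 : e ≤ 2304) (hb : 1 ≤ b) (hb2 : b ≤ 36) (hb' : 1 ≤ b') (hb2' : b' ≤ 36)
    (h1 : x - a * z - τ * e * y = 0) (h2 : y + b * z + τ * b ^ 2 * x = 0)
    (h3 : y + b' * z + τ * b' ^ 2 * x = 0) : x = 0 ∧ y = 0 ∧ z = 0 := by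
  have hτ := τ_pos
  have hz : z = -(τ * (b + b') * x) := by
    apply mul_left_cancel₀ (sub_ne_zero.2 hbb)
    linear_combination h2 - h3
  have hy : y = τ * (b * b') * x := by
    rw [hz] at h2
    linear_combination h2
  rw [hz, hy] at h1
  have h4 : x * (1 + τ * (a * (b + b')) - τ ^ 2 * (e * (b * b'))) = 0 := by
    linear_combination h1
  have h5 : 0 < 1 + τ * (a * (b + b')) - τ ^ 2 * (e * (b * b')) := by
    have h6 : e * (b * b') ≤ 2304 * (36 * 36) :=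
      mul_le_mul he2 (mul_le_mul hb2 hb2' (by linarith) (by norm_num)) (by positivity) (by norm_num)
    have h7 := mul_le_mul_of_nonneg_left h6 (sq_nonneg τ)
    have h8 : τ ^ 2 * (2304 * (36 * 36)) < 1 := by rw [τ_def]; norm_num
    have h9 : 0 ≤ τ * (a * (b + b')) := by positivity
    linarith
  have hx : x = 0 := by
    rcases mul_eq_zero.1 h4 with h6 | h6
    · exact h6
    · exact absurd h6 h5.ne'
  subst hx
  exact ⟨rfl, by rw [hy]; ring, by rw [hz]; ring⟩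

/-- independence, types QQQ -/
theorem ind_qqq {a b c x y z : ℝ} (hab : a ≠ b) (hac : a ≠ c) (hbc : b ≠ c)
    (h1 : y + a * z + τ * a ^ 2 * x = 0) (h2 : y + b * z + τ * b ^ 2 * x = 0)
    (h3 : y + c * z + τ * c ^ 2 * x = 0) : x = 0 ∧ y = 0 ∧ z = 0 := by
  have hτ := τ_pos
  have h4 : z + τ * (a + b) * x = 0 := by
    apply mul_left_cancel₀ (sub_ne_zero.2 hab.symm)
    linear_combination h2 - h1
  have h5 : z + τ * (a + c) * x = 0 := by
    apply mul_left_cancel₀ (sub_ne_zero.2 hac.symm)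
    linear_combination h3 - h1
  have hx : x = 0 := by
    apply mul_left_cancel₀ (mul_ne_zero hτ.ne' (sub_ne_zero.2 hbc))
    linear_combination h4 - h5
  subst hx
  have hz : z = 0 := by linear_combination h4
  subst hz
  exact ⟨rfl, by linear_combination h1, rfl⟩

/-- the determinants of three points of a parabola, and with the special point -/
theorem det_parab {a b c : ℝ} (hab : a ≠ b) (hac : a ≠ c) (hbc : b ≠ c) :
    (b - a) * (c ^ 2 - a ^ 2) - (c - a) * (b ^ 2 - a ^ 2) ≠ 0 := by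
  have : (b - a) * (c ^ 2 - a ^ 2) - (c - a) * (b ^ 2 - a ^ 2) = (b - a) * (c - a) * (c - b) := by
    ring
  rw [this]
  exact mul_ne_zero (mul_ne_zero (sub_ne_zero.2 hab.symm) (sub_ne_zero.2 hac.symm))
    (sub_ne_zero.2 hbc.symm)

theorem det_special {a b : ℝ} (hab : a ≠ b) (ha : 1 ≤ a) (ha2 : a ≤ 47) (hb : 1 ≤ b)
    (hb2 : b ≤ 47) : (b - a) * (0 - a ^ 2) - (48 - a) * (b ^ 2 - a ^ 2) ≠ 0 := by
  have : (b - a) * (0 - a ^ 2) - (48 - a) * (b ^ 2 - a ^ 2) =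
      -((b - a) * (48 * (a + b) - a * b)) := by ring
  rw [this]
  have h1 : 0 < 48 * (a + b) - a * b := by nlinarith
  exact neg_ne_zero.2 (mul_ne_zero (sub_ne_zero.2 hab.symm) h1.ne')

end Pool.Agent.R164.Arr
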