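import Pool.Agent.R164.ArrCount
import Pool.Agent.R164.ArrReal

/-!
The arrangement of 48 + 36 planes.
-/

set_option autoImplicit false

namespace Pool.Agent.R164.Arr

abbrev E3 := EuclideanSpace ℝ (Fin 3)

abbrev Idx := Fin 48 ⊕ Fin 36

def aP (i : Fin 48) : ℝ := (i : ℕ) + 1

open Classical in
noncomputable def eP (i : Fin 48) : ℝ := if (i : ℕ) = 47 then 0 else aP i ^ 2

def bQ (j : Fin 36) : ℝ := (j : ℕ) + 1

theorem aP_one_le (i : Fin 48) : 1 ≤ aP i := by
  unfold aP; have : (0 : ℝ) ≤ (i : ℕ) := Nat.cast_nonneg _; linarith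

theorem aP_le (i : Fin 48) : aP i ≤ 48 := by
  unfold aP
  have : ((i : ℕ) : ℝ) ≤ (47 : ℕ) := Nat.cast_le.2 (by omega)
  push_cast at this; linarith

theorem aP_le' {i : Fin 48} (hi : (i : ℕ) ≠ 47) : aP i ≤ 47 := by
  unfold aP
  have : ((i : ℕ) : ℝ) ≤ (46 : ℕ) := Nat.cast_le.2 (by omega)
  push_cast at this; linarith

theorem aP_47 {i : Fin 48} (hi : (i : ℕ) = 47) : aP i = 48 := by
  unfold aP; rw [hi]; norm_num

theorem eP_47 {i : Fin 48} (hi : (i : ℕ) = 47) : eP i = 0 := by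
  unfold eP; rw [if_pos hi]

theorem eP_ne {i : Fin 48} (hi : (i : ℕ) ≠ 47) : eP i = aP i ^ 2 := by
  unfold eP; rw [if_neg hi]

theorem eP_nonneg (i : Fin 48) : 0 ≤ eP i := by
  unfold eP; split_ifs <;> positivity

theorem eP_le (i : Fin 48) : eP i ≤ 2304 := by
  unfold eP
  split_ifs
  · norm_num
  · calc aP i ^ 2 ≤ 48 ^ 2 := pow_le_pow_left₀ (by linarith [aP_one_le i]) (aP_le i) 2
      _ = 2304 := by norm_num

theorem aP_lt {i j : Fin 48} (h : i < j) : aP i + 1 ≤ aP j := by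
  unfold aP
  have : ((i : ℕ) : ℝ) + 1 ≤ (j : ℕ) := by exact_mod_cast (Fin.lt_def.1 h)
  linarith

theorem aP_ne {i j : Fin 48} (h : i ≠ j) : aP i ≠ aP j := by
  rcases lt_or_gt_of_ne h with h | h
  · have := aP_lt h; intro hh; linarith
  · have := aP_lt h; intro hh; linarith

theorem aP_abs {i j : Fin 48} (h : i ≠ j) : 1 ≤ |aP j - aP i| := by
  rcases lt_or_gt_of_ne h with h | h
  · have := aP_lt h; exact (by linarith : 1 ≤ aP j - aP i).trans (le_abs_self _)
  · have := aP_lt h; exact (by linarith : 1 ≤ -(aP j - aP i)).trans (neg_le_abs _)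

theorem bQ_one_le (i : Fin 36) : 1 ≤ bQ i := by
  unfold bQ; have : (0 : ℝ) ≤ (i : ℕ) := Nat.cast_nonneg _; linarith

theorem bQ_le (i : Fin 36) : bQ i ≤ 36 := by
  unfold bQ
  have : ((i : ℕ) : ℝ) ≤ (35 : ℕ) := Nat.cast_le.2 (by omega)
  push_cast at this; linarith

theorem bQ_lt {i j : Fin 36} (h : i < j) : bQ i + 1 ≤ bQ j := by
  unfold bQ
  have : ((i : ℕ) : ℝ) + 1 ≤ (j : ℕ) := by exact_mod_cast (Fin.lt_def.1 h)
  linarith

theorem bQ_ne {i j : Fin 36} (h : i ≠ j) : bQ i ≠ bQ j := by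
  rcases lt_or_gt_of_ne h with h | h
  · have := bQ_lt h; intro hh; linarith
  · have := bQ_lt h; intro hh; linarith

/-- the affine functions -/
noncomputable def fn : Idx → E3 → ℝ
  | Sum.inl i, v => v 0 + aP i * (1 - v 2) - τ * eP i * v 1 + τ ^ 2 * aP i ^ 3
  | Sum.inr j, v => v 1 + bQ j * v 2 + τ * bQ j ^ 2 * v 0 + τ ^ 2 * bQ j ^ 3

/-- their linear parts -/
noncomputable def ln : Idx → E3 → ℝ
  | Sum.inl i, d => d 0 - aP i * d 2 - τ * eP i * d 1
  | Sum.inr j, d => d 1 + bQ j * d 2 + τ * bQ j ^ 2 * d 0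

theorem affFam : AffFam fn ln := by
  constructor
  rintro (i | j) v d t
  · simp only [fn, ln, PiLp.add_apply, PiLp.smul_apply, smul_eq_mul]; ring
  · simp only [fn, ln, PiLp.add_apply, PiLp.smul_apply, smul_eq_mul]; ring

/-- the linear parts as linear maps -/
noncomputable def lin (i : Idx) : E3 →ₗ[ℝ] ℝ where
  toFun := ln i
  map_add' v w := by
    rcases i with i | j
    · simp only [ln, PiLp.add_apply]; ring
    · simp only [ln, PiLp.add_apply]; ring
  map_smul' t v := by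
    rcases i with i | j
    · simp only [ln, PiLp.smul_apply, smul_eq_mul, RingHom.id_apply]; ring
    · simp only [ln, PiLp.smul_apply, smul_eq_mul, RingHom.id_apply]; ring

theorem lin_apply (i : Idx) (v : E3) : lin i v = ln i v := rfl

theorem ext3 {v : E3} (h : v 0 = 0 ∧ v 1 = 0 ∧ v 2 = 0) : v = 0 := by
  ext i
  fin_cases i
  · simpa using h.1
  · simpa using h.2.1
  · simpa using h.2.2

theorem det_ne {i j k : Fin 48} (hij : i ≠ j) (hik : i ≠ k) (hjk : j ≠ k) :
    (aP j - aP i) * (eP k - eP i) - (aP k - aP i) * (eP j - eP i) ≠ 0 := by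
  have h1 := aP_ne hij
  have h2 := aP_ne hik
  have h3 := aP_ne hjk
  by_cases hi : (i : ℕ) = 47
  · have hj : (j : ℕ) ≠ 47 := fun h => hij (Fin.ext (by omega))
    have hk : (k : ℕ) ≠ 47 := fun h => hik (Fin.ext (by omega))
    rw [eP_47 hi, eP_ne hj, eP_ne hk, aP_47 hi]
    have := det_special h3 (aP_one_le j) (aP_le' hj) (aP_one_le k) (aP_le' hk)
    intro h
    apply this
    linear_combination h
  · by_cases hj : (j : ℕ) = 47
    · have hk : (k : ℕ) ≠ 47 := fun h => hjk (Fin.ext (by omega))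
      rw [eP_47 hj, eP_ne hi, eP_ne hk, aP_47 hj]
      have := det_special h2.symm (aP_one_le k) (aP_le' hk) (aP_one_le i) (aP_le' hi)
      intro h
      apply this
      linear_combination h
    · by_cases hk : (k : ℕ) = 47
      · rw [eP_47 hk, eP_ne hi, eP_ne hj, aP_47 hk]
        have := det_special h1 (aP_one_le i) (aP_le' hi) (aP_one_le j) (aP_le' hj)
        intro h
        apply this
        linear_combination h
      · rw [eP_ne hi, eP_ne hj, eP_ne hk]
        exact det_parab h1 h2 h3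

/-- three linear parts are independent -/
theorem indep {i j k : Idx} (hij : i ≠ j) (hik : i ≠ k) (hjk : j ≠ k) {v : E3}
    (h1 : ln i v = 0) (h2 : ln j v = 0) (h3 : ln k v = 0) : v = 0 := by
  have ppq : ∀ (i j : Fin 48) (k : Fin 36), i ≠ j → ln (Sum.inl i) v = 0 → ln (Sum.inl j) v = 0 →
      ln (Sum.inr k) v = 0 → v = 0 := fun i j k hij h1 h2 h3 =>
    ext3 (ind_ppq (aP_one_le i) (aP_le i) (aP_abs hij) (eP_nonneg i) (eP_le i) (eP_nonneg j)
      (eP_le j) (bQ_one_le k) (bQ_le k) h1 h2 h3)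
  have pqq : ∀ (i : Fin 48) (j k : Fin 36), j ≠ k → ln (Sum.inl i) v = 0 → ln (Sum.inr j) v = 0 →
      ln (Sum.inr k) v = 0 → v = 0 := fun i j k hjk h1 h2 h3 =>
    ext3 (ind_pqq (aP_one_le i) (aP_le i) (bQ_ne hjk) (eP_nonneg i) (eP_le i) (bQ_one_le j)
      (bQ_le j) (bQ_one_le k) (bQ_le k) h1 h2 h3)
  rcases i with i | i <;> rcases j with j | j <;> rcases k with k | k
  · have a1 : i ≠ j := fun h => hij (by rw [h])
    have a2 : i ≠ k := fun h => hik (by rw [h])
    have a3 : j ≠ k := fun h => hjk (by rw [h])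
    exact ext3 (ind_ppp (aP_ne a1) (det_ne a1 a2 a3) h1 h2 h3)
  · exact ppq i j k (fun h => hij (by rw [h])) h1 h2 h3
  · exact ppq i k j (fun h => hik (by rw [h])) h1 h3 h2
  · exact pqq i j k (fun h => hjk (by rw [h])) h1 h2 h3
  · exact ppq j k i (fun h => hjk (by rw [h])) h2 h3 h1
  · exact pqq j i k (fun h => hik (by rw [h])) h2 h1 h3
  · exact pqq k i j (fun h => hij (by rw [h])) h3 h1 h2
  · have a1 : i ≠ j := fun h => hij (by rw [h])
    have a2 : i ≠ k := fun h => hik (by rw [h])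
    have a3 : j ≠ k := fun h => hjk (by rw [h])
    exact ext3 (ind_qqq (bQ_ne a1) (bQ_ne a2) (bQ_ne a3) h1 h2 h3)

/-- prescribing the values of at most three linear parts -/
theorem surj (I : Finset Idx) (hI : I.card ≤ 3) (g : Idx → ℝ) : ∃ d : E3, ∀ i ∈ I, ln i d = g i := by
  classical
  obtain ⟨J, hIJ, hJ⟩ := Finset.exists_superset_card_eq hI
    (by simp [Idx] : 3 ≤ Fintype.card Idx)
  obtain ⟨i, j, k, hij, hik, hjk, rfl⟩ := Finset.card_eq_three.1 hJ
  set Φ : E3 →ₗ[ℝ] (Fin 3 → ℝ) := LinearMap.pi ![lin i, lin j, lin k] with hΦ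
  have hinj : Function.Injective Φ := by
    rw [← LinearMap.ker_eq_bot, LinearMap.ker_eq_bot']
    intro v hv
    have h1 := congrFun hv 0
    have h2 := congrFun hv 1
    have h3 := congrFun hv 2
    simp only [hΦ, LinearMap.pi_apply, Matrix.cons_val_zero, Matrix.cons_val_one,
      Matrix.cons_val_two, Pi.zero_apply] at h1 h2 h3
    exact indep hij hik hjk h1 h2 h3
  have hsurj : Function.Surjective Φ :=
    (LinearMap.injective_iff_surjective_of_finrank_eq_finrank (by simp)).1 hinj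
  obtain ⟨d, hd⟩ := hsurj ![g i, g j, g k]
  refine ⟨d, fun a ha => ?_⟩
  have ha' := hIJ ha
  simp only [Finset.mem_insert, Finset.mem_singleton] at ha'
  rcases ha' with rfl | rfl | rfl
  · exact congrFun hd 0
  · exact congrFun hd 1
  · exact congrFun hd 2

end Pool.Agent.R164.Arr
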