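import Pool.Agent.R164.ArrFam

/-!
No four of the 84 planes are concurrent.
-/

set_option autoImplicit false

namespace Pool.Agent.R164.Arr

theorem inl_zero {i : Fin 48} {v : E3} (h : fn (Sum.inl i) v = 0) (hi : (i : ℕ) ≠ 47) :
    v 0 + aP i * (1 - v 2) - τ * aP i ^ 2 * v 1 + τ ^ 2 * aP i ^ 3 = 0 := by
  have h1 : v 0 + aP i * (1 - v 2) - τ * eP i * v 1 + τ ^ 2 * aP i ^ 3 = 0 := h
  rwa [eP_ne hi] at h1

theorem inl_zero' {i : Fin 48} {v : E3} (h : fn (Sum.inl i) v = 0) (hi : (i : ℕ) = 47) :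
    v 0 + 48 * (1 - v 2) - τ * 0 * v 1 + τ ^ 2 * 48 ^ 3 = 0 := by
  have h1 : v 0 + aP i * (1 - v 2) - τ * eP i * v 1 + τ ^ 2 * aP i ^ 3 = 0 := h
  rwa [eP_47 hi, aP_47 hi] at h1

theorem three_P {i j k : Fin 48} (hij : i ≠ j) (hik : i ≠ k) (hjk : j ≠ k) {v : E3}
    (h1 : fn (Sum.inl i) v = 0) (h2 : fn (Sum.inl j) v = 0) (h3 : fn (Sum.inl k) v = 0) :
    ((i : ℕ) ≠ 47 ∧ (j : ℕ) ≠ 47 ∧ (k : ℕ) ≠ 47 ∧ v 1 = τ * (aP i + aP j + aP k)) ∨
    (((i : ℕ) = 47 ∨ (j : ℕ) = 47 ∨ (k : ℕ) = 47) ∧ v 1 < 0 ∧ -(τ * 400000) ≤ v 1) := by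
  by_cases hi : (i : ℕ) = 47
  · have hj : (j : ℕ) ≠ 47 := fun h => hij (Fin.ext (by omega))
    have hk : (k : ℕ) ≠ 47 := fun h => hik (Fin.ext (by omega))
    exact Or.inr ⟨Or.inl hi, pps_neg (aP_ne hjk) (aP_one_le j) (aP_le' hj) (aP_one_le k)
      (aP_le' hk) (inl_zero h2 hj) (inl_zero h3 hk) (inl_zero' h1 hi)⟩
  · by_cases hj : (j : ℕ) = 47
    · have hk : (k : ℕ) ≠ 47 := fun h => hjk (Fin.ext (by omega))
      exact Or.inr ⟨Or.inr (Or.inl hj), pps_neg (aP_ne hik) (aP_one_le i) (aP_le' hi) (aP_one_le k)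
        (aP_le' hk) (inl_zero h1 hi) (inl_zero h3 hk) (inl_zero' h2 hj)⟩
    · by_cases hk : (k : ℕ) = 47
      · exact Or.inr ⟨Or.inr (Or.inr hk), pps_neg (aP_ne hij) (aP_one_le i) (aP_le' hi)
          (aP_one_le j) (aP_le' hj) (inl_zero h1 hi) (inl_zero h2 hj) (inl_zero' h3 hk)⟩
      · exact Or.inl ⟨hi, hj, hk, ppp (aP_ne hij) (aP_ne hik) (aP_ne hjk) (inl_zero h1 hi)
          (inl_zero h2 hj) (inl_zero h3 hk)⟩

theorem three_P_abs {i j k : Fin 48} (hij : i ≠ j) (hik : i ≠ k) (hjk : j ≠ k) {v : E3}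
    (h1 : fn (Sum.inl i) v = 0) (h2 : fn (Sum.inl j) v = 0) (h3 : fn (Sum.inl k) v = 0) :
    |v 1| ≤ 1 / 1000 := by
  have hτ := τ_pos
  rcases three_P hij hik hjk h1 h2 h3 with ⟨_, _, _, h⟩ | ⟨_, h, h'⟩
  · have e1 := aP_le i
    have e2 := aP_le j
    have e3 := aP_le k
    have e4 := aP_one_le i
    have e5 := aP_one_le j
    have e6 := aP_one_le k
    have e7 : τ * (aP i + aP j + aP k) ≤ τ * 144 := mul_le_mul_of_nonneg_left (by linarith) hτ.le
    have e8 : τ * 144 ≤ 1 / 1000 := by rw [τ_def]; norm_num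
    have e9 : 0 ≤ τ * (aP i + aP j + aP k) := by positivity
    exact abs_le.2 ⟨by linarith, by linarith⟩
  · have e8 : τ * 400000 ≤ 1 / 1000 := by rw [τ_def]; norm_num
    exact abs_le.2 ⟨by linarith, by linarith⟩

theorem three_P_Q {i j k : Fin 48} (hij : i ≠ j) (hik : i ≠ k) (hjk : j ≠ k) {v : E3}
    (h1 : fn (Sum.inl i) v = 0) (h2 : fn (Sum.inl j) v = 0) (h3 : fn (Sum.inl k) v = 0)
    (l : Fin 36) : 0 < fn (Sum.inr l) v :=
  ppq_pos (aP_one_le i) (aP_le i) (aP_one_le j) (aP_le j) (aP_abs hij) (eP_nonneg i) (eP_le i)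
    (eP_nonneg j) (eP_le j) (bQ_one_le l) (bQ_le l) (three_P_abs hij hik hjk h1 h2 h3) h1 h2

theorem three_Q_P {i j k : Fin 36} (hij : i ≠ j) (hik : i ≠ k) (hjk : j ≠ k) {v : E3}
    (h1 : fn (Sum.inr i) v = 0) (h2 : fn (Sum.inr j) v = 0) (h3 : fn (Sum.inr k) v = 0)
    (l : Fin 48) : 0 < fn (Sum.inl l) v :=
  qqq_pos (bQ_ne hij) (bQ_ne hik) (bQ_ne hjk) (bQ_one_le i) (bQ_le i) (bQ_one_le j) (bQ_le j)
    (bQ_one_le k) (bQ_le k) (aP_one_le l) (aP_le l) (eP_nonneg l) h1 h2 h3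

/-- no two `P` planes and two `Q` planes in the wrong order -/
theorem dichot {i i' : Fin 48} {j j' : Fin 36} (hi : i < i') (hj : j < j') {v : E3}
    (h1 : 0 ≤ fn (Sum.inl i) v) (h2 : fn (Sum.inl i') v ≤ 0) (h3 : 0 ≤ fn (Sum.inr j) v)
    (h4 : fn (Sum.inr j') v ≤ 0) : False :=
  dich (aP_one_le i) (aP_lt hi) (aP_le i') (eP_nonneg i) (eP_le i) (eP_nonneg i') (eP_le i')
    (bQ_one_le j) (bQ_lt hj) (bQ_le j') h1 h2 h3 h4

open Classical in
noncomputable def PZ (v : E3) : Finset (Fin 48) := Finset.univ.filter fun i => fn (Sum.inl i) v = 0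

open Classical in
noncomputable def QZ (v : E3) : Finset (Fin 36) := Finset.univ.filter fun i => fn (Sum.inr i) v = 0

theorem mem_PZ {v : E3} {i : Fin 48} : i ∈ PZ v ↔ fn (Sum.inl i) v = 0 := by simp [PZ]

theorem mem_QZ {v : E3} {i : Fin 36} : i ∈ QZ v ↔ fn (Sum.inr i) v = 0 := by simp [QZ]

theorem four_of_card {α : Type} [DecidableEq α] {s : Finset α} (h : 4 ≤ s.card) :
    ∃ a ∈ s, ∃ b ∈ s, ∃ c ∈ s, ∃ d ∈ s, a ≠ b ∧ a ≠ c ∧ b ≠ c ∧ a ≠ d ∧ b ≠ d ∧ c ≠ d := by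
  obtain ⟨a, ha, b, hb, c, hc, hab, hac, hbc⟩ := Finset.two_lt_card.1 (by omega : 2 < s.card)
  have h1 : ({a, b, c} : Finset α).card < s.card := by
    have := Finset.card_le_three (a := a) (b := b) (c := c)
    omega
  obtain ⟨d, hd, hd'⟩ := Finset.exists_mem_notMem_of_card_lt_card h1
  simp only [Finset.mem_insert, Finset.mem_singleton, not_or] at hd'
  exact ⟨a, ha, b, hb, c, hc, d, hd, hab, hac, hbc, fun h => hd'.1 h.symm, fun h => hd'.2.1 h.symm,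
    fun h => hd'.2.2 h.symm⟩

theorem PZ_le (v : E3) : (PZ v).card ≤ 3 := by
  by_contra hcon
  obtain ⟨a, ha, b, hb, c, hc, d, hd, hab, hac, hbc, had, hbd, hcd⟩ :=
    four_of_card (by omega : 4 ≤ (PZ v).card)
  rw [mem_PZ] at ha hb hc hd
  have hτ := τ_pos
  have nab : (a : ℕ) ≠ b := fun h => hab (Fin.ext h)
  have nac : (a : ℕ) ≠ c := fun h => hac (Fin.ext h)
  have nbc : (b : ℕ) ≠ c := fun h => hbc (Fin.ext h)
  have nad : (a : ℕ) ≠ d := fun h => had (Fin.ext h)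
  have nbd : (b : ℕ) ≠ d := fun h => hbd (Fin.ext h)
  have ncd : (c : ℕ) ≠ d := fun h => hcd (Fin.ext h)
  have pos : ∀ i j k : Fin 48, v 1 = τ * (aP i + aP j + aP k) → 0 < v 1 := by
    intro i j k h
    have e4 := aP_one_le i
    have e5 := aP_one_le j
    have e6 := aP_one_le k
    rw [h]; positivity
  have t1 := three_P hab hac hbc ha hb hc
  have t2 := three_P hab had hbd ha hb hd
  have t3 := three_P hac had hcd ha hc hd
  have t4 := three_P hbc hbd hcd hb hc hd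
  rcases lt_or_ge (v 1) 0 with hneg | hpos
  · have u1 : (a : ℕ) = 47 ∨ (b : ℕ) = 47 ∨ (c : ℕ) = 47 := by
      rcases t1 with ⟨_, _, _, h⟩ | ⟨h, _⟩
      · exact absurd (pos _ _ _ h) (by linarith)
      · exact h
    have u2 : (a : ℕ) = 47 ∨ (b : ℕ) = 47 ∨ (d : ℕ) = 47 := by
      rcases t2 with ⟨_, _, _, h⟩ | ⟨h, _⟩
      · exact absurd (pos _ _ _ h) (by linarith)
      · exact h
    have u3 : (a : ℕ) = 47 ∨ (c : ℕ) = 47 ∨ (d : ℕ) = 47 := by
      rcases t3 with ⟨_, _, _, h⟩ | ⟨h, _⟩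
      · exact absurd (pos _ _ _ h) (by linarith)
      · exact h
    have u4 : (b : ℕ) = 47 ∨ (c : ℕ) = 47 ∨ (d : ℕ) = 47 := by
      rcases t4 with ⟨_, _, _, h⟩ | ⟨h, _⟩
      · exact absurd (pos _ _ _ h) (by linarith)
      · exact h
    rcases u1 with h | h | h
    · rcases u4 with h' | h' | h'
      · exact nab (h.trans h'.symm)
      · exact nac (h.trans h'.symm)
      · exact nad (h.trans h'.symm)
    · rcases u3 with h' | h' | h'
      · exact nab (h'.trans h.symm)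
      · exact nbc (h.trans h'.symm)
      · exact nbd (h.trans h'.symm)
    · rcases u2 with h' | h' | h'
      · exact nac (h'.trans h.symm)
      · exact nbc (h'.trans h.symm)
      · exact ncd (h.trans h'.symm)
  · rcases t1 with ⟨_, _, _, h1⟩ | ⟨_, h1, _⟩
    · rcases t2 with ⟨_, _, _, h2⟩ | ⟨_, h2, _⟩
      · rw [h1] at h2
        have h3 := mul_left_cancel₀ hτ.ne' h2
        exact aP_ne hcd (by linarith)
      · linarith
    · linarith

theorem QZ_le (v : E3) : (QZ v).card ≤ 3 := by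
  by_contra hcon
  obtain ⟨a, ha, b, hb, c, hc, d, hd, hab, hac, hbc, had, hbd, hcd⟩ :=
    four_of_card (by omega : 4 ≤ (QZ v).card)
  rw [mem_QZ] at ha hb hc hd
  have hτ := τ_pos
  have h1 := (qqq (bQ_ne hab) (bQ_ne hac) (bQ_ne hbc) ha hb hc).1
  have h2 := (qqq (bQ_ne hab) (bQ_ne had) (bQ_ne hbd) ha hb hd).1
  rw [h1] at h2
  have h3 := mul_left_cancel₀ hτ.ne' (neg_injective h2)
  exact bQ_ne hcd (by linarith)

theorem PZ3 (v : E3) (h : 3 ≤ (PZ v).card) : (QZ v).card = 0 := by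
  obtain ⟨a, ha, b, hb, c, hc, hab, hac, hbc⟩ := Finset.two_lt_card.1 (by omega : 2 < (PZ v).card)
  rw [mem_PZ] at ha hb hc
  rw [Finset.card_eq_zero, Finset.eq_empty_iff_forall_notMem]
  intro l hl
  rw [mem_QZ] at hl
  have := three_P_Q hab hac hbc ha hb hc l
  linarith

theorem QZ3 (v : E3) (h : 3 ≤ (QZ v).card) : (PZ v).card = 0 := by
  obtain ⟨a, ha, b, hb, c, hc, hab, hac, hbc⟩ := Finset.two_lt_card.1 (by omega : 2 < (QZ v).card)
  rw [mem_QZ] at ha hb hc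
  rw [Finset.card_eq_zero, Finset.eq_empty_iff_forall_notMem]
  intro l hl
  rw [mem_PZ] at hl
  have := three_Q_P hab hac hbc ha hb hc l
  linarith

theorem PZQZ (v : E3) (h : 2 ≤ (PZ v).card) (h' : 2 ≤ (QZ v).card) : False := by
  obtain ⟨a, ha, b, hb, hab⟩ := Finset.one_lt_card.1 (by omega : 1 < (PZ v).card)
  obtain ⟨c, hc, d, hd, hcd⟩ := Finset.one_lt_card.1 (by omega : 1 < (QZ v).card)
  rw [mem_PZ] at ha hb
  rw [mem_QZ] at hc hd
  have key : ∀ (i i' : Fin 48) (j j' : Fin 36), i < i' → j < j' → fn (Sum.inl i) v = 0 →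
      fn (Sum.inl i') v = 0 → fn (Sum.inr j) v = 0 → fn (Sum.inr j') v = 0 → False :=
    fun i i' j j' h1 h2 h3 h4 h5 h6 => dichot h1 h2 h3.ge h4.le h5.ge h6.le
  rcases lt_or_gt_of_ne hab with h1 | h1 <;> rcases lt_or_gt_of_ne hcd with h2 | h2
  · exact key _ _ _ _ h1 h2 ha hb hc hd
  · exact key _ _ _ _ h1 h2 ha hb hd hc
  · exact key _ _ _ _ h1 h2 hb ha hc hd
  · exact key _ _ _ _ h1 h2 hb ha hd hc

/-- at most three of the planes pass through a point -/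
theorem zero_le (v : E3) (I : Finset Idx) (h : ∀ i ∈ I, fn i v = 0) : I.card ≤ 3 := by
  classical
  have h1 : I ⊆ (PZ v).disjSum (QZ v) := by
    rintro (i | j) hi
    · rw [Finset.inl_mem_disjSum, mem_PZ]; exact h _ hi
    · rw [Finset.inr_mem_disjSum, mem_QZ]; exact h _ hi
  have h2 := Finset.card_le_card h1
  rw [Finset.card_disjSum] at h2
  have h3 := PZ_le v
  have h4 := QZ_le v
  have h5 := PZ3 v
  have h6 := QZ3 v
  have h7 : ¬ (2 ≤ (PZ v).card ∧ 2 ≤ (QZ v).card) := fun h => PZQZ v h.1 h.2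
  omega

theorem simple : Simple fn ln := by
  classical
  intro J h v hJ h1 h2
  have h3 : (insert h J).card ≤ 3 := zero_le v _ fun i hi => by
    rcases Finset.mem_insert.1 hi with rfl | hi
    · exact h2
    · exact h1 i hi
  obtain ⟨d, hd⟩ := surj (insert h J) h3 (fun i => if i = h then 1 else 0)
  refine ⟨d, fun j hj => ?_, ?_⟩
  · rw [hd j (Finset.mem_insert_of_mem hj), if_neg]
    rintro rfl
    exact hJ hj
  · rw [hd h (Finset.mem_insert_self _ _), if_pos rfl]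
    exact one_ne_zero

/-- at most three planes have a common point -/
theorem common (I : Finset Idx) (hI : I.card ≤ 3) : ∃ v : E3, ∀ i ∈ I, fn i v = 0 := by
  obtain ⟨d, hd⟩ := surj I hI (fun i => -fn i 0)
  refine ⟨0 + (1 : ℝ) • d, fun i hi => ?_⟩
  rw [affFam.add_smul, hd i hi]
  ring

end Pool.Agent.R164.Arr
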