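import Mathlib

/-!
Superlinear block sequences without alternations `a b a b a` (Hart and Sharir), as lists of blocks.
-/

set_option autoImplicit false

namespace Pool.Agent.R164.DS3

open List

/-- marked block sequences: `(true, l)` is a special block, `(false, l)` a regular one -/
abbrev MB := List (Bool × List ℕ)

/-- the whole sequence -/
def seq : MB → List ℕ
  | [] => []
  | (_, l) :: t => l ++ seq t

/-- the concatenation of the special blocks -/
def spec : MB → List ℕ
  | [] => []
  | (true, l) :: t => l ++ spec t
  | (false, _) :: t => spec t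

/-- number of special blocks -/
def ns : MB → ℕ
  | [] => 0
  | (true, _) :: t => ns t + 1
  | (false, _) :: t => ns t

/-- no symbol of a block occurs in a later special block -/
def Fst : MB → Prop
  | [] => True
  | (_, l) :: t => (∀ a ∈ l, a ∉ spec t) ∧ Fst t

/-- if `a` precedes `b` in a special block then afterwards no `a` precedes a `b` -/
def Inv : MB → Prop
  | [] => True
  | (true, l) :: t => (∀ a b, [a, b] <+ l → ¬ [a, b] <+ seq t) ∧ Inv t
  | (false, _) :: t => Inv t

structure Good (m : ℕ) (S : MB) : Prop where
  size : ∀ l, (true, l) ∈ S → l.length = m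
  nodup : ∀ e ∈ S, e.2.Nodup
  fst : Fst S
  inv : Inv S
  cov : ∀ a ∈ seq S, a ∈ spec S
  ds : ∀ a b, a ≠ b → ¬ [a, b, a, b, a] <+ seq S

/-- even code -/
def E (x : ℕ) : ℕ := 2 * x
/-- odd code -/
def O (j c : ℕ) : ℕ := 2 * Nat.pair j c + 1

theorem E_inj {x y : ℕ} : E x = E y ↔ x = y := by unfold E; omega
theorem O_inj {i c j d : ℕ} : O i c = O j d ↔ i = j ∧ c = d := by
  unfold O
  constructor
  · intro h
    have : Nat.pair i c = Nat.pair j d := by omega
    exact Nat.pair_eq_pair.1 this
  · rintro ⟨rfl, rfl⟩; rfl
theorem E_ne_O {x j c : ℕ} : E x ≠ O j c := by unfold E O; omega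
theorem O_ne_E {x j c : ℕ} : O j c ≠ E x := by unfold E O; omega

theorem code_cases (a : ℕ) : (∃ x, a = E x) ∨ ∃ j c, a = O j c := by
  rcases Nat.even_or_odd' a with ⟨k, rfl | rfl⟩
  · exact Or.inl ⟨k, rfl⟩
  · refine Or.inr ⟨(Nat.unpair k).1, (Nat.unpair k).2, ?_⟩
    unfold O; rw [Nat.pair_unpair]

/-- insert the symbols `xs` at the front of the special blocks of a copy of `S'` -/
def ins (j : ℕ) : List ℕ → MB → MB
  | _, [] => []
  | xs, (false, l) :: t => (false, l.map (O j)) :: ins j xs t
  | [], (true, l) :: t => (true, l.map (O j)) :: ins j [] t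
  | x :: xs, (true, l) :: t => (true, E x :: l.map (O j)) :: ins j xs t

/-- replace the special blocks by copies of `S'` -/
def expand (S' : MB) : MB → ℕ → MB
  | [], _ => []
  | (false, l) :: t, j => (false, l.map E) :: expand S' t j
  | (true, l) :: t, j => ins j l.reverse S' ++ (false, l.map E) :: expand S' t (j + 1)

theorem seq_append (A B : MB) : seq (A ++ B) = seq A ++ seq B := by
  induction A with
  | nil => rfl
  | cons e t ih => obtain ⟨b, l⟩ := e; simp [seq, ih]

theorem spec_append (A B : MB) : spec (A ++ B) = spec A ++ spec B := by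
  induction A with
  | nil => rfl
  | cons e t ih => obtain ⟨b, l⟩ := e; cases b <;> simp [spec, ih]

theorem ns_append (A B : MB) : ns (A ++ B) = ns A + ns B := by
  induction A with
  | nil => simp [ns]
  | cons e t ih => obtain ⟨b, l⟩ := e; cases b <;> simp [ns, ih] ; omega

theorem spec_sub_seq (S : MB) : ∀ a ∈ spec S, a ∈ seq S := by
  induction S with
  | nil => simp [spec]
  | cons e t ih =>
    obtain ⟨b, l⟩ := e
    intro a ha
    cases b
    · exact List.mem_append_right _ (ih a ha)
    · rcases List.mem_append.1 ha with h | h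
      · exact List.mem_append_left _ h
      · exact List.mem_append_right _ (ih a h)

/-! ### counting -/

theorem ns_ins (j : ℕ) (xs : List ℕ) (S : MB) : ns (ins j xs S) = ns S := by
  induction S generalizing xs with
  | nil => cases xs <;> rfl
  | cons e t ih =>
    obtain ⟨b, l⟩ := e
    cases b
    · cases xs <;> simp [ins, ns, ih]
    · cases xs <;> simp [ins, ns, ih]

theorem length_ins (j : ℕ) (xs : List ℕ) (S : MB) : (ins j xs S).length = S.length := by
  induction S generalizing xs with
  | nil => cases xs <;> rfl
  | cons e t ih =>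
    obtain ⟨b, l⟩ := e
    cases b
    · cases xs <;> simp [ins, ih]
    · cases xs <;> simp [ins, ih]

theorem len_seq_ins (j : ℕ) (xs : List ℕ) (S : MB) (h : xs.length = ns S) :
    (seq (ins j xs S)).length = xs.length + (seq S).length := by
  induction S generalizing xs with
  | nil =>
    cases xs with
    | nil => rfl
    | cons x xs => simp [ns] at h
  | cons e t ih =>
    obtain ⟨b, l⟩ := e
    cases b
    · have := ih xs (by simpa [ns] using h)
      cases xs <;> simp_all [ins, seq] <;> omega
    · cases xs with
      | nil => simp [ns] at h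
      | cons x xs =>
        have := ih xs (by simpa [ns] using h)
        simp_all [ins, seq]; omega

theorem ns_expand (S' S : MB) (j : ℕ) : ns (expand S' S j) = ns S * ns S' := by
  induction S generalizing j with
  | nil => simp [expand, ns]
  | cons e t ih =>
    obtain ⟨b, l⟩ := e
    cases b
    · simp [expand, ns, ih]
    · simp only [expand, ns_append, ns_ins, ns, ih]; ring

theorem length_expand (S' S : MB) (j : ℕ) :
    (expand S' S j).length = S.length + ns S * S'.length := by
  induction S generalizing j with
  | nil => simp [expand, ns]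
  | cons e t ih =>
    obtain ⟨b, l⟩ := e
    cases b
    · simp [expand, ns, ih]; omega
    · simp only [expand, List.length_append, length_ins, List.length_cons, ns, ih]; ring

theorem len_seq_expand (S' S : MB) (j : ℕ) (h : ∀ l, (true, l) ∈ S → l.length = ns S') :
    (seq (expand S' S j)).length = (seq S).length + ns S * (ns S' + (seq S').length) := by
  induction S generalizing j with
  | nil => simp [expand, ns, seq]
  | cons e t ih =>
    obtain ⟨b, l⟩ := e
    have iht := fun j => ih j (fun l hl => h l (List.mem_cons_of_mem _ hl))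
    cases b
    · simp [expand, ns, iht, seq]; omega
    · have hl := h l (by simp)
      have h1 := len_seq_ins j l.reverse S' (by simpa using hl)
      simp only [expand, seq_append, List.length_append, h1, seq, List.length_map, ns, iht,
        List.length_reverse, hl]
      ring

/-! ### membership -/

theorem mem_seq_ins (j : ℕ) (xs : List ℕ) (S : MB) (a : ℕ) (h : a ∈ seq (ins j xs S)) :
    (∃ c ∈ seq S, a = O j c) ∨ ∃ x ∈ xs, a = E x := by
  induction S generalizing xs with
  | nil => cases xs <;> simp [ins, seq] at h
  | cons e t ih =>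
    obtain ⟨b, l⟩ := e
    cases b
    · rw [ins, seq] at h
      rcases List.mem_append.1 h with h | h
      · obtain ⟨c, hc, rfl⟩ := List.mem_map.1 h
        exact Or.inl ⟨c, List.mem_append_left _ hc, rfl⟩
      · rcases ih xs h with ⟨c, hc, rfl⟩ | h
        · exact Or.inl ⟨c, List.mem_append_right _ hc, rfl⟩
        · exact Or.inr h
    · cases xs with
      | nil =>
        rw [ins, seq] at h
        rcases List.mem_append.1 h with h | h
        · obtain ⟨c, hc, rfl⟩ := List.mem_map.1 h
          exact Or.inl ⟨c, List.mem_append_left _ hc, rfl⟩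
        · rcases ih [] h with ⟨c, hc, rfl⟩ | h
          · exact Or.inl ⟨c, List.mem_append_right _ hc, rfl⟩
          · exact Or.inr h
      | cons x xs =>
        rw [ins, seq] at h
        rcases List.mem_append.1 h with h | h
        · rcases List.mem_cons.1 h with rfl | h
          · exact Or.inr ⟨x, by simp, rfl⟩
          · obtain ⟨c, hc, rfl⟩ := List.mem_map.1 h
            exact Or.inl ⟨c, List.mem_append_left _ hc, rfl⟩
        · rcases ih xs h with ⟨c, hc, rfl⟩ | ⟨y, hy, rfl⟩
          · exact Or.inl ⟨c, List.mem_append_right _ hc, rfl⟩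
          · exact Or.inr ⟨y, List.mem_cons_of_mem _ hy, rfl⟩

theorem E_mem_seq_ins {j : ℕ} {xs : List ℕ} {S : MB} {x : ℕ} (h : E x ∈ seq (ins j xs S)) :
    x ∈ xs := by
  rcases mem_seq_ins j xs S _ h with ⟨c, _, hc⟩ | ⟨y, hy, hc⟩
  · exact absurd hc E_ne_O
  · rwa [E_inj.1 hc]

theorem O_mem_seq_ins {i j : ℕ} {xs : List ℕ} {S : MB} {c : ℕ} (h : O i c ∈ seq (ins j xs S)) :
    i = j ∧ c ∈ seq S := by
  rcases mem_seq_ins j xs S _ h with ⟨d, hd, hc⟩ | ⟨y, hy, hc⟩
  · obtain ⟨rfl, rfl⟩ := O_inj.1 hc; exact ⟨rfl, hd⟩
  · exact absurd hc O_ne_E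

theorem mem_spec_ins (j : ℕ) (xs : List ℕ) (S : MB) (a : ℕ) (h : a ∈ spec (ins j xs S)) :
    (∃ c ∈ spec S, a = O j c) ∨ ∃ x ∈ xs, a = E x := by
  induction S generalizing xs with
  | nil => cases xs <;> simp [ins, spec] at h
  | cons e t ih =>
    obtain ⟨b, l⟩ := e
    cases b
    · rw [ins, spec] at h
      exact ih xs h
    · cases xs with
      | nil =>
        rw [ins, spec] at h
        rcases List.mem_append.1 h with h | h
        · obtain ⟨c, hc, rfl⟩ := List.mem_map.1 h
          exact Or.inl ⟨c, List.mem_append_left _ hc, rfl⟩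
        · rcases ih [] h with ⟨c, hc, rfl⟩ | h
          · exact Or.inl ⟨c, List.mem_append_right _ hc, rfl⟩
          · exact Or.inr h
      | cons x xs =>
        rw [ins, spec] at h
        rcases List.mem_append.1 h with h | h
        · rcases List.mem_cons.1 h with rfl | h
          · exact Or.inr ⟨x, by simp, rfl⟩
          · obtain ⟨c, hc, rfl⟩ := List.mem_map.1 h
            exact Or.inl ⟨c, List.mem_append_left _ hc, rfl⟩
        · rcases ih xs h with ⟨c, hc, rfl⟩ | ⟨y, hy, rfl⟩
          · exact Or.inl ⟨c, List.mem_append_right _ hc, rfl⟩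
          · exact Or.inr ⟨y, List.mem_cons_of_mem _ hy, rfl⟩

theorem O_mem_spec_ins_of (j : ℕ) (xs : List ℕ) (S : MB) (c : ℕ) (h : c ∈ spec S) :
    O j c ∈ spec (ins j xs S) := by
  induction S generalizing xs with
  | nil => simp [spec] at h
  | cons e t ih =>
    obtain ⟨b, l⟩ := e
    cases b
    · rw [ins, spec]; exact ih xs h
    · rcases List.mem_append.1 h with h | h
      · cases xs with
        | nil => rw [ins, spec]; exact List.mem_append_left _ (List.mem_map_of_mem h)
        | cons x xs =>
          rw [ins, spec]
          exact List.mem_append_left _ (List.mem_cons_of_mem _ (List.mem_map_of_mem h))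
      · cases xs with
        | nil => rw [ins, spec]; exact List.mem_append_right _ (ih _ h)
        | cons x xs => rw [ins, spec]; exact List.mem_append_right _ (ih _ h)

theorem E_mem_spec_ins_of (j : ℕ) (xs : List ℕ) (S : MB) (x : ℕ) (hn : xs.length = ns S)
    (h : x ∈ xs) : E x ∈ spec (ins j xs S) := by
  induction S generalizing xs with
  | nil =>
    have : xs = [] := List.length_eq_zero_iff.1 (by simpa [ns] using hn)
    subst this; simp at h
  | cons e t ih =>
    obtain ⟨b, l⟩ := e
    cases b
    · rw [ins, spec]; exact ih xs (by simpa [ns] using hn) h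
    · cases xs with
      | nil => simp at h
      | cons y xs =>
        rw [ins, spec]
        rcases List.mem_cons.1 h with rfl | h
        · exact List.mem_append_left _ (by simp)
        · exact List.mem_append_right _ (ih xs (by simpa [ns] using hn) h)

theorem mem_spec_expand (S' S : MB) (j : ℕ) (a : ℕ) (h : a ∈ spec (expand S' S j)) :
    (∃ i c, j ≤ i ∧ a = O i c) ∨ ∃ x ∈ spec S, a = E x := by
  induction S generalizing j with
  | nil => simp [expand, spec] at h
  | cons e t ih =>
    obtain ⟨b, l⟩ := e
    cases b
    · rw [expand, spec] at h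
      exact ih j h
    · rw [expand, spec_append, spec] at h
      rcases List.mem_append.1 h with h | h
      · rcases mem_spec_ins _ _ _ _ h with ⟨c, _, rfl⟩ | ⟨x, hx, rfl⟩
        · exact Or.inl ⟨j, c, le_rfl, rfl⟩
        · exact Or.inr ⟨x, List.mem_append_left _ (by simpa using hx), rfl⟩
      · rcases ih (j+1) h with ⟨i, c, hi, rfl⟩ | ⟨x, hx, rfl⟩
        · exact Or.inl ⟨i, c, by omega, rfl⟩
        · exact Or.inr ⟨x, List.mem_append_right _ hx, rfl⟩

theorem E_mem_spec_expand {S' S : MB} {j x : ℕ} (h : E x ∈ spec (expand S' S j)) :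
    x ∈ spec S := by
  rcases mem_spec_expand S' S j _ h with ⟨i, c, _, hc⟩ | ⟨y, hy, hc⟩
  · exact absurd hc E_ne_O
  · rwa [E_inj.1 hc]

theorem O_mem_seq_expand {S' S : MB} {j i c : ℕ} (h : O i c ∈ seq (expand S' S j)) :
    j ≤ i ∧ c ∈ seq S' := by
  induction S generalizing j with
  | nil => simp [expand, seq] at h
  | cons e t ih =>
    obtain ⟨b, l⟩ := e
    cases b
    · rw [expand, seq] at h
      rcases List.mem_append.1 h with h | h
      · obtain ⟨x, _, hx⟩ := List.mem_map.1 h
        exact absurd hx E_ne_O
      · exact ih h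
    · rw [expand, seq_append, seq] at h
      rcases List.mem_append.1 h with h | h
      · obtain ⟨h1, h2⟩ := O_mem_seq_ins h
        exact ⟨h1.ge, h2⟩
      · rcases List.mem_append.1 h with h | h
        · obtain ⟨x, _, hx⟩ := List.mem_map.1 h
          exact absurd hx E_ne_O
        · obtain ⟨h1, h2⟩ := ih h
          exact ⟨by omega, h2⟩

theorem E_mem_seq_expand {S' S : MB} {j x : ℕ} (h : E x ∈ seq (expand S' S j)) :
    x ∈ seq S := by
  induction S generalizing j with
  | nil => simp [expand, seq] at h
  | cons e t ih =>
    obtain ⟨b, l⟩ := e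
    cases b
    · rw [expand, seq] at h
      rcases List.mem_append.1 h with h | h
      · obtain ⟨y, hy, hx⟩ := List.mem_map.1 h
        rw [E_inj.1 hx] at hy
        exact List.mem_append_left _ hy
      · exact List.mem_append_right _ (ih h)
    · rw [expand, seq_append, seq] at h
      rcases List.mem_append.1 h with h | h
      · exact List.mem_append_left _ (by simpa using E_mem_seq_ins h)
      · rcases List.mem_append.1 h with h | h
        · obtain ⟨y, hy, hx⟩ := List.mem_map.1 h
          rw [E_inj.1 hx] at hy
          exact List.mem_append_left _ hy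
        · exact List.mem_append_right _ (ih h)

theorem not_mem_map_O {x j : ℕ} {l : List ℕ} : E x ∉ l.map (O j) := by
  intro h
  obtain ⟨y, _, hy⟩ := List.mem_map.1 h
  exact absurd hy O_ne_E

theorem not_mem_map_E {c j : ℕ} {l : List ℕ} : O j c ∉ l.map E := by
  intro h
  obtain ⟨y, _, hy⟩ := List.mem_map.1 h
  exact absurd hy E_ne_O

/-! ### splitting of sublists -/

/-- a sublist of `A ++ B` whose last symbol is not in `B` is a sublist of `A` -/
theorem sub_left {w A B : List ℕ} {a : ℕ} (h : (w ++ [a]) <+ A ++ B) (ha : a ∉ B) :
    (w ++ [a]) <+ A := by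
  obtain ⟨w1, w2, h1, h2, h3⟩ := List.sublist_append_iff.1 h
  rcases List.eq_nil_or_concat w2 with rfl | ⟨v, b, rfl⟩
  · rw [h1, List.append_nil]; exact h2
  · exfalso
    rw [List.concat_eq_append, ← List.append_assoc] at h1
    have : a = b := by
      have := congrArg List.getLast? h1
      simpa using this
    subst this
    apply ha
    exact h3.subset (by simp)

/-- a sublist of `A ++ B` whose first symbol is not in `A` is a sublist of `B` -/
theorem sub_right {w A B : List ℕ} {a : ℕ} (h : (a :: w) <+ A ++ B) (ha : a ∉ A) :
    (a :: w) <+ B := by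
  obtain ⟨w1, w2, h1, h2, h3⟩ := List.sublist_append_iff.1 h
  cases w1 with
  | nil => rw [h1, List.nil_append]; exact h3
  | cons b v =>
    exfalso
    rw [List.cons_append] at h1
    injection h1 with h1 _
    subst h1
    exact ha (h2.subset (by simp))

/-- a sublist `a b w` of `A ++ B` with `b` not in `A` -/
theorem sub_right2 {w A B : List ℕ} {a b : ℕ} (h : (a :: b :: w) <+ A ++ B) (hb : b ∉ A) :
    (a :: b :: w) <+ B ∨ (a ∈ A ∧ (b :: w) <+ B) := by
  by_cases ha : a ∈ A
  · right
    refine ⟨ha, ?_⟩
    exact sub_right ((List.sublist_cons_self a _).trans h) hb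
  · exact Or.inl (sub_right h ha)

theorem nodup_ins (j : ℕ) (xs : List ℕ) (S : MB) (hx : xs.Nodup) (x : ℕ) :
    ¬ [E x, E x] <+ seq (ins j xs S) := by
  induction S generalizing xs with
  | nil => cases xs <;> simp [ins, seq]
  | cons e t ih =>
    obtain ⟨b, l⟩ := e
    cases b
    · rw [ins, seq]
      intro h
      exact ih xs hx (sub_right h not_mem_map_O)
    · cases xs with
      | nil =>
        rw [ins, seq]
        intro h
        exact ih [] hx (sub_right h not_mem_map_O)
      | cons y xs =>
        rw [ins, seq, List.cons_append]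
        intro h
        by_cases hxy : x = y
        · subst hxy
          rw [List.cons_sublist_cons] at h
          have h1 := sub_right h not_mem_map_O
          have h2 := E_mem_seq_ins (h1.subset (by simp : E x ∈ [E x]))
          exact (List.nodup_cons.1 hx).1 h2
        · have h1 : [E x, E x] <+ l.map (O j) ++ seq (ins j xs t) := by
            have := List.Sublist.of_cons_of_ne (a := E x) (b := E y) (by rw [Ne, E_inj]; exact hxy) h
            exact this
          exact ih xs (List.nodup_cons.1 hx).2 (sub_right h1 not_mem_map_O)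

/-! ### the case of one old and one new symbol -/

theorem L2a (S' S : MB) (j0 x j c : ℕ) (hx : x ∉ spec S) :
    ¬ [O j c, E x, O j c] <+ seq (expand S' S j0) := by
  induction S generalizing j0 with
  | nil => simp [expand, seq]
  | cons e t ih =>
    obtain ⟨b, l⟩ := e
    cases b
    · rw [expand, seq]
      intro h
      exact ih j0 hx (sub_right h not_mem_map_E)
    · rw [spec, List.mem_append, not_or] at hx
      rw [expand, seq_append, seq]
      intro h
      by_cases hj : j = j0
      · subst hj
        have h1 := sub_left (w := [O j c, E x]) h (a := O j c) (by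
          rw [List.mem_append, not_or]
          refine ⟨not_mem_map_E, fun h => ?_⟩
          have := (O_mem_seq_expand h).1
          omega)
        have h2 := E_mem_seq_ins (h1.subset (by simp : E x ∈ _))
        exact hx.1 (by simpa using h2)
      · have h1 := sub_right h (fun h => hj (O_mem_seq_ins h).1)
        exact ih (j0+1) hx.2 (sub_right h1 not_mem_map_E)

theorem L2b (S' S : MB) (j0 x j c : ℕ) (hS : Fst S) (hnd : ∀ e ∈ S, e.2.Nodup) :
    ¬ [E x, O j c, E x, O j c] <+ seq (expand S' S j0) := by
  induction S generalizing j0 with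
  | nil => simp [expand, seq]
  | cons e t ih =>
    obtain ⟨b, l⟩ := e
    have hnd' : ∀ e ∈ t, e.2.Nodup := fun e he => hnd e (List.mem_cons_of_mem _ he)
    have hl : l.Nodup := hnd (b, l) (by simp)
    cases b
    · rw [expand, seq]
      intro h
      rcases sub_right2 h not_mem_map_E with h | ⟨h1, h2⟩
      · exact ih j0 hS.2 hnd' h
      · obtain ⟨y, hy, hxy⟩ := List.mem_map.1 h1
        rw [E_inj.1 hxy] at hy
        exact L2a S' t j0 x j c (hS.1 x hy) h2
    · rw [expand, seq_append, seq]
      intro h
      by_cases hj : j = j0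
      · subst hj
        have h1 := sub_left (w := [E x, O j c, E x]) h (a := O j c) (by
          rw [List.mem_append, not_or]
          refine ⟨not_mem_map_E, fun h => ?_⟩
          have := (O_mem_seq_expand h).1
          omega)
        apply nodup_ins j l.reverse S' (by simpa using hl) x
        refine List.Sublist.trans ?_ h1
        simp
      · rcases sub_right2 h (fun h => hj (O_mem_seq_ins h).1) with h | ⟨h1, h2⟩
        · rcases sub_right2 h not_mem_map_E with h | ⟨h1, h2⟩
          · exact ih (j0+1) hS.2 hnd' h
          · obtain ⟨y, hy, hxy⟩ := List.mem_map.1 h1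
            rw [E_inj.1 hxy] at hy
            exact L2a S' t (j0+1) x j c (hS.1 x hy) h2
        · have h3 : x ∈ l := by simpa using E_mem_seq_ins h1
          exact L2a S' t (j0+1) x j c (hS.1 x h3) (sub_right h2 not_mem_map_E)

theorem L2c (S' S : MB) (j0 x j c : ℕ) (hnd : ∀ e ∈ S, e.2.Nodup) :
    ¬ [O j c, E x, O j c, E x, O j c] <+ seq (expand S' S j0) := by
  induction S generalizing j0 with
  | nil => simp [expand, seq]
  | cons e t ih =>
    obtain ⟨b, l⟩ := e
    have hnd' : ∀ e ∈ t, e.2.Nodup := fun e he => hnd e (List.mem_cons_of_mem _ he)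
    have hl : l.Nodup := hnd (b, l) (by simp)
    cases b
    · rw [expand, seq]
      intro h
      exact ih j0 hnd' (sub_right h not_mem_map_E)
    · rw [expand, seq_append, seq]
      intro h
      by_cases hj : j = j0
      · subst hj
        have h1 := sub_left (w := [O j c, E x, O j c, E x]) h (a := O j c) (by
          rw [List.mem_append, not_or]
          refine ⟨not_mem_map_E, fun h => ?_⟩
          have := (O_mem_seq_expand h).1
          omega)
        apply nodup_ins j l.reverse S' (by simpa using hl) x
        refine List.Sublist.trans ?_ h1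
        refine List.Sublist.cons _ ?_
        refine List.Sublist.cons_cons _ ?_
        refine List.Sublist.cons _ ?_
        simp
      · have h1 := sub_right h (fun h => hj (O_mem_seq_ins h).1)
        exact ih (j0+1) hnd' (sub_right h1 not_mem_map_E)

/-! ### two new symbols -/

theorem L1 (S' S : MB) (j0 i j c d : ℕ) (hij : i ≠ j) :
    ¬ [O i c, O j d, O i c] <+ seq (expand S' S j0) := by
  induction S generalizing j0 with
  | nil => simp [expand, seq]
  | cons e t ih =>
    obtain ⟨b, l⟩ := e
    cases b
    · rw [expand, seq]
      intro h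
      exact ih j0 (sub_right h not_mem_map_E)
    · rw [expand, seq_append, seq]
      intro h
      by_cases hi : i = j0
      · subst hi
        have h1 := sub_left (w := [O i c, O j d]) h (a := O i c) (by
          rw [List.mem_append, not_or]
          refine ⟨not_mem_map_E, fun h => ?_⟩
          have := (O_mem_seq_expand h).1
          omega)
        exact hij (O_mem_seq_ins (h1.subset (by simp : O j d ∈ _))).1.symm
      · have h1 := sub_right h (fun h => hi (O_mem_seq_ins h).1)
        exact ih (j0+1) (sub_right h1 not_mem_map_E)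

theorem sub_ins_O (j : ℕ) (xs : List ℕ) (S : MB) (w : List ℕ)
    (h : w.map (O j) <+ seq (ins j xs S)) : w <+ seq S := by
  induction S generalizing xs w with
  | nil =>
    cases xs <;> · simp [ins, seq] at h; simp [h]
  | cons e t ih =>
    obtain ⟨b, l⟩ := e
    have key : ∀ (xs : List ℕ) (w : List ℕ), w.map (O j) <+ l.map (O j) ++ seq (ins j xs t) →
        w <+ l ++ seq t := by
      intro xs w h
      obtain ⟨w1, w2, h1, h2, h3⟩ := List.sublist_append_iff.1 h
      obtain ⟨u, v, rfl, hu, hv⟩ := List.map_eq_append_iff.1 h1
      rw [← hu] at h2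
      rw [← hv] at h3
      have h4 : u <+ l := by
        obtain ⟨l', hl', h5⟩ := List.sublist_map_iff.1 h2
        have : u = l' := (List.map_injective_iff.2 (fun a b hab => (O_inj.1 hab).2)) h5
        rwa [this]
      exact h4.append (ih xs v h3)
    cases b
    · rw [ins, seq] at h
      exact key xs w h
    · cases xs with
      | nil => rw [ins, seq] at h; exact key [] w h
      | cons y xs =>
        rw [ins, seq, List.cons_append] at h
        apply key xs w
        cases w with
        | nil => simp
        | cons a w =>
          exact List.Sublist.of_cons_of_ne (a := O j a) O_ne_E h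

theorem L1' (S' S : MB) (j0 j : ℕ) (w : List ℕ) (hw : w ≠ [])
    (h : w.map (O j) <+ seq (expand S' S j0)) : w <+ seq S' := by
  induction S generalizing j0 with
  | nil =>
    simp [expand, seq] at h
    exact absurd h hw
  | cons e t ih =>
    obtain ⟨b, l⟩ := e
    obtain ⟨a, w', hw'⟩ := List.exists_cons_of_ne_nil hw
    obtain ⟨w'', a'', hw''⟩ : ∃ w'' a'', w = w'' ++ [a''] := by
      rcases List.eq_nil_or_concat w with h | ⟨v, b, h⟩
      · exact absurd h hw
      · exact ⟨v, b, by rw [h, List.concat_eq_append]⟩
    cases b
    · rw [expand, seq] at h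
      apply ih j0
      rw [hw', List.map_cons] at h ⊢
      exact sub_right h not_mem_map_E
    · rw [expand, seq_append, seq] at h
      by_cases hj : j = j0
      · subst hj
        apply sub_ins_O j l.reverse S'
        rw [hw'', List.map_append, List.map_cons, List.map_nil] at h ⊢
        refine sub_left h ?_
        rw [List.mem_append, not_or]
        refine ⟨not_mem_map_E, fun h => ?_⟩
        have := (O_mem_seq_expand h).1
        omega
      · apply ih (j0+1)
        rw [hw', List.map_cons] at h ⊢
        exact sub_right (sub_right h (fun h => hj (O_mem_seq_ins h).1)) not_mem_map_E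

/-! ### two old symbols -/

/-- the trace of the expansion on the old symbols -/
def D : MB → List ℕ
  | [] => []
  | (false, l) :: t => l ++ D t
  | (true, l) :: t => l.reverse ++ (l ++ D t)

theorem sub_ins_E (j : ℕ) (xs : List ℕ) (S : MB) (w : List ℕ)
    (h : w.map E <+ seq (ins j xs S)) : w <+ xs := by
  induction S generalizing xs w with
  | nil =>
    cases xs <;> · simp [ins, seq] at h; simp [h]
  | cons e t ih =>
    obtain ⟨b, l⟩ := e
    have key : ∀ (xs : List ℕ) (w : List ℕ), w.map E <+ l.map (O j) ++ seq (ins j xs t) →
        w <+ xs := by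
      intro xs w h
      cases w with
      | nil => simp
      | cons a w =>
        apply ih xs (a :: w)
        rw [List.map_cons] at h ⊢
        exact sub_right h not_mem_map_O
    cases b
    · rw [ins, seq] at h
      exact key xs w h
    · cases xs with
      | nil => rw [ins, seq] at h; exact key [] w h
      | cons y xs =>
        rw [ins, seq, List.cons_append] at h
        cases w with
        | nil => simp
        | cons a w =>
          by_cases hay : a = y
          · subst hay
            rw [List.map_cons, List.cons_sublist_cons] at h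
            exact List.Sublist.cons_cons _ (key xs w h)
          · apply List.Sublist.cons
            apply key xs (a :: w)
            rw [List.map_cons] at h ⊢
            exact List.Sublist.of_cons_of_ne (by rw [Ne, E_inj]; exact hay) h

theorem sub_expand_E (S' S : MB) (j : ℕ) (w : List ℕ)
    (h : w.map E <+ seq (expand S' S j)) : w <+ D S := by
  induction S generalizing j w with
  | nil => simp [expand, seq] at h; simp [h]
  | cons e t ih =>
    obtain ⟨b, l⟩ := e
    have key : ∀ (j : ℕ) (w : List ℕ), w.map E <+ l.map E ++ seq (expand S' t j) →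
        w <+ l ++ D t := by
      intro j w h
      obtain ⟨w1, w2, h1, h2, h3⟩ := List.sublist_append_iff.1 h
      obtain ⟨u, v, rfl, hu, hv⟩ := List.map_eq_append_iff.1 h1
      rw [← hu] at h2
      rw [← hv] at h3
      have h4 : u <+ l := by
        obtain ⟨l', hl', h5⟩ := List.sublist_map_iff.1 h2
        have : u = l' := (List.map_injective_iff.2 (fun a b hab => E_inj.1 hab)) h5
        rwa [this]
      exact h4.append (ih j v h3)
    cases b
    · rw [expand, seq] at h
      exact key j w h
    · rw [expand, seq_append, seq] at h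
      obtain ⟨w1, w2, h1, h2, h3⟩ := List.sublist_append_iff.1 h
      obtain ⟨u, v, rfl, hu, hv⟩ := List.map_eq_append_iff.1 h1
      rw [← hu] at h2
      rw [← hv] at h3
      exact (sub_ins_E j _ S' u h2).append (key (j+1) v h3)

/-- alternating lists over `{x, y}` -/
def Alt (x y : ℕ) (w : List ℕ) : Prop := (∀ u ∈ w, u = x ∨ u = y) ∧ w.IsChain (· ≠ ·)

theorem LB (x y : ℕ) (S : MB) (hnd : ∀ e ∈ S, e.2.Nodup)
    (hS : ∀ l, (true, l) ∈ S → x ∈ l → y ∉ l) (w : List ℕ) (hw : Alt x y w) (h : w <+ D S) :
    w <+ seq S := by
  induction S generalizing w with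
  | nil => exact h
  | cons e t ih =>
    obtain ⟨b, l⟩ := e
    have hnd' : ∀ e ∈ t, e.2.Nodup := fun e he => hnd e (List.mem_cons_of_mem _ he)
    have hS' : ∀ l, (true, l) ∈ t → x ∈ l → y ∉ l := fun l hl =>
      hS l (List.mem_cons_of_mem _ hl)
    cases b
    · rw [D] at h
      rw [seq]
      obtain ⟨w1, w2, rfl, h2, h3⟩ := List.sublist_append_iff.1 h
      refine h2.append (ih hnd' hS' w2 ⟨fun u hu => hw.1 u (List.mem_append_right _ hu), ?_⟩ h3)
      exact (List.isChain_append.1 hw.2).2.1
    · rw [D, ← List.append_assoc] at h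
      rw [seq]
      obtain ⟨w1, w2, rfl, h2, h3⟩ := List.sublist_append_iff.1 h
      refine List.Sublist.append ?_ (ih hnd' hS' w2
        ⟨fun u hu => hw.1 u (List.mem_append_right _ hu), (List.isChain_append.1 hw.2).2.1⟩ h3)
      have hc := (List.isChain_append.1 hw.2).1
      have hm : ∀ u ∈ w1, (u = x ∨ u = y) ∧ u ∈ l := by
        intro u hu
        refine ⟨hw.1 u (List.mem_append_left _ hu), ?_⟩
        have := h2.subset hu
        simpa using this
      cases w1 with
      | nil => simp
      | cons a w1 =>
        cases w1 with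
        | nil =>
          have := (hm a (by simp)).2
          simpa using this
        | cons b w1 =>
          exfalso
          have h1 := hm a (by simp)
          have h2 := hm b (by simp)
          have h3 : a ≠ b := (List.isChain_cons_cons.1 hc).1
          have h4 := hS l (by simp)
          rcases h1 with ⟨rfl | rfl, h1'⟩ <;> rcases h2 with ⟨rfl | rfl, h2'⟩
          · exact h3 rfl
          · exact h4 h1' h2'
          · exact h4 h2' h1'
          · exact h3 rfl

theorem not_both_of_nodup {x y : ℕ} (hxy : x ≠ y) {l : List ℕ} (hl : l.Nodup)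
    (h1 : [x, y] <+ l) : ¬ [y, x] <+ l := by
  intro h2
  induction l with
  | nil => simp at h1
  | cons a t ih =>
    rw [List.nodup_cons] at hl
    by_cases hx : a = x
    · subst hx
      have := List.Sublist.of_cons_of_ne (Ne.symm hxy) h2
      exact hl.1 (this.subset (by simp))
    · by_cases hy : a = y
      · subst hy
        have := List.Sublist.of_cons_of_ne hxy h1
        exact hl.1 (this.subset (by simp))
      · exact ih hl.2 (List.Sublist.of_cons_of_ne (Ne.symm hx) h1)
          (List.Sublist.of_cons_of_ne (Ne.symm hy) h2)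

theorem pair_sub {x y : ℕ} (hxy : x ≠ y) {l : List ℕ} (hx : x ∈ l) (hy : y ∈ l) :
    [x, y] <+ l ∨ [y, x] <+ l := by
  induction l with
  | nil => simp at hx
  | cons a t ih =>
    rcases List.mem_cons.1 hx with rfl | hx'
    · left
      rw [List.cons_sublist_cons, List.singleton_sublist]
      rcases List.mem_cons.1 hy with h | h
      · exact absurd h.symm hxy
      · exact h
    · rcases List.mem_cons.1 hy with rfl | hy'
      · right
        rw [List.cons_sublist_cons, List.singleton_sublist]
        exact hx'
      · rcases ih hx' hy' with h | h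
        · exact Or.inl (h.cons _)
        · exact Or.inr (h.cons _)

/-- the heart: both symbols in the same special block -/
theorem core {a b : ℕ} (hab : a ≠ b) {l r : List ℕ} (hl : l.Nodup) (ha : a ∈ l) (hb : b ∈ l)
    (hinv : ∀ x y, [x, y] <+ l → ¬ [x, y] <+ r) :
    ¬ [a, b, a, b, a] <+ l.reverse ++ (l ++ r) := by
  intro h
  obtain ⟨w1, w23, h1, h2, h3⟩ := List.sublist_append_iff.1 h
  obtain ⟨w2, w3, h4, h5, h6⟩ := List.sublist_append_iff.1 h3
  rw [h4] at h1
  rcases pair_sub hab ha hb with hh | hh
  · have n1 := not_both_of_nodup hab hl hh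
    have n2 : ¬ [a, b] <+ l.reverse := by
      intro h; apply n1; rw [← List.reverse_sublist] at h; simpa using h
    have n3 := hinv a b hh
    -- w1 has no [a,b]; w2 has no [b,a]; w3 has no [a,b]
    have f1 : ¬ [a, b] <+ w1 := fun h => n2 (h.trans h2)
    have f2 : ¬ [b, a] <+ w2 := fun h => n1 (h.trans h5)
    have f3 : ¬ [a, b] <+ w3 := fun h => n3 (h.trans h6)
    rcases w1 with _ | ⟨c1, w1⟩
    · rcases w2 with _ | ⟨d1, w2⟩
      · simp only [List.nil_append] at h1; rw [← h1] at f3; simp at f3
      · rcases w2 with _ | ⟨d2, w2⟩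
        · simp only [List.nil_append, List.cons_append, List.cons.injEq] at h1
          rw [← h1.2] at f3; apply f3; exact List.Sublist.cons _ (by simp)
        · rcases w2 with _ | ⟨d3, w2⟩
          · simp only [List.nil_append, List.cons_append, List.cons.injEq] at h1
            rw [← h1.2.2] at f3; apply f3; simp
          · simp only [List.nil_append, List.cons_append, List.cons.injEq] at h1
            obtain ⟨rfl, rfl, rfl, _⟩ := h1
            apply f2; exact List.Sublist.cons _ (by simp)
    · rcases w1 with _ | ⟨c2, w1⟩
      · rcases w2 with _ | ⟨d1, w2⟩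
        · simp only [List.nil_append, List.cons_append, List.cons.injEq] at h1
          rw [← h1.2] at f3; apply f3; exact List.Sublist.cons _ (by simp)
        · rcases w2 with _ | ⟨d2, w2⟩
          · simp only [List.nil_append, List.cons_append, List.cons.injEq] at h1
            rw [← h1.2.2] at f3; apply f3; simp
          · simp only [List.nil_append, List.cons_append, List.cons.injEq] at h1
            obtain ⟨rfl, rfl, rfl, _⟩ := h1
            apply f2; simp
      · simp only [List.cons_append, List.cons.injEq] at h1
        obtain ⟨rfl, rfl, _⟩ := h1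
        apply f1; simp
  · have n1 := not_both_of_nodup hab.symm hl hh
    have n2 : ¬ [b, a] <+ l.reverse := by
      intro h; apply n1; rw [← List.reverse_sublist] at h; simpa using h
    have n3 := hinv b a hh
    have f1 : ¬ [b, a] <+ w1 := fun h => n2 (h.trans h2)
    have f2 : ¬ [a, b] <+ w2 := fun h => n1 (h.trans h5)
    have f3 : ¬ [b, a] <+ w3 := fun h => n3 (h.trans h6)
    -- prefix of length 4 in w1 ++ w2
    rcases w1 with _ | ⟨c1, w1⟩
    · rcases w2 with _ | ⟨d1, w2⟩
      · simp only [List.nil_append] at h1; rw [← h1] at f3; apply f3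
        exact List.Sublist.cons _ (by simp)
      · rcases w2 with _ | ⟨d2, w2⟩
        · simp only [List.nil_append, List.cons_append, List.cons.injEq] at h1
          rw [← h1.2] at f3; apply f3; simp
        · simp only [List.nil_append, List.cons_append, List.cons.injEq] at h1
          obtain ⟨rfl, rfl, _⟩ := h1
          apply f2; simp
    · rcases w1 with _ | ⟨c2, w1⟩
      · rcases w2 with _ | ⟨d1, w2⟩
        · simp only [List.nil_append, List.cons_append, List.cons.injEq] at h1
          rw [← h1.2] at f3; apply f3; simp
        · rcases w2 with _ | ⟨d2, w2⟩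
          · simp only [List.nil_append, List.cons_append, List.cons.injEq] at h1
            rw [← h1.2.2] at f3; apply f3
            exact List.Sublist.cons _ (by simp)
          · rcases w2 with _ | ⟨d3, w2⟩
            · simp only [List.nil_append, List.cons_append, List.cons.injEq] at h1
              rw [← h1.2.2.2] at f3; apply f3; simp
            · simp only [List.nil_append, List.cons_append, List.cons.injEq] at h1
              obtain ⟨rfl, rfl, rfl, rfl, _⟩ := h1
              apply f2; exact List.Sublist.cons _ (by simp)
      · rcases w1 with _ | ⟨c3, w1⟩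
        · rcases w2 with _ | ⟨d1, w2⟩
          · simp only [List.nil_append, List.cons_append, List.cons.injEq] at h1
            rw [← h1.2.2] at f3; apply f3
            exact List.Sublist.cons _ (by simp)
          · rcases w2 with _ | ⟨d2, w2⟩
            · simp only [List.nil_append, List.cons_append, List.cons.injEq] at h1
              rw [← h1.2.2.2] at f3; apply f3; simp
            · simp only [List.nil_append, List.cons_append, List.cons.injEq] at h1
              obtain ⟨rfl, rfl, rfl, rfl, _⟩ := h1
              apply f2; simp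
        · simp only [List.cons_append, List.cons.injEq] at h1
          obtain ⟨rfl, rfl, rfl, _⟩ := h1
          apply f1; exact List.Sublist.cons _ (by simp)

theorem mem_spec_of {S : MB} {l : List ℕ} (h : (true, l) ∈ S) {x : ℕ} (hx : x ∈ l) :
    x ∈ spec S := by
  induction S with
  | nil => simp at h
  | cons e t ih =>
    obtain ⟨b, m⟩ := e
    rcases List.mem_cons.1 h with h' | h'
    · injection h' with h1 h2
      subst h1 h2
      exact List.mem_append_left _ hx
    · cases b
      · exact ih h'
      · exact List.mem_append_right _ (ih h')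

theorem L3 (S : MB) (hnd : ∀ e ∈ S, e.2.Nodup) (hF : Fst S) (hI : Inv S) {a b : ℕ} (hab : a ≠ b)
    (hds : ¬ [a, b, a, b, a] <+ seq S) : ¬ [a, b, a, b, a] <+ D S := by
  induction S with
  | nil => exact hds
  | cons e t ih =>
    obtain ⟨s, l⟩ := e
    have hnd' : ∀ e ∈ t, e.2.Nodup := fun e he => hnd e (List.mem_cons_of_mem _ he)
    have hl : l.Nodup := hnd (s, l) (by simp)
    have hds' : ¬ [a, b, a, b, a] <+ seq t := fun h => hds (h.trans (List.sublist_append_right _ _))
    have hI' : Inv t := by cases s; exacts [hI, hI.2]
    have hAlt : ∀ w, w <:+ [a, b, a, b, a] → Alt a b w := by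
      intro w hw
      have hA : Alt a b [a, b, a, b, a] := by
        refine ⟨by simp, ?_⟩
        simp [List.isChain_cons_cons, hab, hab.symm]
      refine ⟨fun u hu => hA.1 u (hw.subset hu), ?_⟩
      obtain ⟨v, hv⟩ := hw
      rw [← hv] at hA
      exact (List.isChain_append.1 hA.2).2.1
    by_cases hboth : ∃ l', (true, l') ∈ t ∧ a ∈ l' ∧ b ∈ l'
    · obtain ⟨l', hl', ha', hb'⟩ := hboth
      have ha : a ∉ l := fun h => hF.1 a h (mem_spec_of hl' ha')
      have iht := ih hnd' hF.2 hI' hds'
      cases s
      · rw [D]
        intro h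
        exact iht (sub_right h ha)
      · rw [D]
        intro h
        exact iht (sub_right (sub_right h (by simpa using ha)) ha)
    · have hboth' : ∀ l', (true, l') ∈ t → a ∈ l' → b ∉ l' := fun l' h1 h2 h3 =>
        hboth ⟨l', h1, h2, h3⟩
      cases s
      · rw [D]
        intro h
        obtain ⟨w1, w2, h1, h2, h3⟩ := List.sublist_append_iff.1 h
        have h4 := LB a b t hnd' hboth' w2 (hAlt w2 ⟨w1, h1.symm⟩) h3
        apply hds
        rw [h1, seq]
        exact h2.append h4
      · by_cases hb : a ∈ l ∧ b ∈ l
        · rw [D]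
          intro h
          obtain ⟨w1, w2, h1, h2, h3⟩ := List.sublist_append_iff.1 h
          obtain ⟨w3, w4, h4, h5, h6⟩ := List.sublist_append_iff.1 h3
          have h7 := LB a b t hnd' hboth' w4 (hAlt w4 ⟨w1 ++ w3, by
            rw [h1, h4, List.append_assoc]⟩) h6
          apply core hab hl hb.1 hb.2 hI.1
          rw [h1, h4]
          exact h2.append (h5.append h7)
        · intro h
          apply hds
          refine LB a b _ hnd ?_ _ (hAlt _ (List.suffix_refl _)) h
          intro l' h1 h2 h3
          rcases List.mem_cons.1 h1 with h | h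
          · injection h with _ h; subst h; exact hb ⟨h2, h3⟩
          · exact hboth' l' h h2 h3

/-! ### the expansion is good -/

theorem size_ins (m j : ℕ) (xs : List ℕ) (S : MB) (hn : xs.length = ns S)
    (h : ∀ l, (true, l) ∈ S → l.length = m) :
    ∀ l, (true, l) ∈ ins j xs S → l.length = m + 1 := by
  induction S generalizing xs with
  | nil => cases xs <;> simp [ins]
  | cons e t ih =>
    obtain ⟨b, l⟩ := e
    have h' : ∀ l, (true, l) ∈ t → l.length = m := fun l hl => h l (List.mem_cons_of_mem _ hl)
    intro l' hl'
    cases b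
    · rw [ins] at hl'
      rcases List.mem_cons.1 hl' with h1 | h1
      · simp at h1
      · exact ih xs (by simpa [ns] using hn) h' l' h1
    · cases xs with
      | nil => simp [ns] at hn
      | cons x xs =>
        rw [ins] at hl'
        rcases List.mem_cons.1 hl' with h1 | h1
        · injection h1 with _ h1
          rw [h1]
          simp [h l (by simp)]
        · exact ih xs (by simpa [ns] using hn) h' l' h1

theorem size_expand (m : ℕ) (S' S : MB) (j : ℕ) (hS : ∀ l, (true, l) ∈ S → l.length = ns S')
    (h : ∀ l, (true, l) ∈ S' → l.length = m) :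
    ∀ l, (true, l) ∈ expand S' S j → l.length = m + 1 := by
  induction S generalizing j with
  | nil => simp [expand]
  | cons e t ih =>
    obtain ⟨b, l⟩ := e
    have hS' : ∀ l, (true, l) ∈ t → l.length = ns S' := fun l hl =>
      hS l (List.mem_cons_of_mem _ hl)
    intro l' hl'
    cases b
    · rw [expand] at hl'
      rcases List.mem_cons.1 hl' with h1 | h1
      · simp at h1
      · exact ih j hS' l' h1
    · rw [expand] at hl'
      rcases List.mem_append.1 hl' with h1 | h1
      · exact size_ins m j l.reverse S' (by simpa using hS l (by simp)) h l' h1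
      · rcases List.mem_cons.1 h1 with h1 | h1
        · simp at h1
        · exact ih (j+1) hS' l' h1

theorem O_injective (j : ℕ) : Function.Injective (O j) := fun _ _ h => (O_inj.1 h).2
theorem E_injective : Function.Injective E := fun _ _ h => E_inj.1 h

theorem ndb_ins (j : ℕ) (xs : List ℕ) (S : MB) (h : ∀ e ∈ S, e.2.Nodup) :
    ∀ e ∈ ins j xs S, e.2.Nodup := by
  induction S generalizing xs with
  | nil => cases xs <;> simp [ins]
  | cons e t ih =>
    obtain ⟨b, l⟩ := e
    have h' : ∀ e ∈ t, e.2.Nodup := fun l hl => h l (List.mem_cons_of_mem _ hl)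
    have hl : (l.map (O j)).Nodup := (h (b, l) (by simp)).map (O_injective j)
    intro e' he'
    cases b
    · rw [ins] at he'
      rcases List.mem_cons.1 he' with h1 | h1
      · rw [h1]; exact hl
      · exact ih xs h' e' h1
    · cases xs with
      | nil =>
        rw [ins] at he'
        rcases List.mem_cons.1 he' with h1 | h1
        · rw [h1]; exact hl
        · exact ih [] h' e' h1
      | cons x xs =>
        rw [ins] at he'
        rcases List.mem_cons.1 he' with h1 | h1
        · rw [h1]; exact List.nodup_cons.2 ⟨not_mem_map_O, hl⟩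
        · exact ih xs h' e' h1

theorem ndb_expand (S' S : MB) (j : ℕ) (h' : ∀ e ∈ S', e.2.Nodup) (h : ∀ e ∈ S, e.2.Nodup) :
    ∀ e ∈ expand S' S j, e.2.Nodup := by
  induction S generalizing j with
  | nil => simp [expand]
  | cons e t ih =>
    obtain ⟨b, l⟩ := e
    have hS' : ∀ e ∈ t, e.2.Nodup := fun l hl => h l (List.mem_cons_of_mem _ hl)
    have hl : (l.map E).Nodup := (h (b, l) (by simp)).map E_injective
    intro l' hl'
    cases b
    · rw [expand] at hl'
      rcases List.mem_cons.1 hl' with h1 | h1
      · rw [h1]; exact hl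
      · exact ih j hS' l' h1
    · rw [expand] at hl'
      rcases List.mem_append.1 hl' with h1 | h1
      · exact ndb_ins j l.reverse S' h' l' h1
      · rcases List.mem_cons.1 h1 with h1 | h1
        · rw [h1]; exact hl
        · exact ih (j+1) hS' l' h1

theorem O_mem_spec_ins {i j c : ℕ} {xs : List ℕ} {S : MB} (h : O i c ∈ spec (ins j xs S)) :
    i = j ∧ c ∈ spec S := by
  rcases mem_spec_ins j xs S _ h with ⟨d, hd, hc⟩ | ⟨y, hy, hc⟩
  · obtain ⟨rfl, rfl⟩ := O_inj.1 hc; exact ⟨rfl, hd⟩
  · exact absurd hc O_ne_E

theorem E_mem_spec_ins {j x : ℕ} {xs : List ℕ} {S : MB} (h : E x ∈ spec (ins j xs S)) :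
    x ∈ xs := by
  rcases mem_spec_ins j xs S _ h with ⟨d, hd, hc⟩ | ⟨y, hy, hc⟩
  · exact absurd hc E_ne_O
  · rwa [E_inj.1 hc]

theorem O_mem_spec_expand {S' S : MB} {i j c : ℕ} (h : O i c ∈ spec (expand S' S j)) : j ≤ i := by
  rcases mem_spec_expand S' S j _ h with ⟨i', c', hi, hc⟩ | ⟨y, hy, hc⟩
  · obtain ⟨rfl, rfl⟩ := O_inj.1 hc; exact hi
  · exact absurd hc O_ne_E

theorem fst_ins (j : ℕ) (xs : List ℕ) (S R : MB) (hx : xs.Nodup) (hF : Fst S)
    (hR : Fst R) (h1 : ∀ x ∈ xs, E x ∉ spec R) (h2 : ∀ c, O j c ∉ spec R) :
    Fst (ins j xs S ++ R) := by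
  induction S generalizing xs with
  | nil => cases xs <;> exact hR
  | cons e t ih =>
    obtain ⟨b, l⟩ := e
    have key : ∀ xs : List ℕ, ∀ a ∈ l.map (O j), a ∉ spec (ins j xs t ++ R) := by
      intro xs a ha
      obtain ⟨c, hc, rfl⟩ := List.mem_map.1 ha
      rw [spec_append, List.mem_append, not_or]
      exact ⟨fun h => hF.1 c hc (O_mem_spec_ins h).2, h2 c⟩
    cases b
    · rw [ins, List.cons_append]
      exact ⟨key xs, ih xs hx hF.2 h1⟩
    · cases xs with
      | nil => rw [ins, List.cons_append]; exact ⟨key [], ih [] hx hF.2 h1⟩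
      | cons x xs =>
        rw [ins, List.cons_append]
        refine ⟨?_, ih xs (List.nodup_cons.1 hx).2 hF.2
          (fun y hy => h1 y (List.mem_cons_of_mem _ hy))⟩
        intro a ha
        rcases List.mem_cons.1 ha with rfl | ha
        · rw [spec_append, List.mem_append, not_or]
          exact ⟨fun h => (List.nodup_cons.1 hx).1 (E_mem_spec_ins h), h1 x (by simp)⟩
        · exact key xs a ha

theorem fst_expand (S' S : MB) (j : ℕ) (hF' : Fst S') (hF : Fst S)
    (hnd : ∀ e ∈ S, e.2.Nodup) : Fst (expand S' S j) := by
  induction S generalizing j with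
  | nil => trivial
  | cons e t ih =>
    obtain ⟨b, l⟩ := e
    have hnd' : ∀ e ∈ t, e.2.Nodup := fun l hl => hnd l (List.mem_cons_of_mem _ hl)
    have hl : l.Nodup := hnd (b, l) (by simp)
    have key : ∀ j, ∀ a ∈ l.map E, a ∉ spec (expand S' t j) := by
      intro j a ha h
      obtain ⟨x, hx, rfl⟩ := List.mem_map.1 ha
      exact hF.1 x hx (E_mem_spec_expand h)
    cases b
    · rw [expand]
      exact ⟨key j, ih j hF.2 hnd'⟩
    · rw [expand]
      refine fst_ins j _ S' _ (by simpa using hl) hF' ⟨key (j+1), ih (j+1) hF.2 hnd'⟩ ?_ ?_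
      · intro x hx
        rw [spec]
        exact key (j+1) _ (List.mem_map_of_mem (by simpa using hx))
      · intro c h
        rw [spec] at h
        have := O_mem_spec_expand h
        omega

theorem inv_ins (j : ℕ) (xs : List ℕ) (S R : MB) (hx : xs.Nodup) (hI : Inv S)
    (hR : Inv R) (h2 : ∀ c, O j c ∉ seq R) :
    Inv (ins j xs S ++ R) := by
  induction S generalizing xs with
  | nil => cases xs <;> exact hR
  | cons e t ih =>
    obtain ⟨b, l⟩ := e
    cases b
    · rw [ins, List.cons_append]
      exact ih xs hx hI
    · have key : ∀ xs : List ℕ, ∀ a b, [a, b] <+ l.map (O j) →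
          ¬ [a, b] <+ seq (ins j xs t ++ R) := by
        intro xs a b hab h
        obtain ⟨w, hw, hw'⟩ := List.sublist_map_iff.1 hab
        rcases w with _ | ⟨c, _ | ⟨d, _ | ⟨e, w⟩⟩⟩ <;> simp at hw'
        obtain ⟨rfl, rfl⟩ := hw'
        rw [seq_append] at h
        have h3 := sub_left (w := [O j c]) h (h2 d)
        exact hI.1 c d hw (sub_ins_O j xs t [c, d] h3)
      cases xs with
      | nil => rw [ins, List.cons_append]; exact ⟨key [], ih [] hx hI.2⟩
      | cons x xs =>
        rw [ins, List.cons_append]
        refine ⟨?_, ih xs (List.nodup_cons.1 hx).2 hI.2⟩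
        intro a b hab h
        by_cases hax : a = E x
        · subst hax
          rw [List.cons_sublist_cons, List.singleton_sublist] at hab
          obtain ⟨c, hc, rfl⟩ := List.mem_map.1 hab
          rw [seq_append] at h
          have h3 := sub_left (w := [E x]) h (h2 c)
          exact (List.nodup_cons.1 hx).1 (E_mem_seq_ins (h3.subset (by simp)))
        · exact key xs a b (List.Sublist.of_cons_of_ne hax hab) h

theorem inv_expand (S' S : MB) (j : ℕ) (hI' : Inv S')
    (hnd : ∀ e ∈ S, e.2.Nodup) : Inv (expand S' S j) := by
  induction S generalizing j with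
  | nil => trivial
  | cons e t ih =>
    obtain ⟨b, l⟩ := e
    have hnd' : ∀ e ∈ t, e.2.Nodup := fun l hl => hnd l (List.mem_cons_of_mem _ hl)
    have hl : l.Nodup := hnd (b, l) (by simp)
    cases b
    · rw [expand]
      exact ih j hnd'
    · rw [expand]
      refine inv_ins j _ S' _ (by simpa using hl) hI' (ih (j+1) hnd') ?_
      intro c h
      rw [seq, List.mem_append] at h
      rcases h with h | h
      · exact not_mem_map_E h
      · have := (O_mem_seq_expand h).1
        omega

theorem cov_expand (S' S : MB) (j : ℕ) (hcov' : ∀ a ∈ seq S', a ∈ spec S')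
    (hsz : ∀ l, (true, l) ∈ S → l.length = ns S') :
    (∀ i c, O i c ∈ seq (expand S' S j) → O i c ∈ spec (expand S' S j)) ∧
    (∀ x ∈ spec S, E x ∈ spec (expand S' S j)) := by
  induction S generalizing j with
  | nil => simp [expand, seq, spec]
  | cons e t ih =>
    obtain ⟨b, l⟩ := e
    have hsz' : ∀ l, (true, l) ∈ t → l.length = ns S' := fun l hl =>
      hsz l (List.mem_cons_of_mem _ hl)
    cases b
    · rw [expand, seq, spec]
      refine ⟨fun i c h => ?_, (ih j hsz').2⟩
      rcases List.mem_append.1 h with h | h
      · exact absurd h not_mem_map_E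
      · exact (ih j hsz').1 i c h
    · rw [expand, seq_append, seq, spec_append, spec, spec]
      refine ⟨fun i c h => ?_, fun x hx => ?_⟩
      · rcases List.mem_append.1 h with h | h
        · obtain ⟨hi, hc⟩ := O_mem_seq_ins h
          subst hi
          exact List.mem_append_left _ (O_mem_spec_ins_of _ _ _ _ (hcov' c hc))
        · rcases List.mem_append.1 h with h | h
          · exact absurd h not_mem_map_E
          · exact List.mem_append_right _ ((ih (j+1) hsz').1 i c h)
      · rcases List.mem_append.1 hx with hx | hx
        · exact List.mem_append_left _ (E_mem_spec_ins_of _ _ _ _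
            (by simpa using hsz l (by simp)) (by simpa using hx))
        · exact List.mem_append_right _ ((ih (j+1) hsz').2 x hx)

theorem good_expand {m : ℕ} {S' S : MB} (h' : Good m S') (h : Good (ns S') S) :
    Good (m + 1) (expand S' S 0) where
  size := size_expand m S' S 0 h.size h'.size
  nodup := ndb_expand S' S 0 h'.nodup h.nodup
  fst := fst_expand S' S 0 h'.fst h.fst h.nodup
  inv := inv_expand S' S 0 h'.inv h.nodup
  cov := by
    intro a ha
    obtain ⟨c1, c2⟩ := cov_expand S' S 0 h'.cov h.size
    rcases code_cases a with ⟨x, rfl⟩ | ⟨i, c, rfl⟩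
    · exact c2 x (h.cov x (E_mem_seq_expand ha))
    · exact c1 i c ha
  ds := by
    intro a b hab hs
    rcases code_cases a with ⟨x, rfl⟩ | ⟨i, c, rfl⟩ <;>
      rcases code_cases b with ⟨y, rfl⟩ | ⟨k, d, rfl⟩
    · have hxy : x ≠ y := fun h => hab (by rw [h])
      have h1 : ([x, y, x, y, x].map E) <+ seq (expand S' S 0) := hs
      exact L3 S h.nodup h.fst h.inv hxy (h.ds x y hxy) (sub_expand_E S' S 0 _ h1)
    · exact L2b S' S 0 x k d h.fst h.nodup
        ((List.sublist_append_left [E x, O k d, E x, O k d] [E x]).trans hs)
    · exact L2c S' S 0 y i c h.nodup hs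
    · by_cases hik : i = k
      · subst hik
        have hcd : c ≠ d := fun h => hab (by rw [h])
        have h1 : ([c, d, c, d, c].map (O i)) <+ seq (expand S' S 0) := hs
        exact h'.ds c d hcd (L1' S' S 0 i _ (by simp) h1)
      · exact L1 S' S 0 i k c d hik
          ((List.sublist_append_left [O i c, O k d, O i c] [O k d, O i c]).trans hs)

/-! ### the double recursion -/

theorem good_zero (M : ℕ) : Good 0 (List.replicate M (true, [])) ∧
    ns (List.replicate M (true, ([] : List ℕ))) = M ∧
    seq (List.replicate M (true, ([] : List ℕ))) = [] := by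
  induction M with
  | zero => exact ⟨⟨by simp, by simp, trivial, trivial, by simp [seq], by simp [seq]⟩, rfl, rfl⟩
  | succ M ih =>
    obtain ⟨h1, h2, h3⟩ := ih
    rw [List.replicate_succ]
    refine ⟨⟨?_, ?_, ⟨by simp, h1.fst⟩, ⟨?_, h1.inv⟩, ?_, ?_⟩, ?_, ?_⟩
    · intro l hl
      rcases List.mem_cons.1 hl with h | h
      · injection h with _ h; rw [h]; rfl
      · exact h1.size l h
    · intro e he
      rcases List.mem_cons.1 he with h | h
      · rw [h]; exact List.nodup_nil
      · exact h1.nodup e h
    · intro a b h; simp at h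
    · rw [seq, h3]; simp
    · rw [seq, h3]; simp
    · rw [ns, h2]
    · rw [seq, h3]; rfl

theorem good_base (m : ℕ) : Good m [(true, List.range m)] where
  size := by simp
  nodup := by simp [List.nodup_range]
  fst := by simp [Fst, spec]
  inv := ⟨by simp [seq], trivial⟩
  cov := by simp [seq, spec]
  ds := by
    intro a b hab h
    have h1 : [a, a] <+ seq [(true, List.range m)] := by
      refine List.Sublist.trans ?_ h
      rw [List.cons_sublist_cons]; simp
    simp only [seq, List.append_nil] at h1
    have := (List.nodup_range (n := m)).sublist h1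
    simp at this

/-- `d` occurrences per symbol, few blocks -/
theorem exists_good (T : ℕ) (hT : 1 ≤ T) (d : ℕ) : ∀ m : ℕ, ∃ S : MB, Good m S ∧
    1 ≤ ns S ∧ (1 ≤ d → T ≤ ns S) ∧ (seq S).length = (d + 1) * m * ns S ∧
    T * S.length ≤ (d * m + T) * ns S := by
  induction d with
  | zero =>
    intro m
    refine ⟨[(true, List.range m)], good_base m, by simp [ns], by simp, ?_, ?_⟩
    · simp [seq, ns]
    · simp [ns]
  | succ d ihd =>
    intro m
    induction m with
    | zero =>
      obtain ⟨h1, h2, h3⟩ := good_zero T
      refine ⟨_, h1, by rw [h2]; exact hT, fun _ => by rw [h2], by rw [h3]; simp, ?_⟩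
      rw [h2]; simp
    | succ m ihm =>
      obtain ⟨S', g', f1, f2, f3, f4⟩ := ihm
      obtain ⟨S, g, e1, e2, e3, e4⟩ := ihd (ns S')
      refine ⟨expand S' S 0, good_expand g' g, ?_, ?_, ?_, ?_⟩
      · rw [ns_expand]; exact Nat.mul_pos e1 f1
      · intro _
        rw [ns_expand]
        have := f2 (by omega)
        nlinarith
      · rw [len_seq_expand _ _ _ g.size, ns_expand, e3, f3]; ring
      · rw [length_expand, ns_expand]
        have hTF := f2 (by omega)
        -- T * (B + g B') ≤ ...
        have a1 : T * (ns S * S'.length) ≤ ns S * (((d + 1) * m + T) * ns S') := by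
          calc T * (ns S * S'.length) = ns S * (T * S'.length) := by ring
            _ ≤ _ := Nat.mul_le_mul_left _ f4
        have a2 : (d * ns S' + T) * ns S ≤ (d * ns S' + ns S') * ns S :=
          Nat.mul_le_mul_right _ (by omega)
        calc T * (S.length + ns S * S'.length) = T * S.length + T * (ns S * S'.length) := by ring
          _ ≤ (d * ns S' + ns S') * ns S + ns S * (((d + 1) * m + T) * ns S') := by
              exact Nat.add_le_add (e4.trans a2) a1
          _ = ((d + 1) * (m + 1) + T) * (ns S * ns S') := by ring

theorem seq_eq_flatten (S : MB) : seq S = (S.map Prod.snd).flatten := by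
  induction S with
  | nil => rfl
  | cons e t ih => obtain ⟨b, l⟩ := e; simp [seq, ih]

theorem length_spec (m : ℕ) (S : MB) (h : ∀ l, (true, l) ∈ S → l.length = m) :
    (spec S).length = m * ns S := by
  induction S with
  | nil => rfl
  | cons e t ih =>
    obtain ⟨b, l⟩ := e
    have h' := fun l hl => h l (List.mem_cons_of_mem _ hl)
    cases b
    · exact ih h'
    · rw [spec, ns, List.length_append, ih h', h l (by simp)]; ring

/-- **Superlinear block sequences.** For every `T` there are `F ≥ 1` and a list of at most `2 F`
blocks, without repetitions within a block, on at most `F` symbols, of total length `T F`, whose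
concatenation has no alternation `a b a b a`. -/
theorem exists_blocks (T : ℕ) (hT : 1 ≤ T) : ∃ (F : ℕ) (L : List (List ℕ)), 1 ≤ F ∧
    L.length ≤ 2 * F ∧ (∀ l ∈ L, l.Nodup) ∧ L.flatten.toFinset.card ≤ F ∧
    L.flatten.length = T * F ∧ ∀ a b, a ≠ b → ¬ [a, b, a, b, a] <+ L.flatten := by
  obtain ⟨S, g, h1, _, h3, h4⟩ := exists_good T hT (T - 1) 1
  refine ⟨ns S, S.map Prod.snd, h1, ?_, ?_, ?_, ?_, ?_⟩
  · rw [List.length_map]
    have : T * S.length ≤ T * (2 * ns S) := by
      refine h4.trans ?_
      have : (T - 1) * 1 + T ≤ 2 * T := by omega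
      calc ((T - 1) * 1 + T) * ns S ≤ (2 * T) * ns S := Nat.mul_le_mul_right _ this
        _ = T * (2 * ns S) := by ring
    exact Nat.le_of_mul_le_mul_left this (by omega)
  · intro l hl
    obtain ⟨e, he, rfl⟩ := List.mem_map.1 hl
    exact g.nodup e he
  · rw [← seq_eq_flatten]
    have h5 : (seq S).toFinset ⊆ (spec S).toFinset := by
      intro a ha
      rw [List.mem_toFinset] at ha ⊢
      exact g.cov a ha
    calc (seq S).toFinset.card ≤ (spec S).toFinset.card := Finset.card_le_card h5
      _ ≤ (spec S).length := List.toFinset_card_le _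
      _ = ns S := by rw [length_spec 1 S g.size, one_mul]
  · rw [← seq_eq_flatten, h3]
    have : T - 1 + 1 = T := by omega
    rw [this]; ring
  · intro a b hab
    rw [← seq_eq_flatten]
    exact g.ds a b hab

end Pool.Agent.R164.DS3
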