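import Mathlib

/-! The valuation-comparison colouring of the plane has no square which is split fairly by one cut. -/

namespace Pool.Agent.R164.Neck

open Finset

/-- number of multiples of `q` in a half-open interval of integers -/
lemma card_mult (q : ℤ) (hq : 0 < q) (u : ℤ) (n : ℕ) :
    (((Finset.Ico u (u + n)).filter (fun y => q ∣ y)).card : ℤ) = (u + n - 1) / q - (u - 1) / q := by
  induction n with
  | zero => simp
  | succ n ih =>
    have h1 : Finset.Ico u (u + ((n + 1 : ℕ) : ℤ)) = insert (u + n) (Finset.Ico u (u + n)) := by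
      ext z
      simp only [Finset.mem_Ico, Finset.mem_insert]
      push_cast
      constructor
      · intro h; omega
      · intro h; omega
    rw [h1, Finset.filter_insert]
    have key : (u + ((n + 1 : ℕ) : ℤ) - 1) / q - (u + n - 1) / q = if q ∣ (u + n) then 1 else 0 := by
      push_cast
      have e1 : u + ((n : ℤ) + 1) - 1 = u + n := by ring
      rw [e1]
      set t := u + (n : ℤ) with ht
      split_ifs with hd
      · obtain ⟨c, hc⟩ := hd
        have a1 : t / q = c := by rw [hc]; exact Int.mul_ediv_cancel_left _ hq.ne'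
        have a2 : (t - 1) / q = c - 1 := by
          rw [hc]
          have : q * c - 1 = (q - 1) + q * (c - 1) := by ring
          rw [this, Int.add_mul_ediv_left _ _ hq.ne', Int.ediv_eq_zero_of_lt (by omega) (by omega)]
          ring
        omega
      · have hr : 0 < t % q := by
          rcases (Int.emod_nonneg t hq.ne').lt_or_eq with h | h
          · exact h
          · exact absurd (Int.dvd_of_emod_eq_zero h.symm) hd
        have hr2 := Int.emod_lt_of_pos t hq
        have e := Int.emod_add_mul_ediv t q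
        have a2 : (t - 1) / q = t / q := by
          have : t - 1 = (t % q - 1) + q * (t / q) := by omega
          rw [this, Int.add_mul_ediv_left _ _ hq.ne', Int.ediv_eq_zero_of_lt (by omega) (by omega)]
          ring
        omega
    split_ifs with hd
    · rw [Finset.card_insert_of_notMem (by simp)]
      rw [if_pos hd] at key
      push_cast at key ⊢
      rw [ih]
      omega
    · rw [if_neg hd] at key
      rw [ih]
      omega

/-- the difference of the numbers of multiples of `q` in two adjacent intervals of length `m` -/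
noncomputable def dl (b : ℤ) (m : ℕ) (q : ℤ) : ℤ :=
  (((Finset.Ico b (b + m)).filter (fun y => q ∣ y)).card : ℤ)
    - (((Finset.Ico (b + m) (b + 2 * m)).filter (fun y => q ∣ y)).card : ℤ)

lemma dl_eq (b : ℤ) (m : ℕ) (q : ℤ) (hq : 0 < q) :
    dl b m q = 2 * ((b + m - 1) / q) - (b - 1) / q - (b + 2 * m - 1) / q := by
  unfold dl
  have h2 : b + 2 * (m : ℤ) = (b + m) + m := by ring
  rw [card_mult q hq, h2, card_mult q hq]
  ring

lemma dl_bound (b : ℤ) (m : ℕ) (q : ℤ) (hq : 0 < q) : -1 ≤ dl b m q ∧ dl b m q ≤ 1 := by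
  rw [dl_eq b m q hq]
  have e1 := Int.emod_add_mul_ediv (b + m - 1) q
  have e2 := Int.emod_add_mul_ediv (b - 1) q
  have e3 := Int.emod_add_mul_ediv (b + 2 * m - 1) q
  have l1 := Int.emod_lt_of_pos (b + m - 1) hq
  have l2 := Int.emod_lt_of_pos (b - 1) hq
  have l3 := Int.emod_lt_of_pos (b + 2 * m - 1) hq
  have p1 := Int.emod_nonneg (b + m - 1) hq.ne'
  have p2 := Int.emod_nonneg (b - 1) hq.ne'
  have p3 := Int.emod_nonneg (b + 2 * m - 1) hq.ne'
  set x1 := (b + m - 1) / q
  set x2 := (b - 1) / q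
  set x3 := (b + 2 * m - 1) / q
  have hk : q * (2 * x1 - x2 - x3) = (b - 1) % q + (b + 2 * m - 1) % q - 2 * ((b + m - 1) % q) := by
    have : q * (2 * x1 - x2 - x3) = 2 * (q * x1) - q * x2 - q * x3 := by ring
    rw [this]
    omega
  constructor
  · by_contra hcon
    push Not at hcon
    have : q * (2 * x1 - x2 - x3) ≤ q * (-2) := by
      apply mul_le_mul_of_nonneg_left _ hq.le
      omega
    omega
  · by_contra hcon
    push Not at hcon
    have : q * 2 ≤ q * (2 * x1 - x2 - x3) := by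
      apply mul_le_mul_of_nonneg_left _ hq.le
      omega
    omega

lemma dl_zero_of_dvd (b : ℤ) (m : ℕ) (q : ℤ) (hq : 0 < q) (h : q ∣ (m : ℤ)) : dl b m q = 0 := by
  rw [dl_eq b m q hq]
  obtain ⟨c, hc⟩ := h
  have e1 : b + (m : ℤ) - 1 = (b - 1) + q * c := by rw [hc]; ring
  have e2 : b + 2 * (m : ℤ) - 1 = (b - 1) + q * (2 * c) := by rw [hc]; ring
  rw [e1, e2, Int.add_mul_ediv_left _ _ hq.ne', Int.add_mul_ediv_left _ _ hq.ne']
  ring

/-- if `2m = qM` with `M` odd, the difference is `±1` -/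
lemma dl_odd (b : ℤ) (m : ℕ) (q : ℤ) (hq : 0 < q) (M : ℤ) (h : 2 * (m : ℤ) = q * M) (hM : M % 2 = 1) :
    dl b m q = 1 ∨ dl b m q = -1 := by
  have hb := dl_bound b m q hq
  rw [dl_eq b m q hq] at hb ⊢
  have e2 : b + 2 * (m : ℤ) - 1 = (b - 1) + q * M := by rw [h]; ring
  rw [e2, Int.add_mul_ediv_left _ _ hq.ne'] at hb ⊢
  omega

lemma card_exact (a : ℤ) (n : ℕ) (q : ℤ) (hq : 0 < q) (M : ℤ) (h : (n : ℤ) = q * M) :
    (((Finset.Ico a (a + n)).filter (fun y => q ∣ y)).card : ℤ) = M := by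
  rw [card_mult q hq]
  have e2 : a + (n : ℤ) - 1 = (a - 1) + q * M := by rw [h]; ring
  rw [e2, Int.add_mul_ediv_left _ _ hq.ne']
  ring

/-- the 2-adic valuation, in `ℕ∞` -/
noncomputable abbrev v (x : ℤ) : ℕ∞ := emultiplicity 2 x

lemma pow_dvd_iff (j : ℕ) (x : ℤ) : (2 : ℤ) ^ j ∣ x ↔ (j : ℕ∞) ≤ v x :=
  pow_dvd_iff_le_emultiplicity

lemma v_fin {x : ℤ} (hx : x ≠ 0) : ∃ j : ℕ, v x = j := by
  have : FiniteMultiplicity (2 : ℤ) x := by
    rw [Int.finiteMultiplicity_iff]
    exact ⟨by decide, hx⟩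
  exact ⟨multiplicity 2 x, this.emultiplicity_eq_multiplicity⟩


/-- the net count for `v x < v y` -/
noncomputable def be (b : ℤ) (m : ℕ) (x : ℤ) : ℤ :=
  (((Finset.Ico b (b + m)).filter (fun y => v x < v y)).card : ℤ)
    - (((Finset.Ico (b + m) (b + 2 * m)).filter (fun y => v x < v y)).card : ℤ)

/-- the net count for `v y < v x` -/
noncomputable def ga (b : ℤ) (m : ℕ) (x : ℤ) : ℤ :=
  (((Finset.Ico b (b + m)).filter (fun y => v y < v x)).card : ℤ)
    - (((Finset.Ico (b + m) (b + 2 * m)).filter (fun y => v y < v x)).card : ℤ)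

lemma be_eq (b : ℤ) (m : ℕ) (x : ℤ) (j : ℕ) (h : v x = j) : be b m x = dl b m (2 ^ (j + 1)) := by
  unfold be dl
  have : ∀ y : ℤ, (v x < v y) ↔ ((2 : ℤ) ^ (j + 1) ∣ y) := by
    intro y
    rw [pow_dvd_iff, h]
    push_cast
    exact (Order.add_one_le_iff_of_not_isMax (by simp)).symm
  simp only [this]

lemma be_top (b : ℤ) (m : ℕ) : be b m 0 = 0 := by
  unfold be
  have : ∀ y : ℤ, ¬ (v 0 < v y) := by
    intro y
    simp [v]
  simp only [this]
  simp

lemma ga_eq (b : ℤ) (m : ℕ) (x : ℤ) (j : ℕ) (h : v x = j) : ga b m x = - dl b m (2 ^ j) := by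
  unfold ga dl
  have h1 : ∀ y : ℤ, (v y < v x) ↔ ¬ ((2 : ℤ) ^ j ∣ y) := by
    intro y
    rw [pow_dvd_iff, h, not_le]
  simp only [h1]
  have c1 := Finset.card_filter_add_card_filter_not (s := Finset.Ico b (b + m)) (fun y => (2 : ℤ) ^ j ∣ y)
  have c2 := Finset.card_filter_add_card_filter_not (s := Finset.Ico (b + m) (b + 2 * m)) (fun y => (2 : ℤ) ^ j ∣ y)
  have n1 : (Finset.Ico b (b + m)).card = m := by simp
  have n2 : (Finset.Ico (b + m) (b + 2 * m)).card = m := by
    rw [Int.card_Ico]; omega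
  rw [n1] at c1
  rw [n2] at c2
  omega

/-- The key lemma. -/
lemma key (a b : ℤ) (m : ℕ) (hm : 1 ≤ m)
    (h1 : ∑ x ∈ Finset.Ico a (a + 2 * m), be b m x = 0)
    (h2 : ∑ x ∈ Finset.Ico a (a + 2 * m), ga b m x = 0) : False := by
  classical
  -- `m = 2^k * M`
  obtain ⟨k, M, hM, hmM⟩ := Nat.exists_eq_two_pow_mul_odd (n := m) (by omega)
  have hMo : (M : ℤ) % 2 = 1 := by
    obtain ⟨r, hr⟩ := hM; omega
  have hmk : (m : ℤ) = 2 ^ k * M := by rw [hmM]; push_cast; ring
  have pos : ∀ j : ℕ, (0 : ℤ) < 2 ^ j := fun j => by positivity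
  set I := Finset.Ico a (a + 2 * (m : ℤ)) with hI
  set δ := dl b m (2 ^ (k + 1)) with hδ
  have hδ1 : δ = 1 ∨ δ = -1 :=
    dl_odd b m (2 ^ (k + 1)) (pos _) M (by rw [hmk]; ring) hMo
  have hlow : ∀ j, j ≤ k → dl b m (2 ^ j) = 0 := by
    intro j hj
    apply dl_zero_of_dvd _ _ _ (pos j)
    rw [hmk]
    exact Dvd.dvd.mul_right (pow_dvd_pow 2 hj) _
  -- the set S
  set S := I.filter (fun x => (2 : ℤ) ^ (k + 1) ∣ x) with hS
  have hI2 : I = Finset.Ico a (a + ((2 * m : ℕ) : ℤ)) := by rw [hI]; push_cast; rfl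
  have hScard : (S.card : ℤ) = M := by
    rw [hS, hI2]
    apply card_exact a (2 * m) (2 ^ (k + 1)) (pos _) M
    push_cast
    rw [hmk]; ring
  set T := I.filter (fun x => (2 : ℤ) ^ k ∣ x ∧ ¬ (2 : ℤ) ^ (k + 1) ∣ x) with hT
  have hTcard : (T.card : ℤ) = M := by
    have hU : ((I.filter (fun x => (2 : ℤ) ^ k ∣ x)).card : ℤ) = 2 * M := by
      rw [hI2]
      apply card_exact a (2 * m) (2 ^ k) (pos _) (2 * M)
      push_cast
      rw [hmk]; ring
    have c1 := Finset.card_filter_add_card_filter_not (s := I.filter (fun x => (2 : ℤ) ^ k ∣ x))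
      (fun y => (2 : ℤ) ^ (k + 1) ∣ y)
    rw [Finset.filter_filter, Finset.filter_filter] at c1
    have e1 : I.filter (fun x => (2 : ℤ) ^ k ∣ x ∧ (2 : ℤ) ^ (k + 1) ∣ x) = S := by
      apply Finset.filter_congr
      intro x _
      constructor
      · exact fun h => h.2
      · exact fun h => ⟨dvd_trans (pow_dvd_pow 2 (Nat.le_succ k)) h, h⟩
    rw [e1] at c1
    rw [← hT] at c1
    omega
  -- values outside S
  have bound : ∀ x, -1 ≤ be b m x ∧ be b m x ≤ 1 := by
    intro x
    by_cases hx : x = 0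
    · rw [hx, be_top]; omega
    · obtain ⟨j, hj⟩ := v_fin hx
      rw [be_eq b m x j hj]
      exact dl_bound b m _ (pos _)
  have bT : ∀ x ∈ T, be b m x = δ := by
    intro x hx
    rw [hT, Finset.mem_filter] at hx
    obtain ⟨_, hx1, hx2⟩ := hx
    rw [pow_dvd_iff] at hx1 hx2
    have hv : v x = k := by
      apply le_antisymm _ hx1
      rw [not_le] at hx2
      have : v x < (k : ℕ∞) + 1 := by exact_mod_cast hx2
      exact Order.le_of_lt_add_one this
    exact be_eq b m x k hv
  have bL : ∀ x ∈ I, ¬ (2 : ℤ) ^ k ∣ x → be b m x = 0 := by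
    intro x _ hx
    rw [pow_dvd_iff, not_le] at hx
    have hx0 : x ≠ 0 := by
      rintro rfl
      simp [v] at hx
    obtain ⟨j, hj⟩ := v_fin hx0
    rw [hj] at hx
    have hjk : j < k := by exact_mod_cast hx
    rw [be_eq b m x j hj]
    exact hlow _ (by omega)
  have gL : ∀ x ∈ I, ¬ (2 : ℤ) ^ (k + 1) ∣ x → ga b m x = 0 := by
    intro x _ hx
    rw [pow_dvd_iff, not_le] at hx
    have hx0 : x ≠ 0 := by
      rintro rfl
      simp [v] at hx
    obtain ⟨j, hj⟩ := v_fin hx0
    rw [hj] at hx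
    have hjk : j < k + 1 := by exact_mod_cast hx
    rw [ga_eq b m x j hj, hlow _ (by omega)]
    simp
  -- the sum over S
  have hsum : ∑ x ∈ S, (be b m x + δ) = 0 := by
    have hsplit : ∑ x ∈ I, be b m x = ∑ x ∈ S, be b m x + ∑ x ∈ T, be b m x := by
      rw [← Finset.sum_filter_add_sum_filter_not I (fun x => (2 : ℤ) ^ (k + 1) ∣ x)]
      congr 1
      rw [← Finset.sum_filter_add_sum_filter_not (I.filter (fun x => ¬ (2 : ℤ) ^ (k + 1) ∣ x)) (fun x => (2 : ℤ) ^ k ∣ x)]
      have z : ∑ x ∈ (I.filter (fun x => ¬ (2 : ℤ) ^ (k + 1) ∣ x)).filter (fun x => ¬ (2 : ℤ) ^ k ∣ x), be b m x = 0 := by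
        apply Finset.sum_eq_zero
        intro x hx
        rw [Finset.mem_filter, Finset.mem_filter] at hx
        exact bL x hx.1.1 hx.2
      rw [z, add_zero, Finset.filter_filter]
      apply Finset.sum_congr _ (fun _ _ => rfl)
      rw [hT]
      apply Finset.filter_congr
      intro x _
      tauto
    rw [h1] at hsplit
    have hTs : ∑ x ∈ T, be b m x = M * δ := by
      rw [Finset.sum_congr rfl bT, Finset.sum_const, nsmul_eq_mul, hTcard]
    rw [Finset.sum_add_distrib, Finset.sum_const, nsmul_eq_mul, hScard]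
    rw [hTs] at hsplit
    linarith
  have hall : ∀ x ∈ S, be b m x = -δ := by
    rcases hδ1 with hd | hd
    · have hnn : ∀ x ∈ S, 0 ≤ be b m x + δ := by
        intro x _
        have := bound x
        omega
      intro x hx
      have := (Finset.sum_eq_zero_iff_of_nonneg hnn).1 hsum x hx
      omega
    · have hsum' : ∑ x ∈ S, (-(be b m x + δ)) = 0 := by
        rw [Finset.sum_neg_distrib, hsum, neg_zero]
      have hnn : ∀ x ∈ S, 0 ≤ -(be b m x + δ) := by
        intro x _
        have := bound x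
        omega
      intro x hx
      have := (Finset.sum_eq_zero_iff_of_nonneg hnn).1 hsum' x hx
      omega
  have hne : ∀ x ∈ S, x ≠ 0 := by
    rintro x hx rfl
    have := hall 0 hx
    rw [be_top] at this
    omega
  -- gamma sum
  have hgs : ∑ x ∈ S, ga b m x = 0 := by
    rw [← Finset.sum_filter_add_sum_filter_not I (fun x => (2 : ℤ) ^ (k + 1) ∣ x)] at h2
    have z : ∑ x ∈ I.filter (fun x => ¬ (2 : ℤ) ^ (k + 1) ∣ x), ga b m x = 0 := by
      apply Finset.sum_eq_zero
      intro x hx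
      rw [Finset.mem_filter] at hx
      exact gL x hx.1 hx.2
    rw [z, add_zero] at h2
    exact h2
  have hex : ∃ x ∈ S, ga b m x = 0 := by
    by_contra hcon
    push Not at hcon
    have hpar : ∀ x ∈ S, ((ga b m x : ℤ) : ZMod 2) = 1 := by
      intro x hx
      obtain ⟨j, hj⟩ := v_fin (hne x hx)
      have hb := dl_bound b m (2 ^ j) (pos j)
      have hg := ga_eq b m x j hj
      have hc := hcon x hx
      have : ga b m x = 1 ∨ ga b m x = -1 := by omega
      rcases this with h | h <;> rw [h] <;> decide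
    have hz : ((∑ x ∈ S, ga b m x : ℤ) : ZMod 2) = 0 := by rw [hgs]; simp
    rw [Int.cast_sum, Finset.sum_congr rfl hpar, Finset.sum_const, nsmul_eq_mul, mul_one] at hz
    have hz2 : ((S.card : ℕ) : ZMod 2) = 0 := hz
    rw [ZMod.natCast_eq_zero_iff] at hz2
    omega
  obtain ⟨x, hxS, hx0⟩ := hex
  obtain ⟨j, hj⟩ := v_fin (hne x hxS)
  rw [ga_eq b m x j hj, neg_eq_zero] at hx0
  have hxd : (2 : ℤ) ^ (k + 1) ∣ x := (Finset.mem_filter.1 hxS).2
  have hxI : x ∈ I := (Finset.mem_filter.1 hxS).1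
  have hjk : k + 1 ≤ j := by
    rw [pow_dvd_iff, hj] at hxd
    exact_mod_cast hxd
  have hjk2 : k + 2 ≤ j := by
    rcases Nat.lt_or_ge (k + 1) j with h | h
    · omega
    · have : j = k + 1 := by omega
      rw [this] at hx0
      rw [← hδ] at hx0
      omega
  have hbx := hall x hxS
  rw [be_eq b m x j hj] at hbx
  -- any element of I of valuation exactly j-1 is impossible
  have hno : ∀ x' : ℤ, v x' = ((j - 1 : ℕ) : ℕ∞) → x' ∉ I := by
    intro x' hv' hx'
    have hx'S : x' ∈ S := by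
      rw [hS, Finset.mem_filter]
      refine ⟨hx', ?_⟩
      rw [pow_dvd_iff, hv']
      exact_mod_cast (by omega : k + 1 ≤ j - 1)
    have h3 := hall x' hx'S
    rw [be_eq b m x' (j - 1) hv'] at h3
    rw [show j - 1 + 1 = j by omega, hx0] at h3
    omega
  -- valuation of x ± 2^(j-1)
  have hxj : (2 : ℤ) ^ j ∣ x := by rw [pow_dvd_iff, hj]
  have hpj : (2 : ℤ) ^ j = 2 * 2 ^ (j - 1) := by
    conv_lhs => rw [show j = (j - 1) + 1 by omega]
    rw [pow_succ]; ring
  have hval : ∀ e : ℤ, (e = 1 ∨ e = -1) → v (x + e * 2 ^ (j - 1)) = ((j - 1 : ℕ) : ℕ∞) := by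
    intro e he
    apply le_antisymm
    · apply Order.le_of_lt_add_one
      have : ¬ ((2 : ℤ) ^ j ∣ x + e * 2 ^ (j - 1)) := by
        intro hd
        have hd2 : (2 : ℤ) ^ j ∣ e * 2 ^ (j - 1) := by
          have := dvd_sub hd hxj
          simpa using this
        rw [hpj] at hd2
        obtain ⟨c, hc⟩ := hd2
        have hp := pos (j - 1)
        have hc' : e * 2 ^ (j - 1) = (2 * c) * 2 ^ (j - 1) := by rw [hc]; ring
        have := mul_right_cancel₀ hp.ne' hc'
        omega
      rw [pow_dvd_iff, not_le] at this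
      have e1 : ((j - 1 : ℕ) : ℕ∞) + 1 = (j : ℕ∞) := by
        have : ((j - 1 : ℕ) : ℕ∞) + 1 = ((j - 1 + 1 : ℕ) : ℕ∞) := by push_cast; rfl
        rw [this, show j - 1 + 1 = j by omega]
      rw [e1]
      exact this
    · rw [← pow_dvd_iff]
      apply dvd_add
      · exact dvd_trans (pow_dvd_pow 2 (by omega)) hxj
      · exact Dvd.intro_left _ rfl
  have n1 := hno _ (hval 1 (Or.inl rfl))
  have n2 := hno _ (hval (-1) (Or.inr rfl))
  rw [hI, Finset.mem_Ico] at hxI n1 n2
  have hp := pos (j - 1)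
  have hlen : 2 * (m : ℤ) < 2 ^ j := by
    rw [hpj]
    push Not at n1 n2
    have h3 : a + 2 * (m : ℤ) ≤ x + 1 * 2 ^ (j - 1) := n1 (by omega)
    have h4 : x + -1 * 2 ^ (j - 1) < a := by
      by_contra hc
      push Not at hc
      have := n2 hc
      omega
    omega
  -- at most one multiple of 2^j in the two intervals
  have hc1 := card_mult (2 ^ j) (pos j) b (2 * m)
  have hc2 := card_mult (2 ^ j) (pos j) b m
  have hdis : (Finset.Ico b (b + ((2 * m : ℕ) : ℤ))).filter (fun y => (2 : ℤ) ^ j ∣ y)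
      = (Finset.Ico b (b + m)).filter (fun y => (2 : ℤ) ^ j ∣ y)
        ∪ (Finset.Ico (b + m) (b + 2 * m)).filter (fun y => (2 : ℤ) ^ j ∣ y) := by
    rw [← Finset.filter_union, Finset.Ico_union_Ico_eq_Ico (by omega) (by omega)]
    push_cast; rfl
  have hdisj : Disjoint ((Finset.Ico b (b + m)).filter (fun y => (2 : ℤ) ^ j ∣ y))
      ((Finset.Ico (b + m) (b + 2 * m)).filter (fun y => (2 : ℤ) ^ j ∣ y)) := by
    apply Finset.disjoint_filter_filter
    exact Finset.Ico_disjoint_Ico_consecutive _ _ _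
  have hcard := congrArg Finset.card hdis
  rw [Finset.card_union_of_disjoint hdisj] at hcard
  have hle1 : ((Finset.Ico b (b + ((2 * m : ℕ) : ℤ))).filter (fun y => (2 : ℤ) ^ j ∣ y)).card ≤ 1 := by
    rw [Finset.card_le_one]
    intro y hy z hz
    rw [Finset.mem_filter, Finset.mem_Ico] at hy hz
    obtain ⟨⟨y1, y2⟩, c, rfl⟩ := hy
    obtain ⟨⟨z1, z2⟩, d, rfl⟩ := hz
    push_cast at y2 z2
    have h5 : c = d := by
      by_contra hcd
      rcases lt_or_gt_of_ne hcd with h | h
      · have : (2 : ℤ) ^ j * (c + 1) ≤ 2 ^ j * d := by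
          apply mul_le_mul_of_nonneg_left _ (pos j).le
          omega
        rw [mul_add, mul_one] at this
        omega
      · have : (2 : ℤ) ^ j * (d + 1) ≤ 2 ^ j * c := by
          apply mul_le_mul_of_nonneg_left _ (pos j).le
          omega
        rw [mul_add, mul_one] at this
        omega
    rw [h5]
  have hx0' := hx0
  unfold dl at hx0'
  have z1 : ((Finset.Ico b (b + m)).filter (fun y => (2 : ℤ) ^ j ∣ y)).card = 0 := by omega
  have z2 : ((Finset.Ico (b + m) (b + 2 * m)).filter (fun y => (2 : ℤ) ^ j ∣ y)).card = 0 := by omega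
  have sub : ∀ (J : Finset ℤ), (J.filter (fun y => (2 : ℤ) ^ j ∣ y)).card = 0 →
      (J.filter (fun y => (2 : ℤ) ^ (j + 1) ∣ y)).card = 0 := by
    intro J hJ
    rw [Finset.card_eq_zero, Finset.filter_eq_empty_iff] at hJ ⊢
    intro y hy hd
    exact hJ hy (dvd_trans (pow_dvd_pow 2 (Nat.le_succ j)) hd)
  have w1 := sub _ z1
  have w2 := sub _ z2
  unfold dl at hbx
  rw [w1, w2] at hbx
  omega

end Pool.Agent.R164.Neck
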