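import Pool.Agent.R164.DS3

/-!
Curves from block sequences: the lines `r s` (tangent to the parabola `y = -x^2`) and, for each
symbol, the lower envelope of small parabolas touching from below the lines of its blocks.
-/

set_option autoImplicit false

namespace Pool.Agent.R164.Tang

open Finset

/-- the line `y = s^2 - 2 s x` -/
noncomputable def r (s : ℕ) (x : ℝ) : ℝ := s ^ 2 - 2 * s * x

/-- a parabola touching the line `r s` from below at the abscissa `z` -/
noncomputable def q (s : ℕ) (z x : ℝ) : ℝ := s ^ 2 - 2 * s * x - (1/8) * (x - z) ^ 2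

/-- minimum over a finite set (`0` if it is empty) -/
noncomputable def mn (N : Finset ℕ) (f : ℕ → ℝ) : ℝ := if h : N.Nonempty then N.inf' h f else 0

theorem mn_le {N : Finset ℕ} {f : ℕ → ℝ} {s : ℕ} (hs : s ∈ N) : mn N f ≤ f s := by
  have h : N.Nonempty := ⟨s, hs⟩
  rw [mn, dif_pos h]
  exact Finset.inf'_le _ hs

theorem exists_mn {N : Finset ℕ} (h : N.Nonempty) (f : ℕ → ℝ) : ∃ s ∈ N, mn N f = f s := by
  rw [mn, dif_pos h]
  exact Finset.exists_mem_eq_inf' h f

theorem continuous_mn (N : Finset ℕ) (f : ℕ → ℝ → ℝ) (hf : ∀ s, Continuous (f s)) :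
    Continuous fun x => mn N (fun s => f s x) := by
  by_cases h : N.Nonempty
  · simp only [mn, dif_pos h]
    exact Continuous.finset_inf'_apply h (fun s _ => hf s)
  · simp only [mn, dif_neg h]
    exact continuous_const

/-- the `s`-th block -/
def B (L : List (List ℕ)) (s : ℕ) : List ℕ := L.getD s []

/-- the blocks containing the symbol `a` -/
def N (L : List (List ℕ)) (a : ℕ) : Finset ℕ := (range L.length).filter (fun s => a ∈ B L s)

/-- the envelope attached to the symbol `a` -/
noncomputable def blue (L : List (List ℕ)) (z : ℕ → ℕ → ℝ) (a : ℕ) (x : ℝ) : ℝ :=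
  mn (N L a) (fun s => q s (z a s) x)

/-- all curves -/
noncomputable def cv (L : List (List ℕ)) (z : ℕ → ℕ → ℝ) : ℕ ⊕ ℕ → ℝ → ℝ
  | Sum.inl s => r s
  | Sum.inr a => blue L z a

/-- the admissible touching points -/
structure Adm (L : List (List ℕ)) (z : ℕ → ℕ → ℝ) : Prop where
  close : ∀ a s, |z a s - s| < 1/8
  order : ∀ a b s, (B L s).idxOf a < (B L s).idxOf b → z b s < z a s

variable {L : List (List ℕ)} {z : ℕ → ℕ → ℝ}

theorem continuous_r (s : ℕ) : Continuous (r s) := by unfold r; fun_prop
theorem continuous_q (s : ℕ) (z : ℝ) : Continuous (q s z) := by unfold q; fun_prop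
theorem continuous_blue (a : ℕ) : Continuous (blue L z a) :=
  continuous_mn _ _ fun s => continuous_q s _

theorem abs_sub_nat {s t : ℕ} (h : s ≠ t) : (1:ℝ) ≤ (s:ℝ) - t ∨ (s:ℝ) - t ≤ -1 := by
  rcases lt_or_gt_of_ne h with h | h
  · right
    have : (s:ℝ) + 1 ≤ t := by exact_mod_cast h
    linarith
  · left
    have : (t:ℝ) + 1 ≤ s := by exact_mod_cast h
    linarith

/-- at a touching point the other pieces are higher -/
theorem q_gt {s t : ℕ} (h : t ≠ s) {u v : ℝ} (hu : |u - s| < 1/8) (hv : |v - t| < 1/8) :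
    r s u < q t v u := by
  rw [abs_lt] at hu hv
  unfold r q
  have hDD := abs_sub_nat h
  generalize hD : (t:ℝ) - s = D at *
  generalize he : u - s = e at *
  generalize he' : v - t = e' at *
  have h1 : (t:ℝ) = s + D := by linarith
  have h2 : u = s + e := by linarith
  have h3 : v = s + D + e' := by linarith
  rw [h1, h2, h3]
  obtain ⟨a1, a2⟩ := hu
  obtain ⟨a3, a4⟩ := hv
  rcases hDD with hDD | hDD
  · nlinarith [sq_nonneg (e - e'), sq_nonneg D]
  · nlinarith [sq_nonneg (e - e'), sq_nonneg D]

/-- above a foreign line -/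
theorem q_gt' {s t : ℕ} (h : s ≠ t) {v : ℝ} (hv : |v - s| < 1/8) : r t t < q s v t := by
  rw [abs_lt] at hv
  unfold r q
  have hDD := abs_sub_nat h
  generalize hD : (s:ℝ) - t = D at *
  generalize he : v - s = e at *
  have h1 : (s:ℝ) = t + D := by linarith
  have h2 : v = t + D + e := by linarith
  rw [h1, h2]
  obtain ⟨a1, a2⟩ := hv
  rcases hDD with hDD | hDD
  · nlinarith
  · nlinarith

theorem mem_N {a s : ℕ} : s ∈ N L a ↔ s < L.length ∧ a ∈ B L s := by
  simp [N]

theorem blue_at (hz : Adm L z) {a s : ℕ} (hs : s ∈ N L a) :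
    blue L z a (z a s) = r s (z a s) := by
  apply le_antisymm
  · have := mn_le (f := fun t => q t (z a t) (z a s)) hs
    refine this.trans ?_
    simp [q, r]
  · obtain ⟨t, ht, h⟩ := exists_mn ⟨s, hs⟩ (fun t => q t (z a t) (z a s))
    rw [blue, h]
    by_cases hts : t = s
    · subst hts; simp [q, r]
    · exact (q_gt hts (hz.close a s) (hz.close a t)).le

theorem blue_lt {a s : ℕ} (hs : s ∈ N L a) {x : ℝ} (hx : x ≠ z a s) :
    blue L z a x < r s x := by
  have := mn_le (f := fun t => q t (z a t) x) hs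
  refine lt_of_le_of_lt this ?_
  have h2 : 0 < (x - z a s) ^ 2 := by
    have : x - z a s ≠ 0 := sub_ne_zero.2 hx
    positivity
  simp only [q, r]
  linarith

theorem blue_gt (hz : Adm L z) {a t : ℕ} (hN : (N L a).Nonempty) (ht : t ∉ N L a) :
    r t t < blue L z a t := by
  obtain ⟨s, hs, h⟩ := exists_mn hN (fun s => q s (z a s) t)
  rw [blue, h]
  have hst : s ≠ t := by rintro rfl; exact ht hs
  exact q_gt' hst (hz.close a s)

/-! ### counting zeros -/

theorem encard_le_of_strictMono (S : Set ℝ) (k : ℕ)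
    (h : ∀ f : Fin (k + 1) → ℝ, StrictMono f → (∀ i, f i ∈ S) → False) : S.encard ≤ k := by
  by_contra hc
  push Not at hc
  have h1 : ((k + 1 : ℕ) : ℕ∞) ≤ S.encard := by
    have := Order.add_one_le_of_lt hc
    exact_mod_cast this
  obtain ⟨T, hT, hTc⟩ := Set.exists_subset_encard_eq h1
  have hfin : T.Finite := Set.finite_of_encard_eq_coe hTc
  have hcard : hfin.toFinset.card = k + 1 := by
    have := hfin.encard_eq_coe_toFinset_card
    rw [hTc] at this
    exact_mod_cast this.symm
  refine h (hfin.toFinset.orderEmbOfFin hcard) (OrderEmbedding.strictMono _) fun i => ?_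
  apply hT
  have := Finset.orderEmbOfFin_mem hfin.toFinset hcard i
  rwa [Set.Finite.mem_toFinset] at this

theorem exists_eq_of_sign {f g : ℝ → ℝ} (hf : Continuous f) (hg : Continuous g) {x y : ℝ}
    (hx : f x ≤ g x) (hy : g y ≤ f y) : ∃ w, f w = g w := by
  have hc : Continuous fun x => f x - g x := hf.sub hg
  have h1 : (0:ℝ) ∈ Set.uIcc (f x - g x) (f y - g y) := by
    rw [Set.mem_uIcc]; left; constructor <;> linarith
  obtain ⟨w, _, hw⟩ := intermediate_value_uIcc (a := x) (b := y) hc.continuousOn h1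
  exact ⟨w, by simpa [sub_eq_zero] using hw⟩

/-! ### red and red -/

theorem red_red {s t : ℕ} (h : s ≠ t) : {x | r s x = r t x} = {((s:ℝ) + t) / 2} := by
  ext x
  simp only [Set.mem_ofPred_eq, Set.mem_singleton_iff, r]
  have : (s:ℝ) - t ≠ 0 := sub_ne_zero.2 (by exact_mod_cast h)
  constructor
  · intro h
    have h2 : ((s:ℝ) - t) * (s + t - 2 * x) = 0 := by linarith
    rcases mul_eq_zero.1 h2 with h3 | h3
    · exact absurd h3 this
    · linarith
  · intro h; rw [h]; ring

/-! ### red and blue -/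

theorem exists_neg (s t : ℕ) (v : ℝ) : ∃ x : ℝ, q s v x < r t x := by
  set K := (t:ℝ) ^ 2 - s ^ 2 - 2 * (t - s) * v with hK
  refine ⟨v + (16 * |(t:ℝ) - s| + 8 + |K|), ?_⟩
  set y := 16 * |(t:ℝ) - s| + 8 + |K| with hy
  have h1 : (t:ℝ) - s ≤ |(t:ℝ) - s| := le_abs_self _
  have h0 : 0 ≤ |(t:ℝ) - s| := abs_nonneg _
  have h2 : -|K| ≤ K := neg_abs_le K
  have h3 : 0 ≤ |K| := abs_nonneg K
  have hy0 : 0 < y := by rw [hy]; positivity
  have h4 : 0 ≤ y * (y - 16 * |(t:ℝ) - s| - 8) := mul_nonneg hy0.le (by rw [hy]; linarith)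
  have h5 : ((t:ℝ) - s) * y ≤ |(t:ℝ) - s| * y := mul_le_mul_of_nonneg_right h1 hy0.le
  have h6 : |K| < y := by rw [hy]; linarith
  unfold q r
  nlinarith

theorem red_blue_nonempty (hz : Adm L z) {a t : ℕ} (hN : (N L a).Nonempty) :
    {x | r t x = blue L z a x}.Nonempty := by
  by_cases ht : t ∈ N L a
  · exact ⟨z a t, (blue_at hz ht).symm⟩
  · obtain ⟨s, hs⟩ := hN
    obtain ⟨x, hx⟩ := exists_neg s t (z a s)
    have h1 : blue L z a x ≤ r t x := (mn_le (f := fun t => q t (z a t) x) hs).trans hx.le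
    obtain ⟨w, hw⟩ := exists_eq_of_sign (continuous_r t) (continuous_blue a)
      (blue_gt hz ⟨s, hs⟩ ht).le h1
    exact ⟨w, hw⟩

/-- strict concavity of the small parabolas with respect to lines -/
theorem q_concave {s t : ℕ} {v x y w : ℝ} (hxy : x < y) (hyw : y < w) (h1 : r t x ≤ q s v x)
    (h3 : r t w ≤ q s v w) : r t y < q s v y := by
  unfold r q at *
  have h4 : 0 < (y - x) * (w - y) * (w - x) := by
    have := sub_pos.2 hxy; have := sub_pos.2 hyw; have : 0 < w - x := by linarith
    positivity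
  have h5 : 0 ≤ (w - y) * ((s:ℝ) ^ 2 - 2 * s * x - (1/8) * (x - v) ^ 2 - (t ^ 2 - 2 * t * x)) :=
    mul_nonneg (by linarith) (by linarith)
  have h6 : 0 ≤ (y - x) * ((s:ℝ) ^ 2 - 2 * s * w - (1/8) * (w - v) ^ 2 - (t ^ 2 - 2 * t * w)) :=
    mul_nonneg (by linarith) (by linarith)
  have h7 : 0 < w - x := by linarith
  by_contra hc
  push Not at hc
  have h8 : (w - x) * ((s:ℝ) ^ 2 - 2 * s * y - (1/8) * (y - v) ^ 2 - (t ^ 2 - 2 * t * y)) ≤ 0 :=
    mul_nonpos_of_nonneg_of_nonpos h7.le (by linarith)
  nlinarith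

theorem red_blue_card {a t : ℕ} (hN : (N L a).Nonempty) :
    {x | r t x = blue L z a x}.encard ≤ (2 : ℕ) := by
  apply encard_le_of_strictMono
  intro f hf hm
  have h01 : f 0 < f 1 := hf (by decide)
  have h12 : f 1 < f 2 := hf (by decide)
  obtain ⟨s, hs, h⟩ := exists_mn hN (fun s => q s (z a s) (f 1))
  have e0 : r t (f 0) = blue L z a (f 0) := hm 0
  have e1 : r t (f 1) = blue L z a (f 1) := hm 1
  have e2 : r t (f 2) = blue L z a (f 2) := hm 2
  have i0 : r t (f 0) ≤ q s (z a s) (f 0) := by
    rw [e0]; exact mn_le (f := fun t => q t (z a t) (f 0)) hs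
  have i2 : r t (f 2) ≤ q s (z a s) (f 2) := by
    rw [e2]; exact mn_le (f := fun t => q t (z a t) (f 2)) hs
  have := q_concave h01 h12 i0 i2
  rw [e1, blue, h] at this
  exact lt_irrefl _ this

/-! ### blue and blue -/

/-- `(s, a)` comes before `(t, b)` -/
def Before (L : List (List ℕ)) (s a t b : ℕ) : Prop :=
  s < t ∨ (s = t ∧ (B L s).idxOf a < (B L s).idxOf b)

theorem before_total {s a t b : ℕ} (ha : a ∈ B L s) (_hb : b ∈ B L t) (hab : a ≠ b) :
    Before L s a t b ∨ Before L t b s a := by
  rcases lt_trichotomy s t with h | h | h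
  · exact Or.inl (Or.inl h)
  · subst h
    rcases lt_trichotomy ((B L s).idxOf a) ((B L s).idxOf b) with h | h | h
    · exact Or.inl (Or.inr ⟨rfl, h⟩)
    · exact absurd ((List.idxOf_inj ha).1 h) hab
    · exact Or.inr (Or.inr ⟨rfl, h⟩)
  · exact Or.inr (Or.inl h)

/-- an earlier piece has the larger slope -/
theorem slope (hz : Adm L z) {s a t b : ℕ} (h : Before L s a t b) :
    -2 * (t:ℝ) + z b t / 4 < -2 * (s:ℝ) + z a s / 4 := by
  rcases h with h | ⟨rfl, h⟩
  · have h1 := abs_lt.1 (hz.close a s)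
    have h2 := abs_lt.1 (hz.close b t)
    have h3 : (s:ℝ) + 1 ≤ t := by exact_mod_cast h
    linarith [h1.1, h2.2]
  · have := hz.order a b s h
    linarith

theorem owners (hz : Adm L z) {s a t b : ℕ} (ha : a ∈ B L s) (hb : b ∈ B L t) (hab : a ≠ b)
    {x y : ℝ} (hxy : x < y) (h1 : q s (z a s) x ≤ q t (z b t) x)
    (h2 : q t (z b t) y ≤ q s (z a s) y) : Before L s a t b := by
  rcases before_total ha hb hab with h | h
  · exact h
  · exfalso
    have := slope hz h
    unfold q at h1 h2
    nlinarith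

theorem idxOf_lt {s a : ℕ} (ha : a ∈ B L s) : (B L s).idxOf a < (B L s).length :=
  List.idxOf_lt_length_iff.2 ha

/-- position in the concatenation -/
def pos (L : List (List ℕ)) (s a : ℕ) : ℕ := (L.take s).flatten.length + (B L s).idxOf a

theorem pos_aux {s a : ℕ} (hs : s < L.length) (ha : a ∈ B L s) :
    ∃ h : pos L s a < L.flatten.length, L.flatten[pos L s a] = a := by
  have hB : B L s = L[s] := by simp [B, hs]
  have hfl : L.flatten = (L.take s).flatten ++ (B L s ++ (L.drop (s + 1)).flatten) := by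
    conv_lhs => rw [← List.take_append_drop s L, List.drop_eq_getElem_cons hs]
    rw [List.flatten_append, List.flatten_cons, hB]
  have h1 := idxOf_lt ha
  have hlt : pos L s a < L.flatten.length := by
    rw [hfl, List.length_append, List.length_append]; unfold pos; omega
  refine ⟨hlt, ?_⟩
  have h2 : L.flatten[pos L s a]? = some a := by
    rw [hfl, List.getElem?_append_right (by unfold pos; omega)]
    have : pos L s a - (L.take s).flatten.length = (B L s).idxOf a := by unfold pos; omega
    rw [this, List.getElem?_append_left h1]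
    rw [List.getElem?_eq_getElem h1, List.getElem_idxOf h1]
  rw [List.getElem?_eq_getElem hlt] at h2
  exact Option.some_injective _ h2

theorem pos_lt {s a t b : ℕ} (hs : s < L.length) (ha : a ∈ B L s) (h : Before L s a t b) :
    pos L s a < pos L t b := by
  rcases h with h | ⟨rfl, h⟩
  · have h1 := idxOf_lt ha
    have hB : B L s = L[s] := by simp [B, hs]
    have h2 : (L.take (s+1)).flatten.length = (L.take s).flatten.length + (B L s).length := by
      rw [List.take_succ_eq_append_getElem hs, List.flatten_append, List.length_append, hB]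
      simp
    have h3 : (L.take (s+1)).flatten.length ≤ (L.take t).flatten.length := by
      have : (L.take (s+1)) <+: (L.take t) := by
        rw [show s + 1 = min (s+1) t by omega, ← List.take_take]
        exact List.take_prefix _ _
      obtain ⟨R, hR⟩ := this
      rw [← hR, List.flatten_append, List.length_append]
      omega
    unfold pos
    omega
  · unfold pos; omega

theorem sublist_of_before {s1 s2 s3 s4 s5 a b : ℕ} (hs1 : s1 < L.length) (hs2 : s2 < L.length)
    (hs3 : s3 < L.length) (hs4 : s4 < L.length) (hs5 : s5 < L.length)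
    (h1 : a ∈ B L s1) (h2 : b ∈ B L s2) (h3 : a ∈ B L s3) (h4 : b ∈ B L s4) (h5 : a ∈ B L s5)
    (b1 : Before L s1 a s2 b) (b2 : Before L s2 b s3 a) (b3 : Before L s3 a s4 b)
    (b4 : Before L s4 b s5 a) : [a, b, a, b, a].Sublist L.flatten := by
  obtain ⟨p1, e1⟩ := pos_aux hs1 h1
  obtain ⟨p2, e2⟩ := pos_aux hs2 h2
  obtain ⟨p3, e3⟩ := pos_aux hs3 h3
  obtain ⟨p4, e4⟩ := pos_aux hs4 h4
  obtain ⟨p5, e5⟩ := pos_aux hs5 h5
  have l1 := pos_lt hs1 h1 b1
  have l2 := pos_lt hs2 h2 b2
  have l3 := pos_lt hs3 h3 b3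
  have l4 := pos_lt hs4 h4 b4
  have := List.map_getElem_sublist (l := L.flatten)
    (is := [⟨_, p1⟩, ⟨_, p2⟩, ⟨_, p3⟩, ⟨_, p4⟩, ⟨_, p5⟩]) (by
      simp only [List.pairwise_cons, List.mem_cons, List.not_mem_nil, or_false, forall_eq_or_imp,
        forall_eq, Fin.mk_lt_mk, List.Pairwise.nil, and_true]
      refine ⟨⟨l1, ?_, ?_, ?_⟩, ⟨l2, ?_, ?_⟩, ⟨l3, ?_⟩, l4, ?_⟩ <;> first | omega | simp)
  simpa [e1, e2, e3, e4, e5] using this

theorem blue_blue_card (hz : Adm L z) (hds : ∀ a b, a ≠ b → ¬ [a, b, a, b, a].Sublist L.flatten)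
    {a b : ℕ} (ha : (N L a).Nonempty) (hb : (N L b).Nonempty) (hab : a ≠ b) :
    {x | blue L z a x = blue L z b x}.encard ≤ (3 : ℕ) := by
  apply encard_le_of_strictMono
  intro f hf hm
  have key : ∀ i, ∃ s t, (s < L.length ∧ a ∈ B L s) ∧ (t < L.length ∧ b ∈ B L t) ∧
      blue L z a (f i) = q s (z a s) (f i) ∧ blue L z a (f i) = q t (z b t) (f i) := by
    intro i
    obtain ⟨s, hs, h1⟩ := exists_mn ha (fun s => q s (z a s) (f i))
    obtain ⟨t, ht, h2⟩ := exists_mn hb (fun s => q s (z b s) (f i))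
    refine ⟨s, t, mem_N.1 hs, mem_N.1 ht, h1, ?_⟩
    have : blue L z a (f i) = blue L z b (f i) := hm i
    rw [this]; exact h2
  have hal : ∀ i s, s < L.length → a ∈ B L s → blue L z a (f i) ≤ q s (z a s) (f i) :=
    fun i s h1 h2 => mn_le (f := fun s => q s (z a s) (f i)) (mem_N.2 ⟨h1, h2⟩)
  have hbl : ∀ i s, s < L.length → b ∈ B L s → blue L z a (f i) ≤ q s (z b s) (f i) := by
    intro i s h1 h2
    have : blue L z a (f i) = blue L z b (f i) := hm i
    rw [this]
    exact mn_le (f := fun s => q s (z b s) (f i)) (mem_N.2 ⟨h1, h2⟩)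
  choose S T hS hT hSe hTe using key
  -- before relations between different indices
  have bab : ∀ i j, i < j → Before L (S i) a (T j) b := by
    intro i j hij
    refine owners hz (hS i).2 (hT j).2 hab (hf hij) ?_ ?_
    · rw [← hSe i]; exact hbl i _ (hT j).1 (hT j).2
    · rw [← hTe j]; exact hal j _ (hS i).1 (hS i).2
  have bba : ∀ i j, i < j → Before L (T i) b (S j) a := by
    intro i j hij
    refine owners hz (hT i).2 (hS j).2 hab.symm (hf hij) ?_ ?_
    · rw [← hTe i]; exact hal i _ (hS j).1 (hS j).2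
    · rw [← hSe j]; exact hbl j _ (hT i).1 (hT i).2
  rcases before_total (hS 0).2 (hT 0).2 hab with h | h
  · exact hds a b hab (sublist_of_before (hS 0).1 (hT 0).1 (hS 1).1 (hT 2).1 (hS 3).1
      (hS 0).2 (hT 0).2 (hS 1).2 (hT 2).2 (hS 3).2 h (bba 0 1 (by decide)) (bab 1 2 (by decide))
      (bba 2 3 (by decide)))
  · exact hds b a hab.symm (sublist_of_before (hT 0).1 (hS 0).1 (hT 1).1 (hS 2).1 (hT 3).1
      (hT 0).2 (hS 0).2 (hT 1).2 (hS 2).2 (hT 3).2 h (bab 0 1 (by decide)) (bba 1 2 (by decide))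
      (bab 2 3 (by decide)))

theorem z_ne (hz : Adm L z) {a b s : ℕ} (ha : s ∈ N L a) (hab : a ≠ b) : z a s ≠ z b s := by
  intro h
  rcases lt_trichotomy ((B L s).idxOf a) ((B L s).idxOf b) with h1 | h1 | h1
  · exact absurd (hz.order a b s h1) (by rw [h]; exact lt_irrefl _)
  · exact absurd ((List.idxOf_inj (mem_N.1 ha).2).1 h1) hab
  · exact absurd (hz.order b a s h1) (by rw [h]; exact lt_irrefl _)

theorem blue_blue_lt (hz : Adm L z) {a b : ℕ} (ha : (N L a).Nonempty) (hb : (N L b).Nonempty)
    (hab : a ≠ b) : ∃ x, blue L z b x ≤ blue L z a x := by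
  by_cases h : ∃ s, s ∈ N L a ∧ s ∈ N L b
  · obtain ⟨s, h1, h2⟩ := h
    refine ⟨z a s, ?_⟩
    rw [blue_at hz h1]
    exact (blue_lt h2 (z_ne hz h1 hab)).le
  · obtain ⟨s, hs⟩ := hb
    have hsa : s ∉ N L a := fun h' => h ⟨s, h', hs⟩
    refine ⟨s, ?_⟩
    have h1 := blue_gt hz ha hsa
    have h2 : blue L z b s ≤ r s s := by
      by_cases h3 : (s:ℝ) = z b s
      · rw [h3, blue_at hz hs]
      · exact (blue_lt hs h3).le
    linarith

theorem blue_blue_nonempty (hz : Adm L z) {a b : ℕ} (ha : (N L a).Nonempty)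
    (hb : (N L b).Nonempty) (hab : a ≠ b) :
    {x | blue L z a x = blue L z b x}.Nonempty := by
  obtain ⟨x, hx⟩ := blue_blue_lt hz ha hb hab
  obtain ⟨y, hy⟩ := blue_blue_lt hz hb ha hab.symm
  exact exists_eq_of_sign (continuous_blue a) (continuous_blue b) hy hx

/-! ### the whole family -/

/-- the indices of the curves: the blocks, and the symbols in `A` -/
def Idx (L : List (List ℕ)) (A : Finset ℕ) : Finset (ℕ ⊕ ℕ) := (range L.length).disjSum A

theorem continuous_cv (i : ℕ ⊕ ℕ) : Continuous (cv L z i) := by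
  rcases i with s | a
  · exact continuous_r s
  · exact continuous_blue a

theorem pair_props (hz : Adm L z) (hds : ∀ a b, a ≠ b → ¬ [a, b, a, b, a].Sublist L.flatten)
    {A : Finset ℕ} (hA : ∀ a ∈ A, (N L a).Nonempty) {i j : ℕ ⊕ ℕ} (hi : i ∈ Idx L A)
    (hj : j ∈ Idx L A) (hij : i ≠ j) :
    {x | cv L z i x = cv L z j x}.Nonempty ∧ {x | cv L z i x = cv L z j x}.encard ≤ (3 : ℕ) := by
  have h23 : ((2 : ℕ) : ℕ∞) ≤ ((3 : ℕ) : ℕ∞) := by exact_mod_cast (by norm_num : 2 ≤ 3)
  rcases i with s | a <;> rcases j with t | b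
  · have hst : s ≠ t := fun h => hij (by rw [h])
    have : {x | cv L z (Sum.inl s) x = cv L z (Sum.inl t) x} = {((s:ℝ) + t) / 2} := red_red hst
    rw [this]
    refine ⟨Set.singleton_nonempty _, ?_⟩
    rw [Set.encard_singleton]
    exact_mod_cast (by norm_num : 1 ≤ 3)
  · have hb : (N L b).Nonempty := hA b (by simpa [Idx] using hj)
    exact ⟨red_blue_nonempty hz hb, (red_blue_card hb).trans h23⟩
  · have ha : (N L a).Nonempty := hA a (by simpa [Idx] using hi)
    have e : {x | cv L z (Sum.inr a) x = cv L z (Sum.inl t) x} =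
        {x | r t x = blue L z a x} := by ext x; exact eq_comm
    rw [e]
    exact ⟨red_blue_nonempty hz ha, (red_blue_card ha).trans h23⟩
  · have ha : (N L a).Nonempty := hA a (by simpa [Idx] using hi)
    have hb : (N L b).Nonempty := hA b (by simpa [Idx] using hj)
    have hab : a ≠ b := fun h => hij (by rw [h])
    exact ⟨blue_blue_nonempty hz ha hb hab, blue_blue_card hz hds ha hb hab⟩

/-- the width of the intervals -/
noncomputable def wd (L : List (List ℕ)) : ℝ := 1 / (8 * ((L.map List.length).sum + 1))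

theorem wd_pos : 0 < wd L := by unfold wd; positivity

/-- the interval of the touching point -/
def J (L : List (List ℕ)) (a s : ℕ) : Set ℝ :=
  Set.Ioo ((s:ℝ) - wd L * ((B L s).idxOf a + 1)) ((s:ℝ) - wd L * (B L s).idxOf a)

theorem length_B_le (s : ℕ) : (B L s).length ≤ (L.map List.length).sum := by
  unfold B
  by_cases hs : s < L.length
  · rw [List.getD_eq_getElem _ _ hs]
    exact List.single_le_sum (by simp) _ (List.mem_map_of_mem (List.getElem_mem hs))
  · rw [List.getD_eq_default _ _ (by omega)]; simp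

theorem adm_of_J (h : ∀ a s, z a s ∈ J L a s) : Adm L z where
  close := by
    intro a s
    obtain ⟨h1, h2⟩ := h a s
    have hw := wd_pos (L := L)
    have h3 : (B L s).idxOf a ≤ (L.map List.length).sum :=
      (List.idxOf_le_length).trans (length_B_le s)
    have h4 : ((B L s).idxOf a : ℝ) + 1 ≤ (L.map List.length).sum + 1 := by
      exact_mod_cast Nat.succ_le_succ h3
    have h5 : wd L * ((B L s).idxOf a + 1) ≤ 1/8 := by
      calc wd L * ((B L s).idxOf a + 1) ≤ wd L * ((L.map List.length).sum + 1) := by gcongr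
        _ = 1/8 := by
          unfold wd
          have : ((L.map List.length).sum : ℝ) + 1 ≠ 0 := by positivity
          field_simp
    have h6 : 0 ≤ wd L * (B L s).idxOf a := by positivity
    rw [abs_lt]
    constructor <;> linarith
  order := by
    intro a b s hab
    obtain ⟨h1, _⟩ := h a s
    obtain ⟨_, h2⟩ := h b s
    have h3 : ((B L s).idxOf a : ℝ) + 1 ≤ (B L s).idxOf b := by exact_mod_cast hab
    have h4 : wd L * ((B L s).idxOf a + 1) ≤ wd L * (B L s).idxOf b := by
      have := wd_pos (L := L)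
      gcongr
    linarith

theorem J_infinite (a s : ℕ) : (J L a s).Infinite := by
  apply Set.Ioo_infinite
  have := wd_pos (L := L)
  nlinarith

theorem quad_finite (s : ℕ) (x y : ℝ) : {v | q s v x = y}.Finite := by
  set K := (s:ℝ) ^ 2 - 2 * s * x - y with hK
  apply (Set.toFinite {x - √(8 * K), x + √(8 * K)}).subset
  intro v hv
  have hv' : (x - v) ^ 2 = 8 * K := by
    have : q s v x = y := hv
    unfold q at this
    linarith
  have h1 : √(8 * K) = |x - v| := by rw [← hv', Real.sqrt_sq_eq_abs]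
  rw [h1]
  rcases abs_cases (x - v) with ⟨h, _⟩ | ⟨h, _⟩
  · left; rw [h]; ring
  · right; rw [h, Set.mem_singleton_iff]; ring

theorem cv_update {a : ℕ} {v : ℕ → ℝ} {i : ℕ ⊕ ℕ} (hi : i ≠ Sum.inr a) :
    cv L (Function.update z a v) i = cv L z i := by
  rcases i with s | b
  · rfl
  · have hb : b ≠ a := fun h => hi (by rw [h])
    funext x
    simp only [cv, blue, Function.update_of_ne hb]

/-- generic touching points: no three curves through a point -/
theorem exists_generic (hds : ∀ a b, a ≠ b → ¬ [a, b, a, b, a].Sublist L.flatten)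
    (A : Finset ℕ) (hA : ∀ a ∈ A, (N L a).Nonempty) :
    ∃ z : ℕ → ℕ → ℝ, (∀ a s, z a s ∈ J L a s) ∧
      ∀ i ∈ Idx L A, ∀ j ∈ Idx L A, ∀ k ∈ Idx L A, i ≠ j → i ≠ k → j ≠ k →
        ∀ x, cv L z i x = cv L z j x → cv L z i x ≠ cv L z k x := by
  induction A using Finset.induction_on with
  | empty =>
    have hJ : ∀ a s, ∃ x, x ∈ J L a s := fun a s => (J_infinite a s).nonempty
    choose z hz using hJ
    refine ⟨z, hz, ?_⟩
    intro i hi j hj k hk hij hik hjk x h1 h2
    rcases i with s | a
    · rcases j with t | b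
      · rcases k with u | c
        · have hst : s ≠ t := fun h => hij (by rw [h])
          have hsu : s ≠ u := fun h => hik (by rw [h])
          have e1 : x ∈ {x | r s x = r t x} := h1
          have e2 : x ∈ {x | r s x = r u x} := h2
          rw [red_red hst] at e1
          rw [red_red hsu] at e2
          apply hjk
          have e3 : x = ((s:ℝ) + t) / 2 := e1
          have e4 : x = ((s:ℝ) + u) / 2 := e2
          have : (t:ℝ) = u := by linarith
          rw [Nat.cast_injective this]
        · simp [Idx] at hk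
      · simp [Idx] at hj
    · simp [Idx] at hi
  | insert a A ha ih =>
    obtain ⟨z, hzJ, hz3⟩ := ih (fun b hb => hA b (Finset.mem_insert_of_mem hb))
    have hz := adm_of_J hzJ
    -- abscissas of the double points
    set X : Set ℝ := ⋃ i ∈ Idx L A, ⋃ j ∈ Idx L A, {x | i ≠ j ∧ cv L z i x = cv L z j x} with hX
    have hXf : X.Finite := by
      refine Set.Finite.biUnion (Finset.finite_toSet _) fun i hi => ?_
      refine Set.Finite.biUnion (Finset.finite_toSet _) fun j hj => ?_
      by_cases hij : i = j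
      · simp [hij]
      · have := (pair_props hz hds (fun b hb => hA b (Finset.mem_insert_of_mem hb)) hi hj hij).2
        have h2 : {x | cv L z i x = cv L z j x}.Finite := Set.finite_of_encard_le_coe this
        exact h2.subset fun x hx => hx.2
    -- bad parameters
    have hbad : ∀ s : ℕ, (⋃ x ∈ X, ⋃ i ∈ Idx L A, {v | q s v x = cv L z i x}).Finite := by
      intro s
      refine Set.Finite.biUnion hXf fun x _ => ?_
      refine Set.Finite.biUnion (Finset.finite_toSet _) fun i _ => ?_
      exact quad_finite s x _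
    have hch : ∀ s : ℕ, ∃ v, v ∈ J L a s ∧ v ∉ ⋃ x ∈ X, ⋃ i ∈ Idx L A,
        {v | q s v x = cv L z i x} := by
      intro s
      obtain ⟨v, hv⟩ := ((J_infinite (L := L) a s).sdiff (hbad s)).nonempty
      exact ⟨v, hv.1, hv.2⟩
    choose v hvJ hvb using hch
    refine ⟨Function.update z a v, ?_, ?_⟩
    · intro b s
      by_cases hb : b = a
      · subst hb; rw [Function.update_self]; exact hvJ s
      · rw [Function.update_of_ne hb]; exact hzJ b s
    · -- the new curve avoids the double points
      have hnew : ∀ i ∈ Idx L A, ∀ j ∈ Idx L A, i ≠ j → ∀ x, cv L z i x = cv L z j x →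
          cv L (Function.update z a v) (Sum.inr a) x ≠ cv L z i x := by
        intro i hi j hj hij x hx h
        have hxX : x ∈ X := by
          rw [hX]
          simp only [Set.mem_iUnion]
          exact ⟨i, hi, j, hj, hij, hx⟩
        obtain ⟨s, _, hs⟩ := exists_mn (hA a (Finset.mem_insert_self _ _))
          (fun s => q s ((Function.update z a v) a s) x)
        rw [cv, blue, hs, Function.update_self] at h
        apply hvb s
        simp only [Set.mem_iUnion]
        exact ⟨x, hxX, i, hi, h⟩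
      have hsplit : ∀ i ∈ Idx L (insert a A), i ≠ Sum.inr a → i ∈ Idx L A := by
        intro i hi h
        rcases i with s | b
        · simpa [Idx] using hi
        · have hb : b ≠ a := fun h' => h (by rw [h'])
          simpa [Idx, hb] using hi
      intro i hi j hj k hk hij hik hjk x h1 h2
      by_cases hia : i = Sum.inr a
      · subst hia
        have hj' := hsplit j hj hij.symm
        have hk' := hsplit k hk hik.symm
        rw [cv_update hij.symm] at h1
        rw [cv_update hik.symm] at h2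
        exact hnew j hj' k hk' hjk x (h1.symm.trans h2) h1
      · have hi' := hsplit i hi hia
        rw [cv_update hia] at h1 h2
        by_cases hja : j = Sum.inr a
        · subst hja
          have hk' := hsplit k hk hjk.symm
          rw [cv_update hjk.symm] at h2
          exact hnew i hi' k hk' hik x h2 h1.symm
        · have hj' := hsplit j hj hja
          rw [cv_update hja] at h1
          by_cases hka : k = Sum.inr a
          · subst hka
            exact hnew i hi' j hj' hij x h1 h2.symm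
          · have hk' := hsplit k hk hka
            rw [cv_update hka] at h2
            exact hz3 i hi' j hj' k hk' hij hik hjk x h1 h2

end Pool.Agent.R164.Tang
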