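import Mathlib

/-!
Counting solutions of `u / i + v / j = 1` in integers `1 ≤ i, j ≤ d` (for Wang–Shi splits).
-/

set_option autoImplicit false

namespace Pool.Agent.R164.WS

/-- the solutions of `u / i + v / j = 1` with `1 ≤ i, j ≤ m` -/
noncomputable def S (m : ℕ) (u v : ℝ) : Finset (ℕ × ℕ) :=
  ((Finset.Icc 1 m) ×ˢ (Finset.Icc 1 m)).filter (fun p => u / p.1 + v / p.2 = 1)

theorem mem_S {m : ℕ} {u v : ℝ} {p : ℕ × ℕ} : p ∈ S m u v ↔
    (1 ≤ p.1 ∧ p.1 ≤ m) ∧ (1 ≤ p.2 ∧ p.2 ≤ m) ∧ u / p.1 + v / p.2 = 1 := by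
  simp [S, and_assoc]

/-- a finite set of integers with no two elements at distance `1` and at most one pair at distance
`2` has span at least `3 N - 4` -/
theorem span_bound (H : Finset ℤ) (a b h0 : ℤ) (hab : ∀ h ∈ H, a ≤ h ∧ h ≤ b) (hne : H.Nonempty)
    (h1 : ∀ h ∈ H, h + 1 ∉ H) (h2 : ∀ h ∈ H, h + 2 ∈ H → h = h0) :
    3 * (H.card : ℤ) ≤ b - a + 4 := by
  have key : H.card ≤ (Finset.Icc 0 ((b - a + 1) / 3)).card := by
    refine Finset.card_le_card_of_injOn (fun h => if h ≤ h0 then (h - a) / 3 else (h + 1 - a) / 3)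
      ?_ ?_
    · intro h hh
      obtain ⟨h3, h4⟩ := hab h hh
      simp only [Finset.coe_Icc, Set.mem_Icc]
      split_ifs <;> constructor <;> omega
    · intro x hx y hy hxy
      by_contra hne'
      simp only at hxy
      have hx1 := hab x hx
      have hy1 := hab y hy
      have e1 : y ≠ x + 1 := fun h => h1 x hx (h ▸ hy)
      have e2 : x ≠ y + 1 := fun h => h1 y hy (h ▸ hx)
      have e3 : y = x + 2 → x = h0 := fun h => h2 x hx (h ▸ hy)
      have e4 : x = y + 2 → y = h0 := fun h => h2 y hy (h ▸ hx)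
      split_ifs at hxy <;> omega
  rw [Int.card_Icc] at key
  obtain ⟨h, hh⟩ := hne
  have := hab h hh
  omega

variable {d : ℕ} {u v w : ℝ}

theorem sol_mono {p q : ℕ × ℕ} (hu : 0 < u) (hv : 0 < v) (hp : 1 ≤ p.1 ∧ 1 ≤ p.2)
    (_hq : 1 ≤ q.1 ∧ 1 ≤ q.2) (ep : u / p.1 + v / p.2 = 1) (eq : u / q.1 + v / q.2 = 1)
    (h : p.1 < q.1) : q.2 < p.2 := by
  by_contra hc
  push Not at hc
  have h1 : (0:ℝ) < p.1 := by exact_mod_cast hp.1
  have h2 : (0:ℝ) < p.2 := by exact_mod_cast hp.2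
  have h3 : (p.1:ℝ) < q.1 := by exact_mod_cast h
  have h4 : (p.2:ℝ) ≤ q.2 := by exact_mod_cast hc
  have h5 : u / q.1 < u / p.1 := div_lt_div_of_pos_left hu h1 h3
  have h6 : v / q.2 ≤ v / p.2 := div_le_div_of_nonneg_left hv.le h2 h4
  linarith

/-- the value of `j - i` at a unit diagonal step -/
theorem step {i j : ℝ} (hi : 0 < i) (hj : 1 < j) (e1 : u / i + v / j = 1)
    (e2 : u / (i + 1) + v / (j - 1) = 1) : i - j = u - v - 1 := by
  have h1 : (j - 1) ≠ 0 := by linarith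
  have h2 : (i + 1) ≠ 0 := by linarith
  have h3 : j ≠ 0 := by linarith
  have h4 : i ≠ 0 := by linarith
  field_simp at e1 e2
  linarith

open Classical in
/-- the bound for one pair of sides -/
theorem pair_bound (hu : 0 < u) (hv : 0 < v) (hw : 0 < w) (hd : u + v + w = d)
    (b1 b2 : ℕ) (hb1 : b1 = if ∃ j, (d, j) ∈ S d u v then 1 else 0)
    (hb2 : b2 = if ∃ i, (i, d) ∈ S d u v then 1 else 0) :
    3 * ((S (d - 1) u v).card : ℝ) + 2 * (b1 + b2) ≤ 2 + d * w / (u + w) + d * w / (v + w) ∧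
    (b1 = 0 → b2 = 0 →
      3 * ((S (d - 1) u v).card : ℝ) < 2 + d * w / (u + w) + d * w / (v + w)) := by
  have hd0 : (0:ℝ) < d := by rw [← hd]; positivity
  have hdn : 0 < d := by exact_mod_cast hd0
  have hF1 : 0 < d * w / (u + w) := by positivity
  have hF2 : 0 < d * w / (v + w) := by positivity
  -- lower bounds for the coordinates
  have lowi : ∀ p ∈ S d u v, d - d * w / (u + w) ≤ (p.1 : ℝ) ∧
      (p.2 < d → d - d * w / (u + w) < (p.1 : ℝ)) := by
    intro p hp
    obtain ⟨⟨h1, h2⟩, ⟨h3, h4⟩, h5⟩ := mem_S.1 hp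
    have hi : (0:ℝ) < p.1 := by exact_mod_cast h1
    have hj : (0:ℝ) < p.2 := by exact_mod_cast h3
    have hjd : (p.2:ℝ) ≤ d := by exact_mod_cast h4
    have e : (d:ℝ) - d * w / (u + w) = d * u / (u + w) := by field_simp; ring
    rw [e]
    have h6 : v / d ≤ v / p.2 := div_le_div_of_nonneg_left hv.le hj hjd
    have h7 : u / p.1 ≤ (u + w) / d := by
      have : (u + w) / d = 1 - v / d := by field_simp; linarith
      linarith
    constructor
    · rw [div_le_iff₀ (by positivity)]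
      rw [div_le_div_iff₀ hi hd0] at h7
      linarith
    · intro hlt
      have hlt' : (p.2:ℝ) < d := by exact_mod_cast hlt
      have h6 : v / d < v / p.2 := div_lt_div_of_pos_left hv hj hlt'
      have h7 : u / p.1 < (u + w) / d := by
        have : (u + w) / d = 1 - v / d := by field_simp; linarith
        linarith
      rw [div_lt_iff₀ (by positivity)]
      rw [div_lt_div_iff₀ hi hd0] at h7
      linarith
  have lowj : ∀ p ∈ S d u v, d - d * w / (v + w) ≤ (p.2 : ℝ) := by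
    intro p hp
    obtain ⟨⟨h1, h2⟩, ⟨h3, h4⟩, h5⟩ := mem_S.1 hp
    have hi : (0:ℝ) < p.1 := by exact_mod_cast h1
    have hj : (0:ℝ) < p.2 := by exact_mod_cast h3
    have hid : (p.1:ℝ) ≤ d := by exact_mod_cast h2
    have e : (d:ℝ) - d * w / (v + w) = d * v / (v + w) := by field_simp; ring
    rw [e]
    have h6 : u / d ≤ u / p.1 := div_le_div_of_nonneg_left hu.le hi hid
    have h7 : v / p.2 ≤ (v + w) / d := by
      have : (v + w) / d = 1 - u / d := by field_simp; linarith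
      linarith
    rw [div_le_iff₀ (by positivity)]
    rw [div_le_div_iff₀ hj hd0] at h7
    linarith
  -- upper bounds
  have upi : ∀ p ∈ S d u v, (p.1 : ℝ) ≤ d - 1 + b1 := by
    intro p hp
    obtain ⟨⟨h1, h2⟩, ⟨h3, h4⟩, h5⟩ := mem_S.1 hp
    rcases Nat.lt_or_ge p.1 d with h | h
    · have : (p.1:ℝ) + 1 ≤ d := by exact_mod_cast h
      have : (0:ℝ) ≤ b1 := Nat.cast_nonneg _
      linarith
    · have hpd : p.1 = d := le_antisymm h2 h
      have : b1 = 1 := by
        rw [hb1, if_pos]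
        exact ⟨p.2, by
          have : ((d, p.2) : ℕ × ℕ) = p := Prod.ext hpd.symm rfl
          rw [this]; exact hp⟩
      rw [this, hpd]; push_cast; linarith
  have upj : ∀ p ∈ S d u v, (p.2 : ℝ) ≤ d - 1 + b2 := by
    intro p hp
    obtain ⟨⟨h1, h2⟩, ⟨h3, h4⟩, h5⟩ := mem_S.1 hp
    rcases Nat.lt_or_ge p.2 d with h | h
    · have : (p.2:ℝ) + 1 ≤ d := by exact_mod_cast h
      have : (0:ℝ) ≤ b2 := Nat.cast_nonneg _
      linarith
    · have hpd : p.2 = d := le_antisymm h4 h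
      have : b2 = 1 := by
        rw [hb2, if_pos]
        exact ⟨p.1, by
          have : ((p.1, d) : ℕ × ℕ) = p := Prod.ext rfl hpd.symm
          rw [this]; exact hp⟩
      rw [this, hpd]; push_cast; linarith
  -- cardinalities
  have hcard : (S (d - 1) u v).card + b1 + b2 ≤ (S d u v).card := by
    have hsub : S (d - 1) u v ⊆ S d u v := by
      intro p hp
      obtain ⟨⟨h1, h2⟩, ⟨h3, h4⟩, h5⟩ := mem_S.1 hp
      exact mem_S.2 ⟨⟨h1, by omega⟩, ⟨h3, by omega⟩, h5⟩
    have hnd : ∀ j, (d, j) ∈ S d u v → j ≠ d := by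
      rintro j hj rfl
      obtain ⟨_, _, h5⟩ := mem_S.1 hj
      simp only at h5
      rw [← add_div, div_eq_one_iff_eq hd0.ne'] at h5
      linarith
    by_cases c1 : ∃ j, (d, j) ∈ S d u v <;> by_cases c2 : ∃ i, (i, d) ∈ S d u v
    · rw [if_pos c1] at hb1
      rw [if_pos c2] at hb2
      obtain ⟨j, hj⟩ := c1
      obtain ⟨i, hi⟩ := c2
      have e1 : (d, j) ∉ S (d - 1) u v := fun h => by
        have := (mem_S.1 h).1.2; simp only at this; omega
      have e2 : (i, d) ∉ insert (d, j) (S (d - 1) u v) := by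
        rw [Finset.mem_insert, not_or]
        refine ⟨fun h => hnd j hj (by injection h with _ h; exact h.symm), fun h => ?_⟩
        have := (mem_S.1 h).2.1.2; simp only at this; omega
      have h3 : insert (i, d) (insert (d, j) (S (d - 1) u v)) ⊆ S d u v := by
        intro p hp
        rcases Finset.mem_insert.1 hp with rfl | hp
        · exact hi
        · rcases Finset.mem_insert.1 hp with rfl | hp
          · exact hj
          · exact hsub hp
      have := Finset.card_le_card h3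
      rw [Finset.card_insert_of_notMem e2, Finset.card_insert_of_notMem e1] at this
      omega
    · rw [if_pos c1] at hb1
      rw [if_neg c2] at hb2
      obtain ⟨j, hj⟩ := c1
      have e1 : (d, j) ∉ S (d - 1) u v := fun h => by
        have := (mem_S.1 h).1.2; simp only at this; omega
      have h3 : insert (d, j) (S (d - 1) u v) ⊆ S d u v := by
        intro p hp
        rcases Finset.mem_insert.1 hp with rfl | hp
        · exact hj
        · exact hsub hp
      have := Finset.card_le_card h3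
      rw [Finset.card_insert_of_notMem e1] at this
      omega
    · rw [if_neg c1] at hb1
      rw [if_pos c2] at hb2
      obtain ⟨i, hi⟩ := c2
      have e2 : (i, d) ∉ S (d - 1) u v := fun h => by
        have := (mem_S.1 h).2.1.2; simp only at this; omega
      have h3 : insert (i, d) (S (d - 1) u v) ⊆ S d u v := by
        intro p hp
        rcases Finset.mem_insert.1 hp with rfl | hp
        · exact hi
        · exact hsub hp
      have := Finset.card_le_card h3
      rw [Finset.card_insert_of_notMem e2] at this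
      omega
    · rw [if_neg c1] at hb1
      rw [if_neg c2] at hb2
      have := Finset.card_le_card hsub
      omega
  have hcardR : ((S (d - 1) u v).card : ℝ) + b1 + b2 ≤ (S d u v).card := by exact_mod_cast hcard
  rcases (S d u v).eq_empty_or_nonempty with hE | hne
  · rw [hE, Finset.card_empty] at hcardR
    have h1 : (0:ℝ) ≤ b1 := Nat.cast_nonneg _
    have h2 : (0:ℝ) ≤ b2 := Nat.cast_nonneg _
    have h3 : (0:ℝ) ≤ (S (d - 1) u v).card := Nat.cast_nonneg _
    push_cast at hcardR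
    refine ⟨by linarith, fun _ _ => by linarith⟩
  -- the differences
  set H : Finset ℤ := (S d u v).image (fun p => (p.1 : ℤ) - p.2) with hH
  have hinj : Set.InjOn (fun p : ℕ × ℕ => (p.1 : ℤ) - p.2) (S d u v : Set (ℕ × ℕ)) := by
    intro p hp q hq h
    obtain ⟨⟨h1, h2⟩, ⟨h3, h4⟩, h5⟩ := mem_S.1 hp
    obtain ⟨⟨k1, k2⟩, ⟨k3, k4⟩, k5⟩ := mem_S.1 hq
    simp only at h
    rcases lt_trichotomy p.1 q.1 with hlt | heq | hgt
    · have := sol_mono hu hv ⟨h1, h3⟩ ⟨k1, k3⟩ h5 k5 hlt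
      omega
    · apply Prod.ext heq; omega
    · have := sol_mono hu hv ⟨k1, k3⟩ ⟨h1, h3⟩ k5 h5 hgt
      omega
  have hHc : H.card = (S d u v).card := Finset.card_image_of_injOn hinj
  have hHne : H.Nonempty := hne.image _
  have g1 : ∀ h ∈ H, h + 1 ∉ H := by
    intro h hh hh'
    obtain ⟨p, hp, rfl⟩ := Finset.mem_image.1 hh
    obtain ⟨q, hq, hpq⟩ := Finset.mem_image.1 hh'
    obtain ⟨⟨h1, h2⟩, ⟨h3, h4⟩, h5⟩ := mem_S.1 hp
    obtain ⟨⟨k1, k2⟩, ⟨k3, k4⟩, k5⟩ := mem_S.1 hq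
    rcases lt_trichotomy p.1 q.1 with hlt | heq | hgt
    · have := sol_mono hu hv ⟨h1, h3⟩ ⟨k1, k3⟩ h5 k5 hlt
      omega
    · rw [heq] at h5
      have h3' : (0:ℝ) < p.2 := by exact_mod_cast h3
      have k3' : (0:ℝ) < q.2 := by exact_mod_cast k3
      have h6 : v / p.2 = v / q.2 := by linarith
      have h7 : (p.2:ℝ) = q.2 := by
        rw [div_eq_div_iff h3'.ne' k3'.ne'] at h6
        exact (mul_left_cancel₀ hv.ne' h6).symm
      have h8 : p.2 = q.2 := by exact_mod_cast h7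
      omega
    · have := sol_mono hu hv ⟨k1, k3⟩ ⟨h1, h3⟩ k5 h5 hgt
      omega
  have g2 : ∀ h ∈ H, h + 2 ∈ H → (h : ℝ) = u - v - 1 := by
    intro h hh hh'
    obtain ⟨p, hp, rfl⟩ := Finset.mem_image.1 hh
    obtain ⟨q, hq, hpq⟩ := Finset.mem_image.1 hh'
    obtain ⟨⟨h1, h2⟩, ⟨h3, h4⟩, h5⟩ := mem_S.1 hp
    obtain ⟨⟨k1, k2⟩, ⟨k3, k4⟩, k5⟩ := mem_S.1 hq
    have hq1 : q.1 = p.1 + 1 ∧ q.2 + 1 = p.2 := by
      rcases lt_trichotomy p.1 q.1 with hlt | heq | hgt
      · have := sol_mono hu hv ⟨h1, h3⟩ ⟨k1, k3⟩ h5 k5 hlt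
        omega
      · rw [heq] at h5
        have h3' : (0:ℝ) < p.2 := by exact_mod_cast h3
        have k3' : (0:ℝ) < q.2 := by exact_mod_cast k3
        have h6 : v / p.2 = v / q.2 := by linarith
        have h7 : (p.2:ℝ) = q.2 := by
          rw [div_eq_div_iff h3'.ne' k3'.ne'] at h6
          exact (mul_left_cancel₀ hv.ne' h6).symm
        have h8 : p.2 = q.2 := by exact_mod_cast h7
        omega
      · have := sol_mono hu hv ⟨k1, k3⟩ ⟨h1, h3⟩ k5 h5 hgt
        omega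
    have h1' : (0:ℝ) < p.1 := by exact_mod_cast h1
    have h3' : (1:ℝ) < p.2 := by
      have : 1 < p.2 := by omega
      exact_mod_cast this
    have e1 : (q.1:ℝ) = p.1 + 1 := by rw [hq1.1]; push_cast; ring
    have e2 : (q.2:ℝ) = p.2 - 1 := by
      have : (p.2:ℝ) = q.2 + 1 := by rw [← hq1.2]; push_cast; ring
      linarith
    rw [e1, e2] at k5
    have := step h1' h3' h5 k5
    push_cast
    exact this
  -- extremal differences
  obtain ⟨hmax, hmaxm, hmaxl⟩ := H.exists_max_image id hHne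
  obtain ⟨hmin, hminm, hminl⟩ := H.exists_min_image id hHne
  have hspan : 3 * (H.card : ℤ) ≤ hmax - hmin + 4 := by
    by_cases hex : ∃ h ∈ H, h + 2 ∈ H
    · obtain ⟨h0, hh0, hh0'⟩ := hex
      refine span_bound H hmin hmax h0 (fun h hh => ⟨hminl h hh, hmaxl h hh⟩) hHne g1 ?_
      intro h hh hh'
      have a1 := g2 h hh hh'
      have a2 := g2 h0 hh0 hh0'
      have : (h:ℝ) = h0 := by rw [a1, a2]
      exact_mod_cast this
    · exact span_bound H hmin hmax 0 (fun h hh => ⟨hminl h hh, hmaxl h hh⟩) hHne g1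
        (fun h hh hh' => absurd ⟨h, hh, hh'⟩ hex)
  obtain ⟨p, hp, hpe⟩ := Finset.mem_image.1 hmaxm
  obtain ⟨q, hq, hqe⟩ := Finset.mem_image.1 hminm
  have hspanR : 3 * ((S d u v).card : ℝ) ≤ hmax - hmin + 4 := by
    rw [← hHc]; exact_mod_cast hspan
  have hmaxR : (hmax : ℝ) = p.1 - p.2 := by rw [← hpe]; push_cast; ring
  have hminR : (hmin : ℝ) = q.1 - q.2 := by rw [← hqe]; push_cast; ring
  have a1 := upi p hp
  have a2 := lowj p hp
  have a3 := (lowi q hq).1
  have a4 := upj q hq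
  constructor
  · linarith
  · intro z1 z2
    have z1' : (b1:ℝ) = 0 := by exact_mod_cast z1
    have z2' : (b2:ℝ) = 0 := by exact_mod_cast z2
    have hq2 : q.2 < d := by
      have : (q.2:ℝ) < d := by linarith
      exact_mod_cast this
    have a5 := (lowi q hq).2 hq2
    linarith

/-! ### flags of the vertices -/

theorem S_swap {m i j : ℕ} {u v : ℝ} : (i, j) ∈ S m u v ↔ (j, i) ∈ S m v u := by
  rw [mem_S, mem_S]
  simp only
  constructor
  · rintro ⟨h1, h2, h3⟩; exact ⟨h2, h1, by rw [add_comm]; exact h3⟩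
  · rintro ⟨h1, h2, h3⟩; exact ⟨h2, h1, by rw [add_comm]; exact h3⟩

theorem flag_aux (_hu : 0 < u) (_hv : 0 < v) (hw : 0 < w) (hd : u + v + w = d)
    (h : ∃ j, (d, j) ∈ S d u v) : ∃ j, (d, j) ∈ S d u w := by
  obtain ⟨j, hj⟩ := h
  obtain ⟨⟨h1, _⟩, ⟨h3, h4⟩, h5⟩ := mem_S.1 hj
  simp only at h1 h3 h4 h5
  have hd0 : (0:ℝ) < d := by exact_mod_cast h1
  have hj0 : (0:ℝ) < j := by exact_mod_cast h3
  have hjd : j ≠ d := by
    rintro rfl
    rw [← add_div, div_eq_one_iff_eq hd0.ne'] at h5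
    linarith
  have hlt : j < d := lt_of_le_of_ne h4 hjd
  have hltR : (j:ℝ) < d := by exact_mod_cast hlt
  refine ⟨d - j, mem_S.2 ⟨⟨h1, le_rfl⟩, ⟨by simp only; omega, by simp only; omega⟩, ?_⟩⟩
  simp only
  rw [Nat.cast_sub h4]
  have h6 : (d:ℝ) - j ≠ 0 := by linarith
  field_simp at h5 ⊢
  nlinarith

theorem flag_iff (hu : 0 < u) (hv : 0 < v) (hw : 0 < w) (hd : u + v + w = d) :
    (∃ j, (d, j) ∈ S d u v) ↔ ∃ j, (d, j) ∈ S d u w :=
  ⟨flag_aux hu hv hw hd, flag_aux hu hw hv (by linarith)⟩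

open Classical in
/-- the total bound -/
theorem total_bound (hu : 0 < u) (hv : 0 < v) (hw : 0 < w) (hd : u + v + w = d) :
    (S (d - 1) u v).card + (S (d - 1) w v).card + (S (d - 1) w u).card +
      (if ∃ j, (d, j) ∈ S d w v then 1 else 0) + (if ∃ j, (d, j) ∈ S d u v then 1 else 0) +
      (if ∃ j, (d, j) ∈ S d v u then 1 else 0) ≤ d + 1 := by
  have hd0 : (0:ℝ) < d := by rw [← hd]; positivity
  set nA : ℕ := if ∃ j, (d, j) ∈ S d w v then 1 else 0 with hA
  set nB : ℕ := if ∃ j, (d, j) ∈ S d u v then 1 else 0 with hB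
  set nC : ℕ := if ∃ j, (d, j) ∈ S d v u then 1 else 0 with hC
  have eC : (∃ i, (i, d) ∈ S d u v) ↔ ∃ j, (d, j) ∈ S d v u :=
    ⟨fun ⟨i, hi⟩ => ⟨i, S_swap.1 hi⟩, fun ⟨i, hi⟩ => ⟨i, S_swap.1 hi⟩⟩
  have eC2 : (∃ i, (i, d) ∈ S d w v) ↔ ∃ j, (d, j) ∈ S d v u := by
    rw [flag_iff hv hu hw (by linarith)]
    exact ⟨fun ⟨i, hi⟩ => ⟨i, S_swap.1 hi⟩, fun ⟨i, hi⟩ => ⟨i, S_swap.1 hi⟩⟩
  have eA : (∃ j, (d, j) ∈ S d w u) ↔ ∃ j, (d, j) ∈ S d w v :=
    flag_iff hw hu hv (by linarith)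
  have eB : (∃ i, (i, d) ∈ S d w u) ↔ ∃ j, (d, j) ∈ S d u v := by
    rw [flag_iff hu hv hw hd]
    exact ⟨fun ⟨i, hi⟩ => ⟨i, S_swap.1 hi⟩, fun ⟨i, hi⟩ => ⟨i, S_swap.1 hi⟩⟩
  have p1 := pair_bound (d := d) hu hv hw hd nB nC hB (by simp only [hC, eC])
  have p2 := pair_bound (d := d) hw hv hu (by linarith) nA nC hA (by simp only [hC, eC2])
  have p3 := pair_bound (d := d) hw hu hv (by linarith) nA nB (by simp only [hA, eA])
    (by simp only [hB, eB])
  have hsum : d * w / (u + w) + d * w / (v + w) + (d * u / (w + u) + d * u / (v + u)) +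
      (d * v / (w + v) + d * v / (u + v)) = 3 * (d:ℝ) := by
    field_simp
    ring
  have hnn : nA + nB + nC = 0 ∨ 1 ≤ nA + nB + nC := by omega
  rcases hnn with h0 | h1
  · have a1 : nA = 0 := by omega
    have a2 : nB = 0 := by omega
    have a3 : nC = 0 := by omega
    have q1 := p1.2 a2 a3
    have q2 := p2.2 a1 a3
    have q3 := p3.2 a1 a2
    have hlt : 3 * (((S (d - 1) u v).card + (S (d - 1) w v).card + (S (d - 1) w u).card : ℕ) : ℝ) <
        3 * d + 6 := by
      push_cast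
      linarith
    have hlt' : 3 * ((S (d - 1) u v).card + (S (d - 1) w v).card + (S (d - 1) w u).card) <
        3 * d + 6 := by exact_mod_cast hlt
    omega
  · have q1 := p1.1
    have q2 := p2.1
    have q3 := p3.1
    have hle : 3 * (((S (d - 1) u v).card + (S (d - 1) w v).card + (S (d - 1) w u).card : ℕ) : ℝ) +
        4 * ((nA + nB + nC : ℕ) : ℝ) ≤ 3 * d + 6 := by
      push_cast
      linarith
    have hle' : 3 * ((S (d - 1) u v).card + (S (d - 1) w v).card + (S (d - 1) w u).card) +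
        4 * (nA + nB + nC) ≤ 3 * d + 6 := by exact_mod_cast hle
    omega

end Pool.Agent.R164.WS
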